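import Pool.Agent.N879.QM.AsmB

set_option autoImplicit false

/-!
Weighted mixed moments: replacement of the factors on the critical line by short Dirichlet polynomials, for
arbitrary weights on arbitrary subfamilies.
-/

namespace Pool.Agent.Run7.h473.QW

open Complex Filter Topology MeasureTheory Set
open Pool.Agent.N879.QM

noncomputable section

variable {k : ℕ}

/-- the first mean square, with weights -/
theorem E1w (hP : S_P1) (hO : S_OPB) (hT : S_TEL) (hc : S_CTS) (hk : 1 ≤ k) {θ η : ℝ} (hθ : 0 < θ) (hθ1 : θ ≤ 1)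
    (hη : 0 < η) (hη1 : η ≤ θ / 4) :
    ∃ C X₀ : ℝ, 0 < C ∧ ∀ (s : ℤ) (X : ℝ) (N : ℕ) (D : Finset ℕ) (W : ℕ → ℂ) (B : ℝ), s = 1 ∨ s = -1 → X₀ ≤ X →
      X ^ η / 2 ≤ N → (N : ℝ) ≤ X ^ η → 1 ≤ N → D ⊆ Q s X \ Ex s X (X ^ θ) (η / (8 * k)) → 0 < B →
      (∀ q ∈ D, ‖W q‖ ≤ B) →
      ∫⁻ β, ENNReal.ofReal (‖∑ q ∈ D,
        W q * (∏ j, LL s q (pt (β j)) - ∏ j, PN s q N (β j))‖ ^ 2) ∂(mS k (X ^ θ)) ≤
        ENNReal.ofReal (B ^ 2 * (C * X ^ (k * θ + 2 - η / 4))) := by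
  classical
  have hk0 : (0 : ℝ) < k := by exact_mod_cast hk
  set ρ : ℝ := η / (8 * k) with hρ
  have hρ0 : 0 < ρ := by positivity
  obtain ⟨CO, hCO, hO⟩ := hO ρ hρ0
  obtain ⟨CP, hCP, hP⟩ := hP
  have ev1 := log_small 1 hθ hρ0
  have ev2 : ∀ᶠ X : ℝ in atTop, 2 ≤ X ^ θ := (tendsto_rpow_atTop hθ).eventually_ge_atTop _
  obtain ⟨X₀, hX₀⟩ := eventually_atTop.1 ((ev1.and ev2).and (eventually_ge_atTop 2))
  refine ⟨4 ^ k * CO * (1 + CP) ^ (k - 1) * 4, X₀, by positivity, ?_⟩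
  intro s X N D W B hs hX hN hNX hN1 hDX hB hW
  obtain ⟨⟨v1, v2⟩, v3⟩ := hX₀ X hX
  have hX0 : 0 < X := by linarith
  have hX1 : 1 ≤ X := by linarith
  set A : ℝ := X ^ θ with hA
  have hAX : A ≤ X := by
    rw [hA]
    calc X ^ θ ≤ X ^ (1 : ℝ) := Real.rpow_le_rpow_of_exponent_le hX1 hθ1
      _ = X := Real.rpow_one X
  have hA0 : 0 < A := by linarith
  have hN0 : (0 : ℝ) < N := by exact_mod_cast hN1
  have hNA : (N : ℝ) ≤ A := by
    refine hNX.trans ?_
    apply Real.rpow_le_rpow_of_exponent_le hX1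
    linarith
  set d : ℝ := θ / 6 with hd
  set K0 : ℝ := CO * X ^ ρ * A * (X / √N + X ^ (1 + d) * A ^ (-(1 / 3) : ℝ) + X ^ (1 - d)) with hK0
  set V0 : ℝ := (1 + CP) * (A * X ^ ρ) with hV0
  have hK0' : 0 ≤ K0 := by positivity
  have hV0' : 0 ≤ V0 := by positivity
  have hDQ : D ⊆ Q s X := hDX.trans Finset.sdiff_subset
  have hDE : ∀ q ∈ D, q ∉ Ex s X A ρ := fun q hq => (Finset.mem_sdiff.1 (hDX hq)).2
  have hlogA : Real.log A ≤ X ^ ρ := by
    rw [hA, Real.log_rpow hX0]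
    simpa using v1
  -- roots of the weights
  have hroot : ∀ q : ℕ, ∃ u : ℂ, u ^ k = W q / B := fun q => IsAlgClosed.exists_pow_nat_eq _ (by omega)
  choose u hu using hroot
  have hu1 : ∀ q ∈ D, ‖u q‖ ≤ 1 := by
    intro q hq
    have h1 : ‖u q‖ ^ k ≤ 1 := by
      rw [← norm_pow, hu, norm_div, Complex.norm_real, Real.norm_of_nonneg hB.le, div_le_one hB]
      exact hW q hq
    exact (pow_le_one_iff_of_nonneg (norm_nonneg _) (by omega)).1 h1
  have hcu : ∀ q ∈ D, ∀ x : ℂ, ‖u q * x‖ ^ 2 ≤ ‖x‖ ^ 2 := by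
    intro q hq x
    rw [norm_mul]
    apply pow_le_pow_left₀ (by positivity)
    exact mul_le_of_le_one_left (norm_nonneg _) (hu1 q hq)
  have h1 := hT k D (fun q α => u q * LL s q (pt α)) (fun q α => u q * PN s q N α) A K0 V0 hA0 hK0' hV0'
    (fun q hq => continuous_const.mul (hc s q (Q_is (hDQ hq)).1)) (fun q _ => continuous_const.mul (PN_cont s q N))
    (fun c => by
      have h2 := hO s X A d N (fun q => if q ∈ D then c q * u q else 0) hs v2 hAX (by positivity)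
        (by rw [hd]; linarith) hN1
      have e1 : ∀ α : ℝ, ∑ q ∈ Q s X, (if q ∈ D then c q * u q else 0) * (LL s q (pt α) - PN s q N α) =
          ∑ q ∈ D, c q * (u q * LL s q (pt α) - u q * PN s q N α) := by
        intro α
        rw [← Finset.sum_subset hDQ (fun q _ hq => by rw [if_neg hq, zero_mul])]
        exact Finset.sum_congr rfl fun q hq => by rw [if_pos hq]; ring
      have e2 : ∑ q ∈ Q s X, ‖(if q ∈ D then c q * u q else 0)‖ ^ 2 = ∑ q ∈ D, ‖c q * u q‖ ^ 2 := by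
        rw [← Finset.sum_subset hDQ (fun q _ hq => by rw [if_neg hq]; simp)]
        exact Finset.sum_congr rfl fun q hq => by rw [if_pos hq]
      simp only [e1, e2] at h2
      refine h2.trans (mul_le_mul_of_nonneg_left ?_ hK0')
      refine Finset.sum_le_sum fun q hq => ?_
      rw [mul_comm]
      exact hcu q hq (c q))
    (fun q hq => by
      have h2 : ¬ (A * X ^ ρ < ∫ α in (-A)..A, ‖LL s q (pt α)‖ ^ 2) := by
        intro h3
        exact hDE q hq (Finset.mem_filter.2 ⟨hDQ hq, h3⟩)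
      have h4 : ∫ α in (-A)..A, ‖u q * LL s q (pt α)‖ ^ 2 ≤ ∫ α in (-A)..A, ‖LL s q (pt α)‖ ^ 2 := by
        have hcont := hc s q (Q_is (hDQ hq)).1
        apply intervalIntegral.integral_mono_on (by linarith)
        · exact ((continuous_const.mul hcont).norm.pow 2).intervalIntegrable _ _
        · exact (hcont.norm.pow 2).intervalIntegrable _ _
        · intro x _
          exact hcu q hq _
      refine h4.trans ((not_lt.1 h2).trans ?_)
      rw [hV0]
      have : 0 ≤ CP * (A * X ^ ρ) := by positivity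
      linarith)
    (fun q hq => by
      have h2 := (hP A N (fun n => vl s q n) v2 hNA (fun n => vl_le s q n)).2
      have h4 : ∫ α in (-A)..A, ‖u q * PN s q N α‖ ^ 2 ≤ ∫ α in (-A)..A, ‖PN s q N α‖ ^ 2 := by
        have hcont := PN_cont s q N
        apply intervalIntegral.integral_mono_on (by linarith)
        · exact ((continuous_const.mul hcont).norm.pow 2).intervalIntegrable _ _
        · exact (hcont.norm.pow 2).intervalIntegrable _ _
        · intro x _
          exact hcu q hq _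
      refine h4.trans (le_trans h2 ?_)
      rw [hV0]
      have h3 : CP * A * Real.log A ≤ CP * A * X ^ ρ := mul_le_mul_of_nonneg_left hlogA (by positivity)
      have : 0 ≤ A * X ^ ρ := by positivity
      linarith)
  -- numbers
  have e1 : X / √N ≤ 2 * X ^ (1 - η / 2) := by
    have h2 : √(X ^ η / 2) ≤ √N := Real.sqrt_le_sqrt hN
    have h4 : X ^ (η / 2) / 2 ≤ √(X ^ η / 2) := by
      apply Real.le_sqrt_of_sq_le
      have h5 : (X ^ (η / 2)) ^ 2 = X ^ η := by
        rw [← Real.rpow_natCast, ← Real.rpow_mul hX0.le]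
        congr 1
        push_cast; linarith
      have : (X ^ (η / 2) / 2) ^ 2 = (X ^ (η / 2)) ^ 2 / 4 := by ring
      rw [this, h5]
      have : 0 < X ^ η := by positivity
      linarith
    have h3 : 0 < X ^ (η / 2) := by positivity
    rw [div_le_iff₀ (by linarith)]
    have h6 : X = X ^ (1 - η / 2) * X ^ (η / 2) := by
      rw [← Real.rpow_add hX0]; ring_nf; exact (Real.rpow_one X).symm
    have h7 : 0 < X ^ (1 - η / 2) := by positivity
    calc X = 2 * X ^ (1 - η / 2) * (X ^ (η / 2) / 2) := by rw [mul_assoc]; nth_rewrite 1 [h6]; ring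
      _ ≤ 2 * X ^ (1 - η / 2) * √N := by
          apply mul_le_mul_of_nonneg_left _ (by positivity)
          linarith
  have e2 : X ^ (1 + d) * A ^ (-(1 / 3) : ℝ) ≤ X ^ (1 - η / 2) := by
    rw [hA, ← Real.rpow_mul hX0.le, ← Real.rpow_add hX0]
    apply Real.rpow_le_rpow_of_exponent_le hX1
    rw [hd]; linarith
  have e3 : X ^ (1 - d) ≤ X ^ (1 - η / 2) := by
    apply Real.rpow_le_rpow_of_exponent_le hX1
    rw [hd]; linarith
  have e4 : X / √N + X ^ (1 + d) * A ^ (-(1 / 3) : ℝ) + X ^ (1 - d) ≤ 4 * X ^ (1 - η / 2) := by linarith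
  have hAk : A ^ k = X ^ (k * θ) := by
    rw [hA, ← Real.rpow_natCast, ← Real.rpow_mul hX0.le]
    congr 1; ring
  have e5 : K0 * V0 ^ (k - 1) ≤ CO * (1 + CP) ^ (k - 1) * (X ^ (k * θ) * (X ^ ρ) ^ k) * (4 * X ^ (1 - η / 2)) := by
    have h2 : X ^ (k * θ) * (X ^ ρ) ^ k = A * X ^ ρ * (A * X ^ ρ) ^ (k - 1) := by
      rw [← hAk, ← mul_pow, ← pow_succ']; congr 1; omega
    rw [hK0, hV0, mul_pow, h2]
    have : CO * X ^ ρ * A * (X / √N + X ^ (1 + d) * A ^ (-(1 / 3) : ℝ) + X ^ (1 - d)) *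
        ((1 + CP) ^ (k - 1) * (A * X ^ ρ) ^ (k - 1)) =
      CO * (1 + CP) ^ (k - 1) * (A * X ^ ρ * (A * X ^ ρ) ^ (k - 1)) *
        (X / √N + X ^ (1 + d) * A ^ (-(1 / 3) : ℝ) + X ^ (1 - d)) := by ring
    rw [this]
    exact mul_le_mul_of_nonneg_left e4 (by positivity)
  have e6 : (X ^ ρ) ^ k = X ^ (η / 8) := by
    rw [← Real.rpow_natCast, ← Real.rpow_mul hX0.le]
    congr 1
    rw [hρ]
    field_simp
  have e7 : (D.card : ℝ) ≤ X := le_trans (by exact_mod_cast Finset.card_le_card hDQ) (Q_card (s := s) hX1)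
  have e8 : X ^ (k * θ) * X ^ (η / 8) * X ^ (1 - η / 2) * X ≤ X ^ (k * θ + 2 - η / 4) := by
    nth_rewrite 4 [← Real.rpow_one X]
    rw [← Real.rpow_add hX0, ← Real.rpow_add hX0, ← Real.rpow_add hX0]
    apply Real.rpow_le_rpow_of_exponent_le hX1
    linarith
  have e9 : 4 ^ k * K0 * V0 ^ (k - 1) * (D.card : ℝ) ≤
      4 ^ k * CO * (1 + CP) ^ (k - 1) * 4 * X ^ (k * θ + 2 - η / 4) := by
    calc 4 ^ k * K0 * V0 ^ (k - 1) * (D.card : ℝ) = 4 ^ k * (K0 * V0 ^ (k - 1)) * (D.card : ℝ) := by ring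
      _ ≤ 4 ^ k * (CO * (1 + CP) ^ (k - 1) * (X ^ (k * θ) * (X ^ ρ) ^ k) * (4 * X ^ (1 - η / 2))) * X := by gcongr
      _ = 4 ^ k * CO * (1 + CP) ^ (k - 1) * 4 * (X ^ (k * θ) * X ^ (η / 8) * X ^ (1 - η / 2) * X) := by
          rw [e6]; ring
      _ ≤ _ := mul_le_mul_of_nonneg_left e8 (by positivity)
  have h2 := h1.trans (ENNReal.ofReal_le_ofReal e9)
  -- back to the weights
  have e10 : ∀ β : Fin k → ℝ, ENNReal.ofReal (‖∑ q ∈ D,
      W q * (∏ j, LL s q (pt (β j)) - ∏ j, PN s q N (β j))‖ ^ 2) =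
      ENNReal.ofReal (B ^ 2) * ENNReal.ofReal (‖∑ q ∈ D,
        (∏ j, (u q * LL s q (pt (β j))) - ∏ j, (u q * PN s q N (β j)))‖ ^ 2) := by
    intro β
    rw [← ENNReal.ofReal_mul (by positivity)]
    congr 1
    have hB' : (B : ℂ) ≠ 0 := by exact_mod_cast hB.ne'
    have e11 : ∑ q ∈ D, W q * (∏ j, LL s q (pt (β j)) - ∏ j, PN s q N (β j)) =
        (B : ℂ) * ∑ q ∈ D, (∏ j, (u q * LL s q (pt (β j))) - ∏ j, (u q * PN s q N (β j))) := by
      rw [Finset.mul_sum]
      refine Finset.sum_congr rfl fun q _ => ?_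
      rw [Finset.prod_mul_distrib, Finset.prod_mul_distrib, Finset.prod_const, Finset.card_univ, Fintype.card_fin, hu]
      field_simp
    rw [e11, norm_mul, Complex.norm_real, Real.norm_of_nonneg hB.le, mul_pow]
  simp only [e10]
  rw [lintegral_const_mul' _ _ ENNReal.ofReal_ne_top, ENNReal.ofReal_mul (by positivity)]
  exact mul_le_mul_right h2 _

end

end Pool.Agent.Run7.h473.QW
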