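import Pool.Agent.Run7.h473.QW.Gd
import Pool.Agent.N879.QM.Mb
import Pool.Agent.N879.QM.Afs
import Pool.Agent.N879.QM.Asm1

set_option autoImplicit false

/-!
Weighted mixed moments: to the right of the critical line, `L` minus a short Dirichlet polynomial is small in mean
square over the family.
-/

namespace Pool.Agent.Run7.h473.QW

open Complex
open Pool.Agent.N879.QM

noncomputable section

/-- sums of `wq n / n` -/
lemma sum_wq_div (M : ℕ) : ∑ n ∈ Finset.Icc 1 M, wq n * (n : ℝ)⁻¹ ≤ (1 + Real.log M) ^ 2 := by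
  rcases Nat.eq_zero_or_pos M with hM | hM
  · subst hM
    simp
  have hM1 : (1 : ℝ) ≤ M := by exact_mod_cast hM
  have hlog : 0 ≤ Real.log M := Real.log_nonneg hM1
  have h5 : ∑ m ∈ Finset.Icc 1 M, (m : ℝ)⁻¹ ≤ 1 + Real.log M := by
    have h5 := harmonic_le_one_add_log M
    rw [harmonic_eq_sum_Icc] at h5
    push_cast at h5
    exact h5
  have h1 : ∀ n ∈ Finset.Icc 1 M, wq n * (n : ℝ)⁻¹ ≤
      ∑ m ∈ Finset.Icc 1 M, if m ^ 2 ∣ n then (m : ℝ) * (n : ℝ)⁻¹ else 0 := by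
    intro n hn
    rw [Finset.mem_Icc] at hn
    unfold wq
    rw [Finset.sum_mul, ← Finset.sum_filter]
    apply Finset.sum_le_sum_of_subset_of_nonneg
    · intro m hm
      rw [Finset.mem_filter, Finset.mem_Icc] at hm ⊢
      exact ⟨⟨hm.1.1, hm.1.2.trans hn.2⟩, hm.2⟩
    · intro m _ _
      positivity
  refine (Finset.sum_le_sum h1).trans ?_
  rw [Finset.sum_comm]
  have h2 : ∀ m ∈ Finset.Icc 1 M, (∑ n ∈ Finset.Icc 1 M, if m ^ 2 ∣ n then (m : ℝ) * (n : ℝ)⁻¹ else 0) ≤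
      (m : ℝ)⁻¹ * (1 + Real.log M) := by
    intro m hm
    rw [Finset.mem_Icc] at hm
    have hm0 : (0 : ℝ) < m := by exact_mod_cast hm.1
    rw [← Finset.sum_filter]
    have h3 : (Finset.Icc 1 M).filter (fun n => m ^ 2 ∣ n) ⊆ (Finset.Icc 1 M).image (fun j => m ^ 2 * j) := by
      intro n hn
      rw [Finset.mem_filter, Finset.mem_Icc] at hn
      obtain ⟨⟨a1, a2⟩, j, hj⟩ := hn
      rw [Finset.mem_image]
      refine ⟨j, ?_, hj.symm⟩
      rw [Finset.mem_Icc]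
      have hm2 : 1 ≤ m ^ 2 := Nat.one_le_pow _ _ hm.1
      constructor
      · rcases Nat.eq_zero_or_pos j with h | h
        · subst h; omega
        · exact h
      · calc j = 1 * j := (one_mul j).symm
          _ ≤ m ^ 2 * j := Nat.mul_le_mul_right _ hm2
          _ = n := hj.symm
          _ ≤ M := a2
    have h4 : ∑ n ∈ (Finset.Icc 1 M).image (fun j : ℕ => m ^ 2 * j), (m : ℝ) * ((n : ℕ) : ℝ)⁻¹ =
        ∑ j ∈ Finset.Icc 1 M, (m : ℝ) * ((m ^ 2 * j : ℕ) : ℝ)⁻¹ := by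
      refine Finset.sum_image (f := fun n : ℕ => (m : ℝ) * ((n : ℕ) : ℝ)⁻¹) (g := fun j : ℕ => m ^ 2 * j) ?_
      intro a _ b _ hab
      have : 0 < m ^ 2 := Nat.pow_pos (by omega)
      exact Nat.eq_of_mul_eq_mul_left this hab
    calc ∑ n ∈ (Finset.Icc 1 M).filter (fun n => m ^ 2 ∣ n), (m : ℝ) * (n : ℝ)⁻¹
        ≤ ∑ n ∈ (Finset.Icc 1 M).image (fun j : ℕ => m ^ 2 * j), (m : ℝ) * ((n : ℕ) : ℝ)⁻¹ :=
          Finset.sum_le_sum_of_subset_of_nonneg h3 fun _ _ _ => by positivity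
      _ = ∑ j ∈ Finset.Icc 1 M, (m : ℝ) * ((m ^ 2 * j : ℕ) : ℝ)⁻¹ := h4
      _ = (m : ℝ)⁻¹ * ∑ j ∈ Finset.Icc 1 M, (j : ℝ)⁻¹ := by
          rw [Finset.mul_sum]
          refine Finset.sum_congr rfl fun j _ => ?_
          push_cast
          field_simp
      _ ≤ (m : ℝ)⁻¹ * (1 + Real.log M) := mul_le_mul_of_nonneg_left h5 (by positivity)
  refine (Finset.sum_le_sum h2).trans ?_
  rw [← Finset.sum_mul]
  calc (∑ m ∈ Finset.Icc 1 M, (m : ℝ)⁻¹) * (1 + Real.log M) ≤ (1 + Real.log M) * (1 + Real.log M) :=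
        mul_le_mul_of_nonneg_right h5 (by linarith)
    _ = _ := by ring

/-- the tail beyond `X` -/
lemma tail (hPV : S_PVI) : ∃ C : ℝ, 0 < C ∧ ∀ (s : ℤ) (q M : ℕ) (z : ℂ), Is s q → 1 ≤ M → 1 / 2 ≤ z.re →
    ‖LL s q z - Pz s q M z‖ ≤ C * (1 + |z.im|) * (√(q : ℝ) * Real.log q) * (M : ℝ) ^ (-z.re) := by
  obtain ⟨C, hC, h⟩ := hPV
  refine ⟨2 * √C, by positivity, ?_⟩
  intro s q M z hq hM hz
  have : NeZero q := ⟨by have := hq.1; omega⟩
  have hq1 : (1 : ℝ) ≤ q := by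
    have := hq.1
    exact_mod_cast (by omega : 1 ≤ q)
  have hlq : 0 ≤ Real.log q := Real.log_nonneg hq1
  have hχ : ch s q ≠ 1 := (Is_ch hq).2.2.1
  have hs : 0 < z.re := by linarith
  have hE : ∀ t, ‖H307R2.Ech (ch s q) M t‖ ≤ √C * (√(q : ℝ) * Real.log q) := by
    intro t
    unfold H307R2.Ech
    rcases le_total M ⌊t⌋₊ with h1 | h1
    · obtain ⟨t', ht'⟩ := Nat.exists_eq_add_of_le h1
      rw [ht']
      have h2 := h s q M t' hq
      have h3 : (√C * (√(q : ℝ) * Real.log q)) ^ 2 = C * q * Real.log q ^ 2 := by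
        rw [mul_pow, mul_pow, Real.sq_sqrt hC.le, Real.sq_sqrt (Nat.cast_nonneg q)]
        ring
      rw [← h3] at h2
      exact le_of_sq_le_sq h2 (by positivity)
    · rw [Finset.Ioc_eq_empty_of_le h1, Finset.sum_empty, norm_zero]
      positivity
  have h1 := H307R2.LFunction_eq hχ hM hs
  have h2 := H307R2.TM_norm_le hM hE hs
  rw [LL_eq, h1]
  have e : (∑ n ∈ Finset.Icc 1 M, (ch s q) (n : ZMod q) * (n : ℂ) ^ (-z)) = Pz s q M z := rfl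
  rw [e, add_sub_cancel_left, norm_mul]
  have h3 : ‖z‖ ≤ z.re + |z.im| := by
    have := Complex.norm_le_abs_re_add_abs_im z
    rwa [abs_of_pos hs] at this
  have h4 : ‖z‖ / z.re ≤ 2 * (1 + |z.im|) := by
    rw [div_le_iff₀ hs]
    have : 0 ≤ |z.im| := abs_nonneg _
    nlinarith
  have hM0 : (0 : ℝ) < (M : ℝ) ^ (-z.re) := Real.rpow_pos_of_pos (by exact_mod_cast hM) _
  calc ‖z‖ * ‖H307R2.TM M (H307R2.Ech (ch s q) M) z‖
      ≤ ‖z‖ * (√C * (√(q : ℝ) * Real.log q) * ((M : ℝ) ^ (-z.re) / z.re)) := by gcongr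
    _ = √C * (‖z‖ / z.re) * (√(q : ℝ) * Real.log q) * (M : ℝ) ^ (-z.re) := by ring
    _ ≤ √C * (2 * (1 + |z.im|)) * (√(q : ℝ) * Real.log q) * (M : ℝ) ^ (-z.re) := by gcongr
    _ = _ := by ring

/-- `L` minus a short Dirichlet polynomial in mean square over the family -/
theorem lz (hHB : S_HBG) (hPV : S_PVI) {κ ε : ℝ} (hκ : 0 < κ) (hε : 0 < ε) :
    ∃ C : ℝ, 0 < C ∧ ∀ (s : ℤ) (X : ℝ) (N : ℕ) (z : ℂ), s = 1 ∨ s = -1 → 2 ≤ X → 1 ≤ N → (N : ℝ) ≤ X →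
      1 / 2 + κ ≤ z.re →
      ∑ q ∈ Q s X, ‖LL s q z - Pz s q N z‖ ^ 2 ≤ C * (1 + |z.im|) ^ 2 * X ^ (1 + ε) * (N : ℝ) ^ (-(2 * κ)) := by
  classical
  obtain ⟨CT, hCT, hT⟩ := tail hPV
  obtain ⟨CH, hCH, hH⟩ := hHB (ε / 4) (by positivity)
  refine ⟨2 * (CT ^ 2 * (2 / ε) ^ 2) + 2 * (CH * 3 * 2 ^ (ε / 4) * (1 + 8 / ε) ^ 2 * 2 ^ (ε / 4)), by positivity, ?_⟩
  intro s X N z hs hX hN hNX hz
  have hX0 : 0 < X := by linarith
  have hX1 : 1 ≤ X := by linarith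
  have hN0 : (0 : ℝ) < N := by exact_mod_cast hN
  set M : ℕ := ⌈X⌉₊ with hM
  have hMX : X ≤ M := Nat.le_ceil X
  have hM2 : (M : ℝ) ≤ 2 * X := by
    have := Nat.ceil_lt_add_one (by linarith : 0 ≤ X)
    rw [← hM] at this
    linarith
  have hM0 : (0 : ℝ) < M := by linarith
  have hM1 : 1 ≤ M := by exact_mod_cast (by linarith : (1 : ℝ) ≤ M)
  have hNM : N ≤ M := by exact_mod_cast hNX.trans hMX
  have hzre : 1 / 2 ≤ z.re := by linarith
  have himn : 0 ≤ |z.im| := abs_nonneg _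
  have him1 : 1 ≤ (1 + |z.im|) ^ 2 := by nlinarith
  have hNκ : X ^ (-(2 * κ)) ≤ (N : ℝ) ^ (-(2 * κ)) :=
    Real.rpow_le_rpow_of_nonpos hN0 hNX (by linarith)
  -- the tail
  have t1 : ∀ q ∈ Q s X, ‖LL s q z - Pz s q M z‖ ^ 2 ≤
      CT ^ 2 * (2 / ε) ^ 2 * (1 + |z.im|) ^ 2 * (X ^ ε * (N : ℝ) ^ (-(2 * κ))) := by
    intro q hq
    obtain ⟨hq1, hqX⟩ := Q_is hq
    have hq2 : (1 : ℝ) ≤ q := by
      have := hq1.1
      exact_mod_cast (by omega : 1 ≤ q)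
    have h1 := hT s q M z hq1 hM1 hzre
    have h2 : (M : ℝ) ^ (-z.re) ≤ X ^ (-(1 / 2 + κ)) := by
      calc (M : ℝ) ^ (-z.re) ≤ X ^ (-z.re) := Real.rpow_le_rpow_of_nonpos hX0 hMX (by linarith)
        _ ≤ X ^ (-(1 / 2 + κ)) := Real.rpow_le_rpow_of_exponent_le hX1 (by linarith)
    have h3 : √(q : ℝ) ≤ X ^ (1 / 2 : ℝ) := by
      rw [← Real.sqrt_eq_rpow]
      exact Real.sqrt_le_sqrt hqX.le
    have h4 : Real.log q ≤ (2 / ε) * X ^ (ε / 2) := by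
      have h5 := Real.log_le_rpow_div (x := (q : ℝ)) (by linarith) (show 0 < ε / 2 by positivity)
      have h6 : (q : ℝ) ^ (ε / 2) ≤ X ^ (ε / 2) := Real.rpow_le_rpow (by linarith) hqX.le (by positivity)
      calc Real.log q ≤ (q : ℝ) ^ (ε / 2) / (ε / 2) := h5
        _ = (2 / ε) * (q : ℝ) ^ (ε / 2) := by field_simp
        _ ≤ _ := mul_le_mul_of_nonneg_left h6 (by positivity)
    have hlq : 0 ≤ Real.log q := Real.log_nonneg hq2
    have h7 : ‖LL s q z - Pz s q M z‖ ≤ CT * (1 + |z.im|) * ((2 / ε) * (X ^ (ε / 2) * X ^ (-κ))) := by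
      refine h1.trans ?_
      have h8 : √(q : ℝ) * Real.log q * (M : ℝ) ^ (-z.re) ≤
          X ^ (1 / 2 : ℝ) * ((2 / ε) * X ^ (ε / 2)) * X ^ (-(1 / 2 + κ)) := by gcongr
      have h9 : X ^ (1 / 2 : ℝ) * ((2 / ε) * X ^ (ε / 2)) * X ^ (-(1 / 2 + κ)) =
          (2 / ε) * (X ^ (ε / 2) * X ^ (-κ)) := by
        have : X ^ (-κ) = X ^ (1 / 2 : ℝ) * X ^ (-(1 / 2 + κ)) := by
          rw [← Real.rpow_add hX0]; congr 1; ring
        rw [this]; ring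
      rw [h9] at h8
      calc CT * (1 + |z.im|) * (√(q : ℝ) * Real.log q) * (M : ℝ) ^ (-z.re)
          = CT * (1 + |z.im|) * (√(q : ℝ) * Real.log q * (M : ℝ) ^ (-z.re)) := by ring
        _ ≤ _ := mul_le_mul_of_nonneg_left h8 (by positivity)
    calc ‖LL s q z - Pz s q M z‖ ^ 2 ≤ (CT * (1 + |z.im|) * ((2 / ε) * (X ^ (ε / 2) * X ^ (-κ)))) ^ 2 :=
          pow_le_pow_left₀ (norm_nonneg _) h7 2
      _ = CT ^ 2 * (2 / ε) ^ 2 * (1 + |z.im|) ^ 2 * ((X ^ (ε / 2)) ^ 2 * (X ^ (-κ)) ^ 2) := by ring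
      _ = CT ^ 2 * (2 / ε) ^ 2 * (1 + |z.im|) ^ 2 * (X ^ ε * X ^ (-(2 * κ))) := by
          rw [rsq hX0, rsq hX0]
          congr 3
          · ring
          · ring
      _ ≤ _ := by gcongr
  have t2 : ∑ q ∈ Q s X, ‖LL s q z - Pz s q M z‖ ^ 2 ≤
      CT ^ 2 * (2 / ε) ^ 2 * (1 + |z.im|) ^ 2 * (X ^ (1 + ε) * (N : ℝ) ^ (-(2 * κ))) := by
    refine (Finset.sum_le_sum t1).trans ?_
    rw [Finset.sum_const, nsmul_eq_mul]
    calc ((Q s X).card : ℝ) * (CT ^ 2 * (2 / ε) ^ 2 * (1 + |z.im|) ^ 2 * (X ^ ε * (N : ℝ) ^ (-(2 * κ))))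
        ≤ X * (CT ^ 2 * (2 / ε) ^ 2 * (1 + |z.im|) ^ 2 * (X ^ ε * (N : ℝ) ^ (-(2 * κ)))) :=
          mul_le_mul_of_nonneg_right (Q_card hX1) (by positivity)
      _ = CT ^ 2 * (2 / ε) ^ 2 * (1 + |z.im|) ^ 2 * ((X ^ (1 : ℝ) * X ^ ε) * (N : ℝ) ^ (-(2 * κ))) := by
          rw [Real.rpow_one]; ring
      _ = _ := by rw [← Real.rpow_add hX0]
  -- the middle piece
  obtain ⟨y, hy⟩ : ∃ y : ℕ → ℂ, y = fun n => if N < n then (n : ℂ) ^ (-z) else 0 := ⟨_, rfl⟩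
  have hmid : ∀ q, Pz s q M z - Pz s q N z = ∑ n ∈ Finset.Icc 1 M, vl s q n * y n := by
    intro q
    have h1 : Pz s q N z = ∑ n ∈ Finset.Icc 1 M, vl s q n * (if n ≤ N then (n : ℂ) ^ (-z) else 0) := by
      unfold Pz
      have h2 : Finset.Icc 1 N = (Finset.Icc 1 M).filter fun n => n ≤ N := by
        ext n
        rw [Finset.mem_filter, Finset.mem_Icc, Finset.mem_Icc]
        omega
      rw [h2, Finset.sum_filter]
      refine Finset.sum_congr rfl fun n _ => ?_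
      split_ifs <;> simp
    rw [h1]
    unfold Pz
    rw [← Finset.sum_sub_distrib]
    refine Finset.sum_congr rfl fun n _ => ?_
    rw [hy]
    simp only
    by_cases h3 : n ≤ N
    · rw [if_pos h3, if_neg (by omega)]; ring
    · rw [if_neg h3, if_pos (by omega)]; ring
  have t3 := hH s X M y hs hX1 hM1
  have hlogM : 0 ≤ Real.log M := Real.log_nonneg (by linarith)
  have t4 : ∑ n ∈ Finset.Icc 1 M, wq n * ‖y n‖ ^ 2 ≤ (N : ℝ) ^ (-(2 * κ)) * (1 + Real.log M) ^ 2 := by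
    have h1 : ∀ n ∈ Finset.Icc 1 M, wq n * ‖y n‖ ^ 2 ≤ (N : ℝ) ^ (-(2 * κ)) * (wq n * (n : ℝ)⁻¹) := by
      intro n hn
      rw [Finset.mem_Icc] at hn
      have hn0 : (0 : ℝ) < n := by exact_mod_cast hn.1
      have hn1 : (1 : ℝ) ≤ n := by exact_mod_cast hn.1
      have h2 : ‖y n‖ ^ 2 ≤ (N : ℝ) ^ (-(2 * κ)) * (n : ℝ)⁻¹ := by
        rw [hy]
        simp only
        split_ifs with h3
        · have h3' : (N : ℝ) ≤ n := by exact_mod_cast h3.le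
          have h4 : ‖(n : ℂ) ^ (-z)‖ ≤ (n : ℝ) ^ (-(1 / 2 + κ)) := by
            rw [Complex.norm_natCast_cpow_of_pos (by omega)]
            apply Real.rpow_le_rpow_of_exponent_le hn1
            rw [Complex.neg_re]
            linarith
          calc ‖(n : ℂ) ^ (-z)‖ ^ 2 ≤ ((n : ℝ) ^ (-(1 / 2 + κ))) ^ 2 :=
                pow_le_pow_left₀ (norm_nonneg _) h4 2
            _ = (n : ℝ) ^ (-(2 * κ)) * (n : ℝ)⁻¹ := by
                rw [← Real.rpow_natCast, ← Real.rpow_mul hn0.le, ← Real.rpow_neg_one (n : ℝ),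
                  ← Real.rpow_add hn0]
                congr 1
                push_cast
                ring
            _ ≤ _ := mul_le_mul_of_nonneg_right
                (Real.rpow_le_rpow_of_nonpos hN0 h3' (by linarith)) (by positivity)
        · rw [norm_zero, zero_pow two_ne_zero]
          positivity
      calc wq n * ‖y n‖ ^ 2 ≤ wq n * ((N : ℝ) ^ (-(2 * κ)) * (n : ℝ)⁻¹) :=
            mul_le_mul_of_nonneg_left h2 (Mbaux.wq_nonneg n)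
        _ = _ := by ring
    refine (Finset.sum_le_sum h1).trans ?_
    rw [← Finset.mul_sum]
    exact mul_le_mul_of_nonneg_left (sum_wq_div M) (by positivity)
  have t5 : ∑ q ∈ Q s X, ‖Pz s q M z - Pz s q N z‖ ^ 2 ≤
      CH * 3 * 2 ^ (ε / 4) * (1 + 8 / ε) ^ 2 * 2 ^ (ε / 4) * (X ^ (1 + ε) * (N : ℝ) ^ (-(2 * κ))) := by
    simp only [hmid]
    refine t3.trans ?_
    have h1 : (X * M) ^ (ε / 4) ≤ 2 ^ (ε / 4) * X ^ (ε / 2) := by
      calc (X * M) ^ (ε / 4) ≤ (2 * X ^ (2 : ℝ)) ^ (ε / 4) := by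
            apply Real.rpow_le_rpow (by positivity) _ (by positivity)
            rw [Real.rpow_two]
            nlinarith
        _ = 2 ^ (ε / 4) * X ^ (ε / 2) := by
            rw [Real.mul_rpow (by norm_num) (by positivity), ← Real.rpow_mul hX0.le]
            congr 2; ring
    have h2 : Real.log M ≤ 8 / ε * (2 ^ (ε / 8) * X ^ (ε / 8)) := by
      have h3 := Real.log_le_rpow_div (x := (M : ℝ)) (by linarith) (show 0 < ε / 8 by positivity)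
      have h4 : (M : ℝ) ^ (ε / 8) ≤ (2 * X) ^ (ε / 8) := Real.rpow_le_rpow (by linarith) hM2 (by positivity)
      rw [Real.mul_rpow (by norm_num) hX0.le] at h4
      calc Real.log M ≤ (M : ℝ) ^ (ε / 8) / (ε / 8) := h3
        _ = 8 / ε * (M : ℝ) ^ (ε / 8) := by field_simp
        _ ≤ _ := mul_le_mul_of_nonneg_left h4 (by positivity)
    have h3 : (1 : ℝ) ≤ 2 ^ (ε / 8) * X ^ (ε / 8) := by
      have a1 : (1 : ℝ) ≤ 2 ^ (ε / 8) := Real.one_le_rpow (by norm_num) (by positivity)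
      have a2 : (1 : ℝ) ≤ X ^ (ε / 8) := Real.one_le_rpow hX1 (by positivity)
      nlinarith
    have h4 : (1 + Real.log M) ^ 2 ≤ (1 + 8 / ε) ^ 2 * (2 ^ (ε / 4) * X ^ (ε / 4)) := by
      have h5 : 1 + Real.log M ≤ (1 + 8 / ε) * (2 ^ (ε / 8) * X ^ (ε / 8)) := by linarith
      calc (1 + Real.log M) ^ 2 ≤ ((1 + 8 / ε) * (2 ^ (ε / 8) * X ^ (ε / 8))) ^ 2 :=
            pow_le_pow_left₀ (by linarith) h5 2
        _ = (1 + 8 / ε) ^ 2 * ((2 ^ (ε / 8)) ^ 2 * (X ^ (ε / 8)) ^ 2) := by ring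
        _ = _ := by
            rw [rsq hX0, rsq two_pos]
            congr 3
            · ring
            · ring
    have h6 : X + M ≤ 3 * X := by linarith
    calc CH * (X * M) ^ (ε / 4) * (X + M) * ∑ n ∈ Finset.Icc 1 M, wq n * ‖y n‖ ^ 2
        ≤ CH * (2 ^ (ε / 4) * X ^ (ε / 2)) * (3 * X) *
          ((N : ℝ) ^ (-(2 * κ)) * ((1 + 8 / ε) ^ 2 * (2 ^ (ε / 4) * X ^ (ε / 4)))) := by
          have h7 : ∑ n ∈ Finset.Icc 1 M, wq n * ‖y n‖ ^ 2 ≤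
              (N : ℝ) ^ (-(2 * κ)) * ((1 + 8 / ε) ^ 2 * (2 ^ (ε / 4) * X ^ (ε / 4))) :=
            t4.trans (mul_le_mul_of_nonneg_left h4 (by positivity))
          have h8 : 0 ≤ ∑ n ∈ Finset.Icc 1 M, wq n * ‖y n‖ ^ 2 :=
            Finset.sum_nonneg fun n _ => mul_nonneg (Mbaux.wq_nonneg n) (by positivity)
          gcongr
      _ = CH * 3 * 2 ^ (ε / 4) * (1 + 8 / ε) ^ 2 * 2 ^ (ε / 4) *
          ((X ^ (ε / 2) * X ^ (1 : ℝ) * X ^ (ε / 4)) * (N : ℝ) ^ (-(2 * κ))) := by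
          rw [Real.rpow_one]; ring
      _ ≤ _ := by
          apply mul_le_mul_of_nonneg_left _ (by positivity)
          apply mul_le_mul_of_nonneg_right _ (by positivity)
          rw [← Real.rpow_add hX0, ← Real.rpow_add hX0]
          exact Real.rpow_le_rpow_of_exponent_le hX1 (by linarith)
  -- together
  have t6 : ∀ q ∈ Q s X, ‖LL s q z - Pz s q N z‖ ^ 2 ≤
      2 * ‖LL s q z - Pz s q M z‖ ^ 2 + 2 * ‖Pz s q M z - Pz s q N z‖ ^ 2 := by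
    intro q _
    have h1 : ‖LL s q z - Pz s q N z‖ ≤ ‖LL s q z - Pz s q M z‖ + ‖Pz s q M z - Pz s q N z‖ := by
      have := norm_add_le (LL s q z - Pz s q M z) (Pz s q M z - Pz s q N z)
      rwa [sub_add_sub_cancel] at this
    have h2 : 0 ≤ ‖LL s q z - Pz s q N z‖ := norm_nonneg _
    nlinarith [sq_nonneg (‖LL s q z - Pz s q M z‖ - ‖Pz s q M z - Pz s q N z‖)]
  refine (Finset.sum_le_sum t6).trans ?_
  rw [Finset.sum_add_distrib, ← Finset.mul_sum, ← Finset.mul_sum]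
  have hXN : 0 ≤ X ^ (1 + ε) * (N : ℝ) ^ (-(2 * κ)) := by positivity
  have t7 : CH * 3 * 2 ^ (ε / 4) * (1 + 8 / ε) ^ 2 * 2 ^ (ε / 4) * (X ^ (1 + ε) * (N : ℝ) ^ (-(2 * κ))) ≤
      CH * 3 * 2 ^ (ε / 4) * (1 + 8 / ε) ^ 2 * 2 ^ (ε / 4) * ((1 + |z.im|) ^ 2 * (X ^ (1 + ε) * (N : ℝ) ^ (-(2 * κ)))) := by
    apply mul_le_mul_of_nonneg_left _ (by positivity)
    nlinarith
  calc 2 * ∑ q ∈ Q s X, ‖LL s q z - Pz s q M z‖ ^ 2 + 2 * ∑ q ∈ Q s X, ‖Pz s q M z - Pz s q N z‖ ^ 2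
      ≤ 2 * (CT ^ 2 * (2 / ε) ^ 2 * (1 + |z.im|) ^ 2 * (X ^ (1 + ε) * (N : ℝ) ^ (-(2 * κ)))) +
        2 * (CH * 3 * 2 ^ (ε / 4) * (1 + 8 / ε) ^ 2 * 2 ^ (ε / 4) *
          ((1 + |z.im|) ^ 2 * (X ^ (1 + ε) * (N : ℝ) ^ (-(2 * κ))))) := by linarith [t5.trans t7]
    _ = _ := by ring

end

end Pool.Agent.Run7.h473.QW
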