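import Pool.Agent.Run7.h473.QW.Pw
import Pool.Agent.Run7.h473.QW.Lz
import Pool.Agent.Run7.h473.QW.Ew
import Pool.Agent.N879.QM.AllB

set_option autoImplicit false

/-!
Weighted mixed moments: assembly.
-/

namespace Pool.Agent.Run7.h473.QW

open Complex Filter Topology MeasureTheory Set
open Pool.Agent.N879.QM

noncomputable section

/-- Cauchy-Schwarz -/
lemma cs {S : Finset ℕ} {a b : ℕ → ℂ} {P R Y : ℝ} (h1 : ∑ q ∈ S, ‖a q‖ ^ 2 ≤ P) (h2 : ∑ q ∈ S, ‖b q‖ ^ 2 ≤ R)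
    (hY : P * R ≤ Y ^ 2) (hY0 : 0 ≤ Y) : ‖∑ q ∈ S, a q * b q‖ ≤ Y := by
  have h3 : ‖∑ q ∈ S, a q * b q‖ ≤ ∑ q ∈ S, ‖a q‖ * ‖b q‖ := by
    refine (norm_sum_le _ _).trans (Finset.sum_le_sum fun q _ => ?_)
    rw [norm_mul]
  have h4 : (∑ q ∈ S, ‖a q‖ * ‖b q‖) ^ 2 ≤ (∑ q ∈ S, ‖a q‖ ^ 2) * ∑ q ∈ S, ‖b q‖ ^ 2 :=
    Finset.sum_mul_sq_le_sq_mul_sq _ _ _
  have h5 : 0 ≤ ∑ q ∈ S, ‖a q‖ ^ 2 := Finset.sum_nonneg fun q _ => by positivity
  have h6 : 0 ≤ ∑ q ∈ S, ‖b q‖ ^ 2 := Finset.sum_nonneg fun q _ => by positivity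
  have h7 : (∑ q ∈ S, ‖a q‖ ^ 2) * ∑ q ∈ S, ‖b q‖ ^ 2 ≤ P * R :=
    mul_le_mul h1 h2 h6 (h5.trans h1)
  exact h3.trans (le_of_sq_le_sq (h4.trans (h7.trans hY)) hY0)

/-- differences of products -/
lemma prod_sub {ι : Type} [DecidableEq ι] (S : Finset ι) (a b : ι → ℂ) {B : ℝ} (hB : 1 ≤ B)
    (ha : ∀ i ∈ S, ‖a i‖ ≤ B) (hb : ∀ i ∈ S, ‖b i‖ ≤ B) :
    ‖∏ i ∈ S, a i - ∏ i ∈ S, b i‖ ≤ B ^ S.card * ∑ i ∈ S, ‖a i - b i‖ := by
  induction S using Finset.induction_on with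
  | empty => simp
  | insert x S hx ih =>
    rw [Finset.prod_insert hx, Finset.prod_insert hx, Finset.card_insert_of_notMem hx, Finset.sum_insert hx]
    have ih' := ih (fun i hi => ha i (Finset.mem_insert_of_mem hi)) (fun i hi => hb i (Finset.mem_insert_of_mem hi))
    have hB0 : 0 ≤ B := by linarith
    have h1 : ‖∏ i ∈ S, b i‖ ≤ B ^ S.card := by
      rw [norm_prod, ← Finset.prod_const]
      exact Finset.prod_le_prod (fun _ _ => norm_nonneg _) fun i hi => hb i (Finset.mem_insert_of_mem hi)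
    have h2 : a x * ∏ i ∈ S, a i - b x * ∏ i ∈ S, b i =
        a x * (∏ i ∈ S, a i - ∏ i ∈ S, b i) + (a x - b x) * ∏ i ∈ S, b i := by ring
    rw [h2]
    refine (norm_add_le _ _).trans ?_
    rw [norm_mul, norm_mul]
    have h3 : ‖a x‖ * ‖∏ i ∈ S, a i - ∏ i ∈ S, b i‖ ≤ B * (B ^ S.card * ∑ i ∈ S, ‖a i - b i‖) :=
      mul_le_mul (ha x (Finset.mem_insert_self _ _)) ih' (norm_nonneg _) hB0
    have h4 : ‖a x - b x‖ * ‖∏ i ∈ S, b i‖ ≤ ‖a x - b x‖ * (B * B ^ S.card) := by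
      apply mul_le_mul_of_nonneg_left _ (norm_nonneg _)
      have : 0 ≤ B ^ S.card := by positivity
      nlinarith
    calc ‖a x‖ * ‖∏ i ∈ S, a i - ∏ i ∈ S, b i‖ + ‖a x - b x‖ * ‖∏ i ∈ S, b i‖
        ≤ B * (B ^ S.card * ∑ i ∈ S, ‖a i - b i‖) + ‖a x - b x‖ * (B * B ^ S.card) := add_le_add h3 h4
      _ = B ^ (S.card + 1) * (‖a x - b x‖ + ∑ i ∈ S, ‖a i - b i‖) := by ring

lemma Pz_le (s : ℤ) (q N : ℕ) {z : ℂ} (hz : 0 ≤ z.re) : ‖Pz s q N z‖ ≤ N := by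
  unfold Pz
  calc ‖∑ n ∈ Finset.Icc 1 N, vl s q n * (n : ℂ) ^ (-z)‖ ≤ ∑ n ∈ Finset.Icc 1 N, (1 : ℝ) := by
        refine (norm_sum_le _ _).trans (Finset.sum_le_sum fun n hn => ?_)
        rw [Finset.mem_Icc] at hn
        have hn1 : (1 : ℝ) ≤ n := by exact_mod_cast hn.1
        rw [norm_mul, Complex.norm_natCast_cpow_of_pos (by omega)]
        have h1 : (n : ℝ) ^ (-z).re ≤ 1 := by
          apply Real.rpow_le_one_of_one_le_of_nonpos hn1
          rw [Complex.neg_re]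
          linarith
        have h2 : 0 ≤ (n : ℝ) ^ (-z).re := by positivity
        calc ‖vl s q n‖ * (n : ℝ) ^ (-z).re ≤ 1 * 1 := mul_le_mul (vl_le1 s q n) h1 h2 zero_le_one
          _ = 1 := one_mul 1
    _ = N := by rw [Finset.sum_const, Nat.card_Icc, nsmul_eq_mul, mul_one]; simp

lemma rpow_ev (C : ℝ) {a : ℝ} (ha : 0 < a) : ∀ᶠ X : ℝ in atTop, C ≤ X ^ a :=
  (tendsto_rpow_atTop ha).eventually_ge_atTop _

/-- the difference between the weighted mixed moment and its Dirichlet polynomial version -/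
def TT (k m : ℕ) (s : ℤ) (X : ℝ) (N : ℕ) (E : Finset ℕ) (w : ℕ → ℂ) (z : Fin m → ℂ) (β : Fin k → ℝ) : ℂ :=
  (∑ q ∈ Q s X \ E, w q * ((∏ i, LL s q (z i)) * ∏ j, LL s q (pt (β j)))) -
    ∑ q ∈ Q s X, w q * ((∏ i, Pz s q N (z i)) * ∏ j, PN s q N (β j))

theorem main_w' (k m : ℕ) (hk : 1 ≤ k) (s : ℤ) (hs : s = 1 ∨ s = -1) (θ κ : ℝ) (hθ : 0 < θ) (hθ1 : θ ≤ 1)
    (hκ : 0 < κ) (hκ1 : κ ≤ 1 / 2) :
    ∃ δ η X₀ : ℝ, 0 < δ ∧ 0 < η ∧ δ ≤ η ∧ η * (16 * (m + k + 1)) ≤ θ ∧ ∀ X : ℝ, X₀ ≤ X → 2 ≤ X ∧ 1 ≤ X ^ η ∧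
      ∀ z : Fin m → ℂ, (∀ i, 1 / 2 + κ ≤ (z i).re ∧ |(z i).im| ≤ X ^ δ) →
      ∃ E : Finset ℕ, E ⊆ Q s X ∧ (E.card : ℝ) ≤ X ^ (1 - δ) ∧
        ∀ w : ℕ → ℂ, (∀ q, ‖w q‖ ≤ 1) →
          mS k (X ^ θ) {β | X ^ (1 - δ) / 2 < ‖TT k m s X ⌊X ^ η⌋₊ E w z β‖} ≤
            ENNReal.ofReal (X ^ (k * θ - 2 * δ)) := by
  classical
  have hU := t_UNI
  have hAV := t_AVG hU
  have hG := t_GK hU
  have hP1 := t_P1
  have hP2 := t_P2 hG
  have hMV := t_MVG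
  have hB := t_BLK hMV
  have hL := t_LSB
  have hO := t_ONE
  have hPV := t_PVI
  have hHB := t_HBG
  have hWQ := t_WQ
  have hMID := t_MID hB hHB hWQ
  have hBP := t_BIGP hB hL hPV
  have hB1 := t_BIG1P hB hO hPV
  have hAF := t_AFS
  have hC := t_CTS
  have hMB := t_MB hHB hB1 hAF hC
  have hOP := t_OPB hP2 hMID hBP hAF hC
  have hTE := t_TEL
  have hk0 : (0 : ℝ) < k := by exact_mod_cast hk
  have hk1 : (1 : ℝ) ≤ k := by exact_mod_cast hk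
  have hm0 : (0 : ℝ) ≤ m := Nat.cast_nonneg m
  set η : ℝ := θ / (16 * (m + k + 1)) with hη
  have hη0 : 0 < η := by positivity
  have hηθ : η ≤ θ / 4 := by
    rw [hη]
    exact div_le_div_of_nonneg_left hθ.le (by norm_num) (by linarith)
  have hηK : η * (2 * (m + k)) ≤ 1 / 8 := by
    rw [hη, div_mul_eq_mul_div, div_le_iff₀ (by positivity)]
    nlinarith
  set η₂ : ℝ := κ * η / (32 * (m + 1)) with hη₂
  have hη₂0 : 0 < η₂ := by positivity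
  set μ : ℝ := κ * η₂ with hμ
  have hμ0 : 0 < μ := by positivity
  set δ : ℝ := μ / (32 * (k + 1)) with hδ
  have hδ0 : 0 < δ := by positivity
  set ρ : ℝ := η / (8 * k) with hρ
  have hρ0 : 0 < ρ := by positivity
  have hη1 : η ≤ 1 / 32 := by
    rw [hη, div_le_iff₀ (by positivity)]
    nlinarith
  -- comparison of the exponents
  have c1 : m * η₂ ≤ κ * η / 32 := by
    rw [hη₂, mul_div_assoc', div_le_div_iff₀ (by positivity) (by norm_num)]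
    have : 0 ≤ κ * η := by positivity
    nlinarith
  have c2 : η₂ ≤ η / 64 := by
    rw [hη₂, div_le_div_iff₀ (by positivity) (by norm_num)]
    nlinarith [mul_nonneg hη0.le hm0]
  have c3 : 64 * δ ≤ μ := by
    rw [hδ, mul_div_assoc', div_le_iff₀ (by positivity)]
    nlinarith
  have c4 : μ ≤ η₂ / 2 := by rw [hμ]; nlinarith
  have c5 : 18 * δ ≤ ρ := by
    rw [hρ, le_div_iff₀ (by positivity)]
    have h1 : 32 * (k + 1) * δ = μ := by rw [hδ]; field_simp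
    nlinarith
  have c6 : μ ≤ κ * η / 64 := by
    rw [hμ]
    nlinarith [c2]
  have c7 : κ * η ≤ η / 2 := by nlinarith
  have hδ8 : δ ≤ 1 / 8 := by linarith
  obtain ⟨C1, X1, hC1, hE1⟩ := E1w (k := k) hP1 hOP hTE hC hk hθ hθ1 hη0 hηθ
  obtain ⟨CE, hCE, hEx⟩ := Ex_card hMB hρ0
  obtain ⟨CL, hCL, hLZ⟩ := lz hHB hPV hκ hδ0
  obtain ⟨CA, hCA, hPA⟩ := pw (Fin k) hAV hδ0
  obtain ⟨CB, hCB, hPB⟩ := pw (Fin m ⊕ Fin k) hAV hδ0
  -- large X
  have ev1 := rpow_ev (2 * CE) hδ0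
  have ev2 := rpow_ev (2 * (16 * m * CL)) hδ0
  have ev3 := rpow_ev (16 * 9 ^ m * C1) hδ0
  have ev4 := rpow_ev (64 * (m ^ 2 * 9 ^ m * 8 * CL) * CA) hδ0
  have ev5 := rpow_ev (64 * CB) hδ0
  have ev6 : ∀ᶠ X : ℝ in atTop, 2 ≤ X ^ θ := rpow_ev 2 hθ
  obtain ⟨X₀, hX₀⟩ := eventually_atTop.1 ((((ev1.and ev2).and (ev3.and ev4)).and (ev5.and ev6)).and
    ((eventually_ge_atTop X1).and (eventually_ge_atTop 2)))
  refine ⟨δ, η, X₀, hδ0, hη0, by linarith, le_of_eq (by rw [hη]; field_simp), ?_⟩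
  intro X hX
  obtain ⟨⟨⟨⟨v1, v2⟩, v3, v4⟩, v5, v6⟩, v7, v8⟩ := hX₀ X hX
  have hX0 : 0 < X := by linarith
  have hX1 : 1 ≤ X := by linarith
  have hXη1 : 1 ≤ X ^ η := Real.one_le_rpow hX1 hη0.le
  refine ⟨v8, hXη1, ?_⟩
  intro z hz
  set N : ℕ := ⌊X ^ η⌋₊ with hNd
  obtain ⟨f1, f2, f3⟩ := floor_half hXη1
  rw [← hNd] at f1 f2 f3
  have hXη₂1 : 1 ≤ X ^ η₂ := Real.one_le_rpow hX1 hη₂0.le
  set N₂ : ℕ := ⌊X ^ η₂⌋₊ with hN₂d
  obtain ⟨g1, g2, g3⟩ := floor_half hXη₂1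
  rw [← hN₂d] at g1 g2 g3
  have hN0 : (0 : ℝ) < N := by exact_mod_cast f3
  have hN₂0 : (0 : ℝ) < N₂ := by exact_mod_cast g3
  have hNX : (N : ℝ) ≤ X := f2.trans (by
    calc X ^ η ≤ X ^ (1 : ℝ) := Real.rpow_le_rpow_of_exponent_le hX1 (by linarith)
      _ = X := Real.rpow_one X)
  have hN₂X : (N₂ : ℝ) ≤ X := g2.trans (by
    calc X ^ η₂ ≤ X ^ (1 : ℝ) := Real.rpow_le_rpow_of_exponent_le hX1 (by linarith)
      _ = X := Real.rpow_one X)
  set A : ℝ := X ^ θ with hA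
  have hAX : A ≤ X := by
    rw [hA]
    calc X ^ θ ≤ X ^ (1 : ℝ) := Real.rpow_le_rpow_of_exponent_le hX1 hθ1
      _ = X := Real.rpow_one X
  -- mean squares of the differences at the points z
  have hXδ1 : 1 ≤ X ^ δ := Real.one_le_rpow hX1 hδ0.le
  have him : ∀ i, (1 + |(z i).im|) ^ 2 ≤ 4 * X ^ (2 * δ) := by
    intro i
    have h1 := (hz i).2
    have h2 : 1 + |(z i).im| ≤ 2 * X ^ δ := by linarith
    calc (1 + |(z i).im|) ^ 2 ≤ (2 * X ^ δ) ^ 2 := pow_le_pow_left₀ (by positivity) h2 2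
      _ = 4 * X ^ (2 * δ) := by
          rw [mul_pow, ← Real.rpow_natCast (X ^ δ), ← Real.rpow_mul hX0.le]
          norm_num
          congr 1; ring
  have hpow : ∀ (M : ℕ) (e : ℝ), 0 < e → X ^ e / 2 ≤ M → (M : ℝ) ^ (-(2 * κ)) ≤ 2 * X ^ (-(2 * (κ * e))) := by
    intro M e he hM
    have h0 : 0 < X ^ e / 2 := by positivity
    calc (M : ℝ) ^ (-(2 * κ)) ≤ (X ^ e / 2) ^ (-(2 * κ)) := Real.rpow_le_rpow_of_nonpos h0 hM (by linarith)
      _ = (X ^ e) ^ (-(2 * κ)) * (1 / 2 : ℝ) ^ (-(2 * κ)) := by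
          rw [div_eq_mul_one_div, Real.mul_rpow (by positivity) (by norm_num)]
      _ ≤ (X ^ e) ^ (-(2 * κ)) * 2 := by
          apply mul_le_mul_of_nonneg_left _ (by positivity)
          rw [one_div, Real.inv_rpow (by norm_num), Real.rpow_neg (by norm_num), inv_inv]
          calc (2 : ℝ) ^ (2 * κ) ≤ 2 ^ (1 : ℝ) := Real.rpow_le_rpow_of_exponent_le (by norm_num) (by linarith)
            _ = 2 := Real.rpow_one 2
      _ = 2 * X ^ (-(2 * (κ * e))) := by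
          rw [← Real.rpow_mul hX0.le]
          rw [mul_comm]
          congr 2; ring
  have hms : ∀ (M : ℕ) (e : ℝ), 0 < e → 1 ≤ M → (M : ℝ) ≤ X → X ^ e / 2 ≤ M → ∀ i,
      ∑ q ∈ Q s X, ‖LL s q (z i) - Pz s q M (z i)‖ ^ 2 ≤ 8 * CL * X ^ (1 + 3 * δ - 2 * (κ * e)) := by
    intro M e he hM1 hMX hM i
    refine (hLZ s X M (z i) hs v8 hM1 hMX (hz i).1).trans ?_
    calc CL * (1 + |(z i).im|) ^ 2 * X ^ (1 + δ) * (M : ℝ) ^ (-(2 * κ))
        ≤ CL * (4 * X ^ (2 * δ)) * X ^ (1 + δ) * (2 * X ^ (-(2 * (κ * e)))) := by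
          have h1 := him i
          have h2 := hpow M e he hM
          gcongr
      _ = 8 * CL * (X ^ (2 * δ) * X ^ (1 + δ) * X ^ (-(2 * (κ * e)))) := by ring
      _ = 8 * CL * X ^ (1 + 3 * δ - 2 * (κ * e)) := by
          rw [← Real.rpow_add hX0, ← Real.rpow_add hX0]
          congr 2; ring
  have hms1 := hms N η hη0 f3 hNX f1
  have hms2 := hms N₂ η₂ hη₂0 g3 hN₂X g1
  -- the removed set
  set Bad : Finset ℕ := (Q s X).filter (fun q => ∃ i, 1 < ‖LL s q (z i) - Pz s q N (z i)‖ ∨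
    1 < ‖LL s q (z i) - Pz s q N₂ (z i)‖) with hBad
  set E : Finset ℕ := Ex s X A ρ ∪ Bad with hEd
  have hEQ : E ⊆ Q s X := Finset.union_subset (Ex_sub _ _ _ _) (Finset.filter_subset _ _)
  have hBadcard : (Bad.card : ℝ) ≤ 16 * m * CL * X ^ (1 + 3 * δ - 2 * μ) := by
    have h1 : (Bad.card : ℝ) ≤ ∑ q ∈ Q s X, ∑ i, (‖LL s q (z i) - Pz s q N (z i)‖ ^ 2 +
        ‖LL s q (z i) - Pz s q N₂ (z i)‖ ^ 2) := by
      calc (Bad.card : ℝ) = ∑ q ∈ Bad, (1 : ℝ) := by rw [Finset.sum_const, nsmul_eq_mul, mul_one]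
        _ ≤ ∑ q ∈ Bad, ∑ i, (‖LL s q (z i) - Pz s q N (z i)‖ ^ 2 +
            ‖LL s q (z i) - Pz s q N₂ (z i)‖ ^ 2) := by
            refine Finset.sum_le_sum fun q hq => ?_
            obtain ⟨i, hi⟩ := (Finset.mem_filter.1 hq).2
            have h2 : (1 : ℝ) ≤ ‖LL s q (z i) - Pz s q N (z i)‖ ^ 2 +
                ‖LL s q (z i) - Pz s q N₂ (z i)‖ ^ 2 := by
              have a1 : 0 ≤ ‖LL s q (z i) - Pz s q N (z i)‖ ^ 2 := by positivity
              have a2 : 0 ≤ ‖LL s q (z i) - Pz s q N₂ (z i)‖ ^ 2 := by positivity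
              rcases hi with h | h
              · nlinarith
              · nlinarith
            refine h2.trans (Finset.single_le_sum (f := fun i => ‖LL s q (z i) - Pz s q N (z i)‖ ^ 2 +
              ‖LL s q (z i) - Pz s q N₂ (z i)‖ ^ 2) (fun _ _ => by positivity) (Finset.mem_univ i))
        _ ≤ _ := Finset.sum_le_sum_of_subset_of_nonneg (Finset.filter_subset _ _)
            fun q _ _ => Finset.sum_nonneg fun _ _ => by positivity
    rw [Finset.sum_comm] at h1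
    refine h1.trans ?_
    have h2 : ∀ i ∈ (Finset.univ : Finset (Fin m)), ∑ q ∈ Q s X, (‖LL s q (z i) - Pz s q N (z i)‖ ^ 2 +
        ‖LL s q (z i) - Pz s q N₂ (z i)‖ ^ 2) ≤ 16 * CL * X ^ (1 + 3 * δ - 2 * μ) := by
      intro i _
      rw [Finset.sum_add_distrib]
      have h3 := hms1 i
      have h4 := hms2 i
      have h5 : X ^ (1 + 3 * δ - 2 * (κ * η)) ≤ X ^ (1 + 3 * δ - 2 * μ) := by
        apply Real.rpow_le_rpow_of_exponent_le hX1
        have : 0 < κ * η := by positivity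
        linarith
      have h6 : 8 * CL * X ^ (1 + 3 * δ - 2 * (κ * η)) ≤ 8 * CL * X ^ (1 + 3 * δ - 2 * μ) :=
        mul_le_mul_of_nonneg_left h5 (by positivity)
      have h7 : κ * η₂ = μ := rfl
      rw [h7] at h4
      linarith
    refine (Finset.sum_le_sum h2).trans ?_
    rw [Finset.sum_const, Finset.card_univ, Fintype.card_fin, nsmul_eq_mul]
    apply le_of_eq; ring
  have hEcard : (E.card : ℝ) ≤ X ^ (1 - 8 * δ) := by
    have h1 : (E.card : ℝ) ≤ (Ex s X A ρ).card + Bad.card := by exact_mod_cast Finset.card_union_le _ _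
    have h2 := hEx s X A hs v6 hAX
    have h3 : CE * X ^ (1 - ρ / 2) ≤ X ^ (1 - 8 * δ) / 2 := by
      have h4 : X ^ (1 - ρ / 2) ≤ X ^ (1 - 9 * δ) := by
        apply Real.rpow_le_rpow_of_exponent_le hX1
        linarith
      have h5 : X ^ (1 - 8 * δ) = X ^ δ * X ^ (1 - 9 * δ) := by
        rw [← Real.rpow_add hX0]; congr 1; ring
      rw [h5]
      have h6 : 0 < X ^ (1 - 9 * δ) := by positivity
      calc CE * X ^ (1 - ρ / 2) ≤ CE * X ^ (1 - 9 * δ) := mul_le_mul_of_nonneg_left h4 hCE.le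
        _ ≤ X ^ δ / 2 * X ^ (1 - 9 * δ) := mul_le_mul_of_nonneg_right (by linarith) h6.le
        _ = _ := by ring
    have h3' : 16 * m * CL * X ^ (1 + 3 * δ - 2 * μ) ≤ X ^ (1 - 8 * δ) / 2 := by
      have h4 : X ^ (1 + 3 * δ - 2 * μ) ≤ X ^ (1 - 9 * δ) := by
        apply Real.rpow_le_rpow_of_exponent_le hX1
        linarith
      have h5 : X ^ (1 - 8 * δ) = X ^ δ * X ^ (1 - 9 * δ) := by
        rw [← Real.rpow_add hX0]; congr 1; ring
      rw [h5]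
      have h6 : 0 < X ^ (1 - 9 * δ) := by positivity
      calc 16 * m * CL * X ^ (1 + 3 * δ - 2 * μ) ≤ 16 * m * CL * X ^ (1 - 9 * δ) :=
            mul_le_mul_of_nonneg_left h4 (by positivity)
        _ ≤ X ^ δ / 2 * X ^ (1 - 9 * δ) := mul_le_mul_of_nonneg_right (by linarith) h6.le
        _ = _ := by ring
    linarith
  refine ⟨E, hEQ, hEcard.trans (Real.rpow_le_rpow_of_exponent_le hX1 (by linarith)), ?_⟩
  intro w hw
  -- pointwise bounds outside E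
  set B1 : ℝ := 3 * X ^ η₂ with hB1d
  have hB11 : 1 ≤ B1 := by rw [hB1d]; linarith
  have hnot : ∀ q ∈ Q s X \ E, ∀ i, ‖LL s q (z i) - Pz s q N (z i)‖ ≤ 1 ∧
      ‖LL s q (z i) - Pz s q N₂ (z i)‖ ≤ 1 := by
    intro q hq i
    rw [Finset.mem_sdiff, hEd, Finset.mem_union, not_or, hBad, Finset.mem_filter, not_and] at hq
    have h1 := hq.2.2 hq.1
    push_neg at h1
    exact h1 i
  have hLb : ∀ q ∈ Q s X \ E, ∀ i, ‖LL s q (z i)‖ ≤ 2 * X ^ η₂ := by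
    intro q hq i
    have h1 := (hnot q hq i).2
    have hre : 0 ≤ (z i).re := by linarith [(hz i).1]
    have h2 := Pz_le s q N₂ hre
    have h3 : ‖LL s q (z i)‖ ≤ ‖LL s q (z i) - Pz s q N₂ (z i)‖ + ‖Pz s q N₂ (z i)‖ := by
      have := norm_add_le (LL s q (z i) - Pz s q N₂ (z i)) (Pz s q N₂ (z i))
      rwa [sub_add_cancel] at this
    linarith
  have hLB : ∀ q ∈ Q s X \ E, ∀ i, ‖LL s q (z i)‖ ≤ B1 := by
    intro q hq i
    rw [hB1d]
    linarith [hLb q hq i]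
  have hPB1 : ∀ q ∈ Q s X \ E, ∀ i, ‖Pz s q N (z i)‖ ≤ B1 := by
    intro q hq i
    have h1 := (hnot q hq i).1
    have h3 : ‖Pz s q N (z i)‖ ≤ ‖LL s q (z i) - Pz s q N (z i)‖ + ‖LL s q (z i)‖ := by
      have := norm_sub_le (LL s q (z i)) (LL s q (z i) - Pz s q N (z i))
      rw [sub_sub_cancel] at this
      linarith
    rw [hB1d]
    linarith [hLb q hq i]
  have hB1m : B1 ^ m = 3 ^ m * X ^ (m * η₂) := by
    rw [hB1d, mul_pow, ← Real.rpow_natCast (X ^ η₂), ← Real.rpow_mul hX0.le]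
    congr 2; ring
  have hB1m2 : (B1 ^ m) ^ 2 = 9 ^ m * X ^ (2 * (m * η₂)) := by
    rw [hB1m, mul_pow, ← Real.rpow_natCast (X ^ (m * η₂)), ← Real.rpow_mul hX0.le, ← pow_mul, mul_comm m 2, pow_mul]
    norm_num
    congr 1; ring
  -- the three parts
  set D1 : (Fin k → ℝ) → ℂ := fun β => ∑ q ∈ Q s X \ E,
    (w q * ∏ i, LL s q (z i)) * (∏ j, LL s q (pt (β j)) - ∏ j, PN s q N (β j)) with hD1
  set D2 : (Fin k → ℝ) → ℂ := fun β => ∑ q ∈ Q s X \ E,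
    (w q * (∏ i, LL s q (z i) - ∏ i, Pz s q N (z i))) * ∏ j, PN s q N (β j) with hD2
  set D3 : (Fin k → ℝ) → ℂ := fun β => ∑ q ∈ E,
    w q * ((∏ i, Pz s q N (z i)) * ∏ j, PN s q N (β j)) with hD3
  have hTT : ∀ β, TT k m s X N E w z β = D1 β + D2 β - D3 β := by
    intro β
    have e0 : ∑ q ∈ Q s X, w q * ((∏ i, Pz s q N (z i)) * ∏ j, PN s q N (β j)) =
        (∑ q ∈ Q s X \ E, w q * ((∏ i, Pz s q N (z i)) * ∏ j, PN s q N (β j))) + D3 β :=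
      (Finset.sum_sdiff hEQ).symm
    unfold TT
    rw [e0]
    have e1 : (∑ q ∈ Q s X \ E, w q * ((∏ i, LL s q (z i)) * ∏ j, LL s q (pt (β j)))) =
        D1 β + D2 β + ∑ q ∈ Q s X \ E, w q * ((∏ i, Pz s q N (z i)) * ∏ j, PN s q N (β j)) := by
      simp only [hD1, hD2]
      rw [← Finset.sum_add_distrib, ← Finset.sum_add_distrib]
      refine Finset.sum_congr rfl fun q _ => ?_
      ring
    rw [e1]
    ring
  have hY0 : 0 ≤ X ^ (1 - δ) / 8 := by positivity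
  have hY2 : (X ^ (1 - δ) / 8) ^ 2 = X ^ (2 - 2 * δ) / 64 := by
    rw [div_pow, ← Real.rpow_natCast, ← Real.rpow_mul hX0.le]
    norm_num
    congr 1; ring
  have hNk : (N : ℝ) ^ (2 * k) ≤ X ^ (1 / 2 : ℝ) := by
    calc (N : ℝ) ^ (2 * k) ≤ (X ^ η) ^ (2 * k) := pow_le_pow_left₀ hN0.le f2 _
      _ = X ^ (η * (2 * k)) := by
          rw [← Real.rpow_natCast, ← Real.rpow_mul hX0.le]; push_cast; rfl
      _ ≤ X ^ (1 / 2 : ℝ) := by
          apply Real.rpow_le_rpow_of_exponent_le hX1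
          have : 0 ≤ η * (2 * m) := by positivity
          nlinarith
  have hNmk : (N : ℝ) ^ (2 * (m + k)) ≤ X ^ (1 / 2 : ℝ) := by
    calc (N : ℝ) ^ (2 * (m + k)) ≤ (X ^ η) ^ (2 * (m + k)) := pow_le_pow_left₀ hN0.le f2 _
      _ = X ^ (η * (2 * (m + k))) := by
          rw [← Real.rpow_natCast, ← Real.rpow_mul hX0.le]; push_cast; rfl
      _ ≤ X ^ (1 / 2 : ℝ) := Real.rpow_le_rpow_of_exponent_le hX1 (by linarith)
  have hptre : ∀ α : ℝ, (1 / 2 : ℝ) ≤ (pt α).re := by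
    intro α
    unfold pt
    simp
  -- part 2
  have hD2b : ∀ β, ‖D2 β‖ ≤ X ^ (1 - δ) / 8 := by
    intro β
    have h1 : ∑ q ∈ Q s X \ E, ‖w q * (∏ i, LL s q (z i) - ∏ i, Pz s q N (z i))‖ ^ 2 ≤
        m ^ 2 * 9 ^ m * 8 * CL * X ^ (1 + 3 * δ + 2 * (m * η₂) - 2 * (κ * η)) := by
      have h2 : ∀ q ∈ Q s X \ E, ‖w q * (∏ i, LL s q (z i) - ∏ i, Pz s q N (z i))‖ ^ 2 ≤
          (B1 ^ m) ^ 2 * (m * ∑ i, ‖LL s q (z i) - Pz s q N (z i)‖ ^ 2) := by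
        intro q hq
        have h3 := prod_sub Finset.univ (fun i => LL s q (z i)) (fun i => Pz s q N (z i)) hB11
          (fun i _ => hLB q hq i) (fun i _ => hPB1 q hq i)
        rw [Finset.card_univ, Fintype.card_fin] at h3
        have h4 : ‖w q * (∏ i, LL s q (z i) - ∏ i, Pz s q N (z i))‖ ≤
            B1 ^ m * ∑ i, ‖LL s q (z i) - Pz s q N (z i)‖ := by
          rw [norm_mul]
          calc ‖w q‖ * ‖∏ i, LL s q (z i) - ∏ i, Pz s q N (z i)‖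
              ≤ 1 * ‖∏ i, LL s q (z i) - ∏ i, Pz s q N (z i)‖ :=
                mul_le_mul_of_nonneg_right (hw q) (norm_nonneg _)
            _ ≤ _ := by rw [one_mul]; exact h3
        have h5 : (∑ i, ‖LL s q (z i) - Pz s q N (z i)‖) ^ 2 ≤
            m * ∑ i, ‖LL s q (z i) - Pz s q N (z i)‖ ^ 2 := by
          have := sq_sum_le_card_mul_sum_sq (s := (Finset.univ : Finset (Fin m)))
            (f := fun i => ‖LL s q (z i) - Pz s q N (z i)‖)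
          rwa [Finset.card_univ, Fintype.card_fin] at this
        calc ‖w q * (∏ i, LL s q (z i) - ∏ i, Pz s q N (z i))‖ ^ 2
            ≤ (B1 ^ m * ∑ i, ‖LL s q (z i) - Pz s q N (z i)‖) ^ 2 := pow_le_pow_left₀ (norm_nonneg _) h4 2
          _ = (B1 ^ m) ^ 2 * (∑ i, ‖LL s q (z i) - Pz s q N (z i)‖) ^ 2 := by ring
          _ ≤ _ := mul_le_mul_of_nonneg_left h5 (by positivity)
      refine (Finset.sum_le_sum h2).trans ?_
      rw [← Finset.mul_sum, ← Finset.mul_sum]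
      have h6 : ∑ q ∈ Q s X \ E, ∑ i, ‖LL s q (z i) - Pz s q N (z i)‖ ^ 2 ≤
          m * (8 * CL * X ^ (1 + 3 * δ - 2 * (κ * η))) := by
        calc ∑ q ∈ Q s X \ E, ∑ i, ‖LL s q (z i) - Pz s q N (z i)‖ ^ 2
            ≤ ∑ q ∈ Q s X, ∑ i, ‖LL s q (z i) - Pz s q N (z i)‖ ^ 2 :=
              Finset.sum_le_sum_of_subset_of_nonneg Finset.sdiff_subset
                fun q _ _ => Finset.sum_nonneg fun _ _ => by positivity
          _ = ∑ i, ∑ q ∈ Q s X, ‖LL s q (z i) - Pz s q N (z i)‖ ^ 2 := Finset.sum_comm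
          _ ≤ ∑ _i : Fin m, 8 * CL * X ^ (1 + 3 * δ - 2 * (κ * η)) := Finset.sum_le_sum fun i _ => hms1 i
          _ = _ := by rw [Finset.sum_const, Finset.card_univ, Fintype.card_fin, nsmul_eq_mul]
      calc (B1 ^ m) ^ 2 * (m * ∑ q ∈ Q s X \ E, ∑ i, ‖LL s q (z i) - Pz s q N (z i)‖ ^ 2)
          ≤ (B1 ^ m) ^ 2 * (m * (m * (8 * CL * X ^ (1 + 3 * δ - 2 * (κ * η))))) := by gcongr
        _ = m ^ 2 * 9 ^ m * 8 * CL * (X ^ (2 * (m * η₂)) * X ^ (1 + 3 * δ - 2 * (κ * η))) := by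
            rw [hB1m2]; ring
        _ = _ := by
            rw [← Real.rpow_add hX0]
            congr 2; ring
    have h2 : ∑ q ∈ Q s X \ E, ‖∏ j, PN s q N (β j)‖ ^ 2 ≤ CA * X ^ (1 + δ) := by
      have h3 := hPA s X N (fun j => pt (β j)) hs hX1 f3 (by rw [Fintype.card_fin]; exact hNk) (fun j => hptre _)
      refine le_trans ?_ h3
      calc ∑ q ∈ Q s X \ E, ‖∏ j, PN s q N (β j)‖ ^ 2 ≤ ∑ q ∈ Q s X, ‖∏ j, PN s q N (β j)‖ ^ 2 :=
            Finset.sum_le_sum_of_subset_of_nonneg Finset.sdiff_subset fun q _ _ => by positivity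
        _ = _ := by
            refine Finset.sum_congr rfl fun q _ => ?_
            rw [norm_prod, ← Finset.prod_pow]
            rfl
    refine cs h1 h2 ?_ hY0
    rw [hY2]
    have h3 : m ^ 2 * 9 ^ m * 8 * CL * X ^ (1 + 3 * δ + 2 * (m * η₂) - 2 * (κ * η)) * (CA * X ^ (1 + δ)) =
        (64 * (m ^ 2 * 9 ^ m * 8 * CL) * CA) * X ^ (2 + 4 * δ + 2 * (m * η₂) - 2 * (κ * η)) / 64 := by
      have : X ^ (2 + 4 * δ + 2 * (m * η₂) - 2 * (κ * η)) =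
          X ^ (1 + 3 * δ + 2 * (m * η₂) - 2 * (κ * η)) * X ^ (1 + δ) := by
        rw [← Real.rpow_add hX0]; congr 1; ring
      rw [this]; ring
    rw [h3]
    apply div_le_div_of_nonneg_right _ (by norm_num)
    calc (64 * (m ^ 2 * 9 ^ m * 8 * CL) * CA) * X ^ (2 + 4 * δ + 2 * (m * η₂) - 2 * (κ * η))
        ≤ X ^ δ * X ^ (2 + 4 * δ + 2 * (m * η₂) - 2 * (κ * η)) := mul_le_mul_of_nonneg_right v4 (by positivity)
      _ = X ^ (2 + 5 * δ + 2 * (m * η₂) - 2 * (κ * η)) := by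
          rw [← Real.rpow_add hX0]; congr 1; ring
      _ ≤ X ^ (2 - 2 * δ) := by
          apply Real.rpow_le_rpow_of_exponent_le hX1
          have : 0 < κ * η := by positivity
          linarith
  -- part 3
  have hD3b : ∀ β, ‖D3 β‖ ≤ X ^ (1 - δ) / 8 := by
    intro β
    have h1 : ∑ q ∈ E, ‖w q‖ ^ 2 ≤ X ^ (1 - 8 * δ) := by
      calc ∑ q ∈ E, ‖w q‖ ^ 2 ≤ ∑ q ∈ E, (1 : ℝ) := by
            refine Finset.sum_le_sum fun q _ => ?_
            have := hw q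
            have h0 := norm_nonneg (w q)
            nlinarith
        _ = E.card := by rw [Finset.sum_const, nsmul_eq_mul, mul_one]
        _ ≤ _ := hEcard
    have h2 : ∑ q ∈ E, ‖(∏ i, Pz s q N (z i)) * ∏ j, PN s q N (β j)‖ ^ 2 ≤ CB * X ^ (1 + δ) := by
      have h3 := hPB s X N (Sum.elim z fun j => pt (β j)) hs hX1 f3
        (by rw [Fintype.card_sum, Fintype.card_fin, Fintype.card_fin]; exact hNmk) (by
          rintro (i | j)
          · have := (hz i).1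
            simp only [Sum.elim_inl]
            linarith
          · exact hptre _)
      refine le_trans ?_ h3
      calc ∑ q ∈ E, ‖(∏ i, Pz s q N (z i)) * ∏ j, PN s q N (β j)‖ ^ 2
          ≤ ∑ q ∈ Q s X, ‖(∏ i, Pz s q N (z i)) * ∏ j, PN s q N (β j)‖ ^ 2 :=
            Finset.sum_le_sum_of_subset_of_nonneg hEQ fun q _ _ => by positivity
        _ = _ := by
            refine Finset.sum_congr rfl fun q _ => ?_
            rw [Fintype.prod_sum_type]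
            simp only [Sum.elim_inl, Sum.elim_inr]
            rw [norm_mul, norm_prod, norm_prod, mul_pow, ← Finset.prod_pow, ← Finset.prod_pow]
            rfl
    refine cs h1 h2 ?_ hY0
    rw [hY2]
    have h3 : X ^ (1 - 8 * δ) * (CB * X ^ (1 + δ)) = (64 * CB) * X ^ (2 - 7 * δ) / 64 := by
      have : X ^ (2 - 7 * δ) = X ^ (1 - 8 * δ) * X ^ (1 + δ) := by
        rw [← Real.rpow_add hX0]; congr 1; ring
      rw [this]; ring
    rw [h3]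
    apply div_le_div_of_nonneg_right _ (by norm_num)
    calc (64 * CB) * X ^ (2 - 7 * δ) ≤ X ^ δ * X ^ (2 - 7 * δ) := mul_le_mul_of_nonneg_right v5 (by positivity)
      _ = X ^ (2 - 6 * δ) := by rw [← Real.rpow_add hX0]; congr 1; ring
      _ ≤ X ^ (2 - 2 * δ) := Real.rpow_le_rpow_of_exponent_le hX1 (by linarith)
  -- part 1
  have hW1 : ∀ q ∈ Q s X \ E, ‖w q * ∏ i, LL s q (z i)‖ ≤ B1 ^ m := by
    intro q hq
    rw [norm_mul, norm_prod]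
    have h1 : ∏ i, ‖LL s q (z i)‖ ≤ B1 ^ m := by
      calc ∏ i, ‖LL s q (z i)‖ ≤ ∏ _i : Fin m, B1 :=
            Finset.prod_le_prod (fun _ _ => norm_nonneg _) fun i _ => hLB q hq i
        _ = B1 ^ m := by rw [Finset.prod_const, Finset.card_univ, Fintype.card_fin]
    have h2 : 0 ≤ ∏ i, ‖LL s q (z i)‖ := Finset.prod_nonneg fun _ _ => norm_nonneg _
    calc ‖w q‖ * ∏ i, ‖LL s q (z i)‖ ≤ 1 * ∏ i, ‖LL s q (z i)‖ := mul_le_mul_of_nonneg_right (hw q) h2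
      _ ≤ B1 ^ m := by rw [one_mul]; exact h1
  have hsubE : Q s X \ E ⊆ Q s X \ Ex s X (X ^ θ) (η / (8 * k)) := by
    intro q hq
    rw [Finset.mem_sdiff] at hq ⊢
    refine ⟨hq.1, fun h => hq.2 ?_⟩
    rw [hEd, Finset.mem_union]
    exact Or.inl h
  have hB1m0 : 0 < B1 ^ m := by positivity
  have hp1 := hE1 s X N (Q s X \ E) (fun q => w q * ∏ i, LL s q (z i)) (B1 ^ m) hs v7 f1 f2 f3 hsubE hB1m0 hW1
  have hD1c : Continuous D1 := by
    refine continuous_finset_sum _ fun q hq => continuous_const.mul (Continuous.sub ?_ ?_)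
    · exact continuous_finset_prod _ fun j _ =>
        (hC s q (Q_is (Finset.sdiff_subset hq)).1).comp (continuous_apply j)
    · exact continuous_finset_prod _ fun j _ => (PN_cont s q N).comp (continuous_apply j)
  have hXδ : 0 < X ^ (1 - δ) / 4 := by positivity
  have hm1 : mS k A {β | X ^ (1 - δ) / 4 < ‖D1 β‖} ≤ ENNReal.ofReal (X ^ (k * θ - 2 * δ)) := by
    refine (cheb (g := fun β => ‖D1 β‖) hD1c.norm.aemeasurable hXδ hp1).trans
      (ENNReal.ofReal_le_ofReal ?_)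
    have esq : (X ^ (1 - δ) / 4) ^ 2 = X ^ (2 - 2 * δ) / 16 := by
      rw [div_pow, ← Real.rpow_natCast, ← Real.rpow_mul hX0.le]
      norm_num
      congr 1; ring
    rw [esq, hB1m2, div_le_iff₀ (by positivity)]
    have h1 : X ^ (2 * (m * η₂)) * X ^ (k * θ + 2 - η / 4) * X ^ δ ≤ X ^ (k * θ - 2 * δ) * X ^ (2 - 2 * δ) := by
      rw [← Real.rpow_add hX0, ← Real.rpow_add hX0, ← Real.rpow_add hX0]
      apply Real.rpow_le_rpow_of_exponent_le hX1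
      linarith
    have h2 : 0 < X ^ (2 * (m * η₂)) * X ^ (k * θ + 2 - η / 4) := by positivity
    calc 9 ^ m * X ^ (2 * (m * η₂)) * (C1 * X ^ (k * θ + 2 - η / 4))
        = (16 * 9 ^ m * C1) * (X ^ (2 * (m * η₂)) * X ^ (k * θ + 2 - η / 4)) / 16 := by ring
      _ ≤ X ^ δ * (X ^ (2 * (m * η₂)) * X ^ (k * θ + 2 - η / 4)) / 16 := by
          apply div_le_div_of_nonneg_right _ (by norm_num)
          exact mul_le_mul_of_nonneg_right v3 h2.le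
      _ = (X ^ (2 * (m * η₂)) * X ^ (k * θ + 2 - η / 4) * X ^ δ) / 16 := by ring
      _ ≤ (X ^ (k * θ - 2 * δ) * X ^ (2 - 2 * δ)) / 16 := div_le_div_of_nonneg_right h1 (by norm_num)
      _ = X ^ (k * θ - 2 * δ) * (X ^ (2 - 2 * δ) / 16) := by ring
  refine (measure_mono ?_).trans hm1
  intro β hβ
  simp only [mem_setOf_eq] at hβ ⊢
  by_contra hcon
  have h1 := not_lt.1 hcon
  have h2 := hD2b β
  have h3 := hD3b β
  rw [hTT] at hβ
  have h4 : ‖D1 β + D2 β - D3 β‖ ≤ ‖D1 β‖ + ‖D2 β‖ + ‖D3 β‖ :=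
    (norm_sub_le _ _).trans (add_le_add_left (norm_add_le _ _) _)
  linarith

theorem main_w (k m : ℕ) (hk : 1 ≤ k) (s : ℤ) (hs : s = 1 ∨ s = -1) (θ κ : ℝ) (hθ : 0 < θ) (hθ1 : θ ≤ 1)
    (hκ : 0 < κ) (hκ1 : κ ≤ 1 / 2) :
    ∃ δ η X₀ : ℝ, 0 < δ ∧ 0 < η ∧ δ ≤ 1 / 8 ∧ η * (2 * (m + k)) ≤ 1 / 4 ∧ ∀ X : ℝ, X₀ ≤ X → 2 ≤ X ∧ 1 ≤ X ^ η ∧
      ∀ z : Fin m → ℂ, (∀ i, 1 / 2 + κ ≤ (z i).re ∧ |(z i).im| ≤ X ^ δ) →
      ∃ E : Finset ℕ, E ⊆ Q s X ∧ (E.card : ℝ) ≤ X ^ (1 - δ) ∧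
        ∀ w : ℕ → ℂ, (∀ q, ‖w q‖ ≤ 1) →
          mS k (X ^ θ) {β | X ^ (1 - δ) / 2 < ‖TT k m s X ⌊X ^ η⌋₊ E w z β‖} ≤
            ENNReal.ofReal (X ^ (k * θ - 2 * δ)) := by
  obtain ⟨δ, η, X₀, h1, h2, h3, h4, h5⟩ := main_w' k m hk s hs θ κ hθ hθ1 hκ hκ1
  have hm0 : (0 : ℝ) ≤ m := Nat.cast_nonneg m
  have hk0 : (1 : ℝ) ≤ k := by exact_mod_cast hk
  refine ⟨δ, η, X₀, h1, h2, ?_, ?_, h5⟩
  · nlinarith [mul_nonneg h2.le hm0]
  · nlinarith [mul_nonneg h2.le hm0]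

end

end Pool.Agent.Run7.h473.QW
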