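import Pool.Agent.Run7.h473.QW.Pw

set_option autoImplicit false

/-!
Moments over subfamilies: the dual large sieve for squarefree numbers, from the averages of the characters.
-/

namespace Pool.Agent.Run7.h473.QW

open Complex
open Pool.Agent.N879.QM

noncomputable section

lemma sqf_eq {a b : ℕ} (ha : Squarefree a) (hb : Squarefree b) (h : IsSquare (a * b)) : a = b := by
  have ha0 : a ≠ 0 := ha.ne_zero
  have hb0 : b ≠ 0 := hb.ne_zero
  apply Nat.eq_of_factorization_eq ha0 hb0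
  intro p
  obtain ⟨c, hc⟩ := h
  have hc0 : c ≠ 0 := by
    rintro rfl
    exact (mul_ne_zero ha0 hb0) (by simpa using hc)
  have h1 : a.factorization p + b.factorization p = 2 * c.factorization p := by
    have := congrArg (fun x => Nat.factorization x p) hc
    simp only [Nat.factorization_mul ha0 hb0, Nat.factorization_mul hc0 hc0, Finsupp.add_apply] at this
    omega
  have h2 : a.factorization p ≤ 1 := ha.natFactorization_le_one p
  have h3 : b.factorization p ≤ 1 := hb.natFactorization_le_one p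
  omega

/-- the squarefree numbers up to `L` -/
def SF (L : ℕ) : Finset ℕ := (Finset.Icc 1 L).filter Squarefree

lemma mem_SF {L a : ℕ} : a ∈ SF L ↔ (1 ≤ a ∧ a ≤ L) ∧ Squarefree a := by
  unfold SF
  rw [Finset.mem_filter, Finset.mem_Icc]

lemma SF_card (L : ℕ) : ((SF L).card : ℝ) ≤ L := by
  have : (SF L).card ≤ L := by
    unfold SF
    refine (Finset.card_filter_le _ _).trans ?_
    rw [Nat.card_Icc]; omega
  exact_mod_cast this

/-- the dual inequality -/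
lemma dual (h : S_AVG) : ∃ C : ℝ, 0 < C ∧ ∀ (s : ℤ) (X : ℝ) (L : ℕ) (b : ℕ → ℂ), s = 1 ∨ s = -1 → 1 ≤ X →
    ∑ q ∈ Q s X, ‖∑ a ∈ SF L, b a * vl s q a‖ ^ 2 ≤ (X + C * √X * L ^ 2) * ∑ a ∈ SF L, ‖b a‖ ^ 2 := by
  classical
  obtain ⟨C, hC, hA⟩ := h
  refine ⟨C, hC, ?_⟩
  intro s X L b hs hX
  have hX0 : 0 < X := by linarith
  have e1 : ((∑ q ∈ Q s X, ‖∑ a ∈ SF L, b a * vl s q a‖ ^ 2 : ℝ) : ℂ) =
      ∑ a ∈ SF L, ∑ a' ∈ SF L, b a * (starRingEnd ℂ) (b a') * ∑ q ∈ Q s X, vl s q (a * a') := by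
    push_cast
    have e2 : ∀ q ∈ Q s X, (((‖∑ a ∈ SF L, b a * vl s q a‖ : ℝ) : ℂ)) ^ 2 =
        ∑ a ∈ SF L, ∑ a' ∈ SF L, b a * (starRingEnd ℂ) (b a') * vl s q (a * a') := by
      intro q hq
      rw [← Complex.mul_conj', map_sum, Finset.sum_mul_sum]
      refine Finset.sum_congr rfl fun a _ => Finset.sum_congr rfl fun a' _ => ?_
      rw [map_mul, vl_conj (Q_is hq).1, vl_mul]
      ring
    rw [Finset.sum_congr rfl e2, Finset.sum_comm]
    refine Finset.sum_congr rfl fun a _ => ?_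
    rw [Finset.sum_comm]
    refine Finset.sum_congr rfl fun a' _ => ?_
    rw [Finset.mul_sum]
  have e3 : (∑ q ∈ Q s X, ‖∑ a ∈ SF L, b a * vl s q a‖ ^ 2 : ℝ) ≤
      ∑ a ∈ SF L, ∑ a' ∈ SF L, ‖b a‖ * ‖b a'‖ * ((if a = a' then X else 0) + C * √X * L) := by
    have h1 : (∑ q ∈ Q s X, ‖∑ a ∈ SF L, b a * vl s q a‖ ^ 2 : ℝ) ≤
        ‖((∑ q ∈ Q s X, ‖∑ a ∈ SF L, b a * vl s q a‖ ^ 2 : ℝ) : ℂ)‖ := by
      rw [Complex.norm_real]; exact Real.le_norm_self _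
    refine h1.trans ?_
    rw [e1]
    refine (norm_sum_le _ _).trans (Finset.sum_le_sum fun a ha => ?_)
    refine (norm_sum_le _ _).trans (Finset.sum_le_sum fun a' ha' => ?_)
    rw [norm_mul, norm_mul, RCLike.norm_conj]
    apply mul_le_mul_of_nonneg_left _ (by positivity)
    rw [mem_SF] at ha ha'
    have hCL : 0 ≤ C * √X * L := by positivity
    split_ifs with haa
    · have h2 : ‖∑ q ∈ Q s X, vl s q (a * a')‖ ≤ X := by
        calc ‖∑ q ∈ Q s X, vl s q (a * a')‖ ≤ ∑ q ∈ Q s X, (1 : ℝ) :=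
              (norm_sum_le _ _).trans (Finset.sum_le_sum fun q _ => vl_le1 s q _)
          _ = ((Q s X).card : ℝ) := by rw [Finset.sum_const, nsmul_eq_mul, mul_one]
          _ ≤ X := Q_card hX
      linarith
    · have hns : ¬ IsSquare (a * a') := fun hsq => haa (sqf_eq ha.2 ha'.2 hsq)
      have h3 : 1 ≤ a * a' := Nat.one_le_iff_ne_zero.2 (Nat.mul_ne_zero (by omega) (by omega))
      have h4 := (hA s X (a * a') hs hX h3).2 hns
      have h5 : √((a * a' : ℕ) : ℝ) ≤ L := by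
        rw [Real.sqrt_le_left (Nat.cast_nonneg _)]
        have h6 : (a : ℝ) ≤ L := by exact_mod_cast ha.1.2
        have h7 : (a' : ℝ) ≤ L := by exact_mod_cast ha'.1.2
        push_cast
        rw [sq]
        exact mul_le_mul h6 h7 (Nat.cast_nonneg _) (Nat.cast_nonneg _)
      rw [zero_add]
      exact h4.trans (mul_le_mul_of_nonneg_left h5 (by positivity))
  refine e3.trans ?_
  have e4 : ∑ a ∈ SF L, ∑ a' ∈ SF L, ‖b a‖ * ‖b a'‖ * ((if a = a' then X else 0) + C * √X * L) =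
      X * ∑ a ∈ SF L, ‖b a‖ ^ 2 + C * √X * L * (∑ a ∈ SF L, ‖b a‖) ^ 2 := by
    have h1 : ∀ a ∈ SF L, ∑ a' ∈ SF L, ‖b a‖ * ‖b a'‖ * ((if a = a' then X else 0) + C * √X * L) =
        X * ‖b a‖ ^ 2 + C * √X * L * (‖b a‖ * ∑ a' ∈ SF L, ‖b a'‖) := by
      intro a ha
      simp only [mul_add, Finset.sum_add_distrib, mul_ite, mul_zero]
      rw [Finset.sum_ite_eq, if_pos ha]
      congr 1
      · ring
      · rw [Finset.mul_sum, Finset.mul_sum]
        exact Finset.sum_congr rfl fun a' _ => by ring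
    rw [Finset.sum_congr rfl h1, Finset.sum_add_distrib, ← Finset.mul_sum, ← Finset.mul_sum, ← Finset.sum_mul, sq]
  rw [e4]
  have h2 : (∑ a ∈ SF L, ‖b a‖) ^ 2 ≤ L * ∑ a ∈ SF L, ‖b a‖ ^ 2 := by
    have h3 := sq_sum_le_card_mul_sum_sq (s := SF L) (f := fun a => ‖b a‖)
    refine h3.trans (mul_le_mul_of_nonneg_right (SF_card L) (Finset.sum_nonneg fun _ _ => by positivity))
  calc X * ∑ a ∈ SF L, ‖b a‖ ^ 2 + C * √X * L * (∑ a ∈ SF L, ‖b a‖) ^ 2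
      ≤ X * ∑ a ∈ SF L, ‖b a‖ ^ 2 + C * √X * L * (L * ∑ a ∈ SF L, ‖b a‖ ^ 2) := by gcongr
    _ = _ := by ring

/-- the large sieve for squarefree numbers and arbitrary weights -/
theorem dls (h : S_AVG) : ∃ C : ℝ, 0 < C ∧ ∀ (s : ℤ) (X : ℝ) (L : ℕ) (w : ℕ → ℂ), s = 1 ∨ s = -1 → 1 ≤ X →
    (∀ q, ‖w q‖ ≤ 1) →
    ∑ a ∈ SF L, ‖∑ q ∈ Q s X, w q * vl s q a‖ ^ 2 ≤ X * (X + C * √X * L ^ 2) := by
  classical
  obtain ⟨C, hC, hD⟩ := dual h
  refine ⟨C, hC, ?_⟩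
  intro s X L w hs hX hw
  have hX0 : 0 < X := by linarith
  obtain ⟨S, hS⟩ : ∃ S : ℕ → ℂ, S = fun a => ∑ q ∈ Q s X, w q * vl s q a := ⟨_, rfl⟩
  have hSa : ∀ a, ∑ q ∈ Q s X, w q * vl s q a = S a := fun a => by rw [hS]
  simp only [hSa]
  set T : ℝ := ∑ a ∈ SF L, ‖S a‖ ^ 2 with hT
  have hT0 : 0 ≤ T := Finset.sum_nonneg fun _ _ => by positivity
  have e1 : ((T : ℝ) : ℂ) = ∑ q ∈ Q s X, w q * ∑ a ∈ SF L, (starRingEnd ℂ) (S a) * vl s q a := by
    rw [hT]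
    push_cast
    have e2 : ∀ a ∈ SF L, (((‖S a‖ : ℝ) : ℂ)) ^ 2 = ∑ q ∈ Q s X, w q * ((starRingEnd ℂ) (S a) * vl s q a) := by
      intro a _
      rw [← Complex.mul_conj']
      nth_rewrite 1 [← hSa a]
      rw [Finset.sum_mul]
      exact Finset.sum_congr rfl fun q _ => by ring
    rw [Finset.sum_congr rfl e2, Finset.sum_comm]
    exact Finset.sum_congr rfl fun q _ => by rw [Finset.mul_sum]
  have e3 : T ^ 2 ≤ X * ((X + C * √X * L ^ 2) * T) := by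
    have h1 : T = ‖((T : ℝ) : ℂ)‖ := by rw [Complex.norm_real, Real.norm_of_nonneg hT0]
    have h2 : ‖((T : ℝ) : ℂ)‖ ≤ ∑ q ∈ Q s X, ‖w q‖ * ‖∑ a ∈ SF L, (starRingEnd ℂ) (S a) * vl s q a‖ := by
      rw [e1]
      refine (norm_sum_le _ _).trans (Finset.sum_le_sum fun q _ => ?_)
      rw [norm_mul]
    have h3 : (∑ q ∈ Q s X, ‖w q‖ * ‖∑ a ∈ SF L, (starRingEnd ℂ) (S a) * vl s q a‖) ^ 2 ≤
        (∑ q ∈ Q s X, ‖w q‖ ^ 2) * ∑ q ∈ Q s X, ‖∑ a ∈ SF L, (starRingEnd ℂ) (S a) * vl s q a‖ ^ 2 :=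
      Finset.sum_mul_sq_le_sq_mul_sq _ _ _
    have h4 : ∑ q ∈ Q s X, ‖w q‖ ^ 2 ≤ X := by
      calc ∑ q ∈ Q s X, ‖w q‖ ^ 2 ≤ ∑ q ∈ Q s X, (1 : ℝ) := Finset.sum_le_sum fun q _ => by
            have h5 := hw q
            have h6 := norm_nonneg (w q)
            nlinarith
        _ = ((Q s X).card : ℝ) := by rw [Finset.sum_const, nsmul_eq_mul, mul_one]
        _ ≤ X := Q_card hX
    have h5 := hD s X L (fun a => (starRingEnd ℂ) (S a)) hs hX
    simp only [RCLike.norm_conj] at h5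
    have h6 : 0 ≤ ∑ q ∈ Q s X, ‖∑ a ∈ SF L, (starRingEnd ℂ) (S a) * vl s q a‖ ^ 2 :=
      Finset.sum_nonneg fun _ _ => by positivity
    calc T ^ 2 ≤ (∑ q ∈ Q s X, ‖w q‖ * ‖∑ a ∈ SF L, (starRingEnd ℂ) (S a) * vl s q a‖) ^ 2 :=
          pow_le_pow_left₀ hT0 (by rw [h1]; exact h2) 2
      _ ≤ _ := h3
      _ ≤ X * ((X + C * √X * L ^ 2) * T) := mul_le_mul h4 h5 h6 hX0.le
  rcases hT0.eq_or_lt with h1 | h1
  · rw [← h1]; positivity
  · have h2 : T * T ≤ (X * (X + C * √X * L ^ 2)) * T := by nlinarith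
    exact le_of_mul_le_mul_right h2 h1

end

end Pool.Agent.Run7.h473.QW
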