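import Pool.Agent.Run7.h473.QW.Core

set_option autoImplicit false

/-!
Weighted mixed moments: the two statements.
-/

namespace Pool.Agent.Run7.h473.QW

open Complex Filter Topology MeasureTheory Set
open Pool.Agent.N879.QM

noncomputable section

theorem fin (k m : ℕ) (hk : 1 ≤ k) (s : ℤ) (hs : s = 1 ∨ s = -1) (θ κ : ℝ) (hθ : 0 < θ) (hθ1 : θ ≤ 1)
    (hκ : 0 < κ) :
    ∃ δ η X₀ : ℝ, 0 < δ ∧ 0 < η ∧ ∀ X : ℝ, X₀ ≤ X →
      ∀ z : Fin m → ℂ, (∀ i, 1 / 2 + κ ≤ (z i).re ∧ |(z i).im| ≤ X ^ δ) →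
      ∃ E : Finset ℕ, (E.card : ℝ) ≤ X ^ (1 - δ) ∧
        (∀ w : ℕ → ℂ, (∀ q, ‖w q‖ ≤ 1) →
          mS k (X ^ θ) {β | X ^ (1 - δ) < ‖TT k m s X ⌊X ^ η⌋₊ E w z β‖} ≤
            ENNReal.ofReal (X ^ (k * θ - δ))) ∧
        mS k (X ^ θ) {β | ∃ l : ℕ, 1 ≤ l ∧ (l : ℝ) ≤ X ^ δ ∧ X ^ (1 - δ) <
          ‖(∑ q ∈ Q s X \ E, vl s q l * ((∏ i, LL s q (z i)) * ∏ j, LL s q (pt (β j)))) -
            ((c0 * X : ℝ) : ℂ) * DG (Fin m ⊕ Fin k) l ⌊X ^ η⌋₊ (Sum.elim z fun j => pt (β j))‖} ≤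
            ENNReal.ofReal (X ^ (k * θ - δ)) := by
  classical
  have hκ' : 0 < min κ (1 / 2) := lt_min hκ (by norm_num)
  obtain ⟨δ, η, X₁, hδ0, hη0, hδ8, hηK, hmain⟩ := main_w k m hk s hs θ (min κ (1 / 2)) hθ hθ1 hκ' (min_le_right _ _)
  obtain ⟨CD, hCD, hdiag⟩ := gdiag (t_AVG t_UNI)
  have ev1 := rpow_ev (2 * CD) (show (0 : ℝ) < 1 / 16 by norm_num)
  obtain ⟨X₀, hX₀⟩ := eventually_atTop.1 (ev1.and (eventually_ge_atTop X₁))
  refine ⟨δ, η, X₀, hδ0, hη0, ?_⟩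
  intro X hX z hz
  obtain ⟨v1, v2⟩ := hX₀ X hX
  obtain ⟨hX2, hXη, hmain⟩ := hmain X v2
  have hX0 : 0 < X := by linarith
  have hX1 : 1 ≤ X := by linarith
  obtain ⟨E, hEQ, hE, hw⟩ := hmain z (fun i => ⟨by have := (hz i).1; have h2 := min_le_left κ (1 / 2); linarith, (hz i).2⟩)
  set N : ℕ := ⌊X ^ η⌋₊ with hNd
  obtain ⟨f1, f2, f3⟩ := floor_half hXη
  rw [← hNd] at f1 f2 f3
  have hN0 : (0 : ℝ) < N := by exact_mod_cast f3
  have hY : 0 < X ^ (1 - δ) := by positivity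
  refine ⟨E, hE, ?_, ?_⟩
  · intro w hw1
    refine (measure_mono ?_).trans ((hw w hw1).trans (ENNReal.ofReal_le_ofReal
      (Real.rpow_le_rpow_of_exponent_le hX1 (by linarith))))
    intro β hβ
    simp only [mem_setOf_eq] at hβ ⊢
    linarith
  · -- the evaluation
    have hev : ∀ (l : ℕ) (β : Fin k → ℝ), 1 ≤ l → (l : ℝ) ≤ X ^ δ →
        ‖(∑ q ∈ Q s X, vl s q l * ((∏ i, Pz s q N (z i)) * ∏ j, PN s q N (β j))) -
          ((c0 * X : ℝ) : ℂ) * DG (Fin m ⊕ Fin k) l N (Sum.elim z fun j => pt (β j))‖ ≤ X ^ (1 - δ) / 2 := by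
      intro l β hl hlX
      have h1 := hdiag (Fin m ⊕ Fin k) s X N l (Sum.elim z fun j => pt (β j)) hs hX1 hl (by
        rintro (i | j)
        · have h1 := (hz i).1
          simp only [Sum.elim_inl]
          linarith
        · simp only [Sum.elim_inr]
          unfold pt
          simp)
      have e1 : ∀ q, ∏ x, Pz s q N (Sum.elim z (fun j => pt (β j)) x) =
          (∏ i, Pz s q N (z i)) * ∏ j, PN s q N (β j) := by
        intro q
        rw [Fintype.prod_sum_type]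
        rfl
      simp only [e1] at h1
      refine h1.trans ?_
      rw [Fintype.card_sum, Fintype.card_fin, Fintype.card_fin]
      have h2 : √X = X ^ (1 / 2 : ℝ) := Real.sqrt_eq_rpow X
      have h3 : √(l : ℝ) ≤ X ^ (1 / 16 : ℝ) := by
        calc √(l : ℝ) ≤ √(X ^ δ) := Real.sqrt_le_sqrt hlX
          _ = X ^ (δ * (1 / 2) : ℝ) := by rw [Real.sqrt_eq_rpow, ← Real.rpow_mul hX0.le]
          _ ≤ X ^ (1 / 16 : ℝ) := Real.rpow_le_rpow_of_exponent_le hX1 (by linarith)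
      have h4 : (N : ℝ) ^ (m + k) ≤ X ^ (1 / 8 : ℝ) := by
        calc (N : ℝ) ^ (m + k) ≤ (X ^ η) ^ (m + k) := pow_le_pow_left₀ hN0.le f2 _
          _ = X ^ (η * (m + k)) := by
              rw [← Real.rpow_natCast, ← Real.rpow_mul hX0.le]; push_cast; rfl
          _ ≤ X ^ (1 / 8 : ℝ) := Real.rpow_le_rpow_of_exponent_le hX1 (by linarith)
      have h5 : X ^ (1 / 16 : ℝ) * (X ^ (1 / 2 : ℝ) * X ^ (1 / 16 : ℝ) * X ^ (1 / 8 : ℝ)) ≤ X ^ (1 - δ) := by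
        rw [← Real.rpow_add hX0, ← Real.rpow_add hX0, ← Real.rpow_add hX0]
        apply Real.rpow_le_rpow_of_exponent_le hX1
        linarith
      rw [h2]
      calc CD * X ^ (1 / 2 : ℝ) * √(l : ℝ) * (N : ℝ) ^ (m + k)
          ≤ CD * X ^ (1 / 2 : ℝ) * X ^ (1 / 16 : ℝ) * X ^ (1 / 8 : ℝ) := by gcongr
        _ = (2 * CD) * (X ^ (1 / 2 : ℝ) * X ^ (1 / 16 : ℝ) * X ^ (1 / 8 : ℝ)) / 2 := by ring
        _ ≤ X ^ (1 / 16 : ℝ) * (X ^ (1 / 2 : ℝ) * X ^ (1 / 16 : ℝ) * X ^ (1 / 8 : ℝ)) / 2 := by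
            apply div_le_div_of_nonneg_right _ (by norm_num)
            exact mul_le_mul_of_nonneg_right v1 (by positivity)
        _ ≤ X ^ (1 - δ) / 2 := div_le_div_of_nonneg_right h5 (by norm_num)
    set M : ℕ := ⌊X ^ δ⌋₊ with hM
    have hsub : {β : Fin k → ℝ | ∃ l : ℕ, 1 ≤ l ∧ (l : ℝ) ≤ X ^ δ ∧ X ^ (1 - δ) <
          ‖(∑ q ∈ Q s X \ E, vl s q l * ((∏ i, LL s q (z i)) * ∏ j, LL s q (pt (β j)))) -
            ((c0 * X : ℝ) : ℂ) * DG (Fin m ⊕ Fin k) l N (Sum.elim z fun j => pt (β j))‖} ⊆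
        ⋃ l ∈ Finset.Icc 1 M, {β | X ^ (1 - δ) / 2 < ‖TT k m s X N E (fun q => vl s q l) z β‖} := by
      rintro β ⟨l, hl1, hl2, hl3⟩
      simp only [mem_iUnion, mem_setOf_eq]
      refine ⟨l, ?_, ?_⟩
      · rw [Finset.mem_Icc]
        exact ⟨hl1, Nat.le_floor hl2⟩
      · have h1 := hev l β hl1 hl2
        have e : (∑ q ∈ Q s X \ E, vl s q l * ((∏ i, LL s q (z i)) * ∏ j, LL s q (pt (β j)))) -
            ((c0 * X : ℝ) : ℂ) * DG (Fin m ⊕ Fin k) l N (Sum.elim z fun j => pt (β j)) =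
            TT k m s X N E (fun q => vl s q l) z β +
            ((∑ q ∈ Q s X, vl s q l * ((∏ i, Pz s q N (z i)) * ∏ j, PN s q N (β j))) -
              ((c0 * X : ℝ) : ℂ) * DG (Fin m ⊕ Fin k) l N (Sum.elim z fun j => pt (β j))) := by
          unfold TT
          ring
        rw [e] at hl3
        have h2 := norm_add_le (TT k m s X N E (fun q => vl s q l) z β)
          ((∑ q ∈ Q s X, vl s q l * ((∏ i, Pz s q N (z i)) * ∏ j, PN s q N (β j))) -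
              ((c0 * X : ℝ) : ℂ) * DG (Fin m ⊕ Fin k) l N (Sum.elim z fun j => pt (β j)))
        linarith
    refine (measure_mono hsub).trans ((measure_biUnion_finset_le _ _).trans ?_)
    have hcard : ∑ l ∈ Finset.Icc 1 M, mS k (X ^ θ) {β | X ^ (1 - δ) / 2 <
        ‖TT k m s X N E (fun q => vl s q l) z β‖} ≤ ∑ l ∈ Finset.Icc 1 M, ENNReal.ofReal (X ^ (k * θ - 2 * δ)) :=
      Finset.sum_le_sum fun l _ => hw (fun q => vl s q l) fun q => vl_le1 s q l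
    refine hcard.trans ?_
    rw [Finset.sum_const, Nat.card_Icc, Nat.add_sub_cancel, nsmul_eq_mul, ← ENNReal.ofReal_natCast,
      ← ENNReal.ofReal_mul (Nat.cast_nonneg _)]
    apply ENNReal.ofReal_le_ofReal
    have h1 : (M : ℝ) ≤ X ^ δ := Nat.floor_le (by positivity)
    calc (M : ℝ) * X ^ (k * θ - 2 * δ) ≤ X ^ δ * X ^ (k * θ - 2 * δ) :=
          mul_le_mul_of_nonneg_right h1 (by positivity)
      _ = X ^ (k * θ - δ) := by rw [← Real.rpow_add hX0]; congr 1; ring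

end

end Pool.Agent.Run7.h473.QW
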