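import Pool.Agent.N879.QM.Diag
import Pool.Agent.N879.QM.Avg

set_option autoImplicit false

/-!
Weighted mixed moments of quadratic Dirichlet `L`-functions: products of short Dirichlet polynomials at arbitrary
points, twisted by `χ(l)`, summed over the family.
-/

namespace Pool.Agent.Run7.h473.QW

open Complex
open Pool.Agent.N879.QM

noncomputable section

/-- `∑_{n ≤ N} χ(n) n^(-z)` -/
def Pz (s : ℤ) (q N : ℕ) (z : ℂ) : ℂ := ∑ n ∈ Finset.Icc 1 N, vl s q n * (n : ℂ) ^ (-z)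

lemma Pz_pt (s : ℤ) (q N : ℕ) (α : ℝ) : Pz s q N (pt α) = PN s q N α := rfl

/-- squares of powers -/
lemma rsq {x : ℝ} (hx : 0 < x) (a : ℝ) : (x ^ a) ^ 2 = x ^ (2 * a) := by
  rw [← Real.rpow_natCast (x ^ a) 2, ← Real.rpow_mul hx.le]
  congr 1
  push_cast
  ring

set_option linter.unusedSectionVars false

variable {ι : Type} [Fintype ι] [DecidableEq ι]

/-- boxes -/
def box (ι : Type) [Fintype ι] [DecidableEq ι] (N : ℕ) : Finset (ι → ℕ) :=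
  Fintype.piFinset fun _ => Finset.Icc 1 N

lemma mem_box {N : ℕ} {n : ι → ℕ} : n ∈ box ι N ↔ ∀ j, 1 ≤ n j ∧ n j ≤ N := by
  unfold box
  rw [Fintype.mem_piFinset]
  simp only [Finset.mem_Icc]

lemma box_card (N : ℕ) : (box ι N).card = N ^ Fintype.card ι := by
  unfold box
  rw [Fintype.card_piFinset]
  simp

/-- `∏ n_i ^ (-z_i)` -/
def cz (n : ι → ℕ) (z : ι → ℂ) : ℂ := ∏ i, (n i : ℂ) ^ (-(z i))

open Classical in
/-- the diagonal terms -/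
def DG (ι : Type) [Fintype ι] [DecidableEq ι] (l N : ℕ) (z : ι → ℂ) : ℂ :=
  ∑ n ∈ box ι N, if IsSquare (l * ∏ i, n i) then (af (l * ∏ i, n i) : ℂ) * cz n z else 0

lemma vl_mul (s : ℤ) (q a b : ℕ) : vl s q (a * b) = vl s q a * vl s q b := by
  unfold vl
  rw [Nat.cast_mul, map_mul]

lemma vl_prodG (s : ℤ) (q : ℕ) (n : ι → ℕ) : ∏ j, vl s q (n j) = vl s q (∏ j, n j) := by
  unfold vl
  rw [Nat.cast_prod, map_prod]

lemma vl_le1 (s : ℤ) (q n : ℕ) : ‖vl s q n‖ ≤ 1 := DirichletCharacter.norm_le_one _ _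

lemma expandG (s : ℤ) (q N : ℕ) (z : ι → ℂ) :
    ∏ j, Pz s q N (z j) = ∑ n ∈ box ι N, vl s q (∏ j, n j) * cz n z := by
  unfold Pz box cz
  rw [Finset.prod_univ_sum]
  refine Finset.sum_congr rfl fun n _ => ?_
  rw [Finset.prod_mul_distrib, vl_prodG]

lemma norm_term_le {m : ℕ} (hm : 1 ≤ m) {z : ℂ} (hz : 1 / 2 ≤ z.re) :
    ‖(m : ℂ) ^ (-z)‖ ≤ (m : ℝ) ^ (-(1 / 2) : ℝ) := by
  rw [Complex.norm_natCast_cpow_of_pos (by omega)]
  have h1 : (1 : ℝ) ≤ m := by exact_mod_cast hm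
  apply Real.rpow_le_rpow_of_exponent_le h1
  rw [Complex.neg_re]
  linarith

lemma norm_cz_le {n : ι → ℕ} (hn : ∀ j, 1 ≤ n j) {z : ι → ℂ} (hz : ∀ i, 1 / 2 ≤ (z i).re) :
    ‖cz n z‖ ≤ ((∏ j, n j : ℕ) : ℝ) ^ (-(1 / 2) : ℝ) := by
  unfold cz
  rw [norm_prod, Nat.cast_prod, ← Real.finsetProd_rpow _ _ (fun i _ => Nat.cast_nonneg _)]
  exact Finset.prod_le_prod (fun _ _ => norm_nonneg _) fun j _ => norm_term_le (hn j) (hz j)

/-- the diagonal evaluation -/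
theorem gdiag (h : S_AVG) : ∃ C : ℝ, 0 < C ∧ ∀ (ι : Type) [Fintype ι] [DecidableEq ι] (s : ℤ) (X : ℝ) (N l : ℕ)
    (z : ι → ℂ), s = 1 ∨ s = -1 → 1 ≤ X → 1 ≤ l → (∀ i, 1 / 2 ≤ (z i).re) →
    ‖(∑ q ∈ Q s X, vl s q l * ∏ j, Pz s q N (z j)) - ((c0 * X : ℝ) : ℂ) * DG ι l N z‖ ≤
      C * √X * √l * (N : ℝ) ^ Fintype.card ι := by
  classical
  obtain ⟨C, hC, hA⟩ := h
  refine ⟨C, hC, fun ι _ _ s X N l z hs hX hl hz => ?_⟩
  have e1 : ∑ q ∈ Q s X, vl s q l * ∏ j, Pz s q N (z j) =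
      ∑ n ∈ box ι N, (∑ q ∈ Q s X, vl s q (l * ∏ j, n j)) * cz n z := by
    simp only [expandG, Finset.mul_sum]
    rw [Finset.sum_comm]
    refine Finset.sum_congr rfl fun n _ => ?_
    rw [Finset.sum_mul]
    refine Finset.sum_congr rfl fun q _ => ?_
    rw [vl_mul]
    ring
  have e2 : ((c0 * X : ℝ) : ℂ) * DG ι l N z = ∑ n ∈ box ι N,
      (if IsSquare (l * ∏ j, n j) then ((c0 * X * af (l * ∏ j, n j) : ℝ) : ℂ) else 0) * cz n z := by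
    unfold DG
    rw [Finset.mul_sum]
    refine Finset.sum_congr rfl fun n _ => ?_
    by_cases hsq : IsSquare (l * ∏ j, n j)
    · rw [if_pos hsq, if_pos hsq]
      push_cast
      ring
    · rw [if_neg hsq, if_neg hsq, mul_zero, zero_mul]
  rw [e1, e2, ← Finset.sum_sub_distrib]
  have hbound : ∀ n ∈ box ι N, ‖(∑ q ∈ Q s X, vl s q (l * ∏ j, n j)) * cz n z -
      (if IsSquare (l * ∏ j, n j) then ((c0 * X * af (l * ∏ j, n j) : ℝ) : ℂ) else 0) * cz n z‖ ≤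
      C * √X * √l := by
    intro n hn
    have hn1 : ∀ j, 1 ≤ n j := fun j => (mem_box.1 hn j).1
    have hp : 1 ≤ ∏ j, n j := Nat.one_le_iff_ne_zero.2
      (Finset.prod_ne_zero_iff.2 fun j _ => by have := hn1 j; omega)
    have hlp : 1 ≤ l * ∏ j, n j := Nat.one_le_iff_ne_zero.2 (Nat.mul_ne_zero (by omega) (by omega))
    rw [← sub_mul, norm_mul]
    obtain ⟨h1, h2⟩ := hA s X (l * ∏ j, n j) hs hX hlp
    have h3 : ‖(∑ q ∈ Q s X, vl s q (l * ∏ j, n j)) -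
        (if IsSquare (l * ∏ j, n j) then ((c0 * X * af (l * ∏ j, n j) : ℝ) : ℂ) else 0)‖ ≤
        C * √X * √((l * ∏ j, n j : ℕ) : ℝ) := by
      by_cases hsq : IsSquare (l * ∏ j, n j)
      · rw [if_pos hsq]; exact h1 hsq
      · rw [if_neg hsq, sub_zero]; exact h2 hsq
    have h4 : √((l * ∏ j, n j : ℕ) : ℝ) = √(l : ℝ) * √((∏ j, n j : ℕ) : ℝ) := by
      rw [Nat.cast_mul, Real.sqrt_mul (Nat.cast_nonneg _)]
    rw [h4] at h3
    calc _ ≤ (C * √X * (√(l : ℝ) * √((∏ j, n j : ℕ) : ℝ))) * ((∏ j, n j : ℕ) : ℝ) ^ (-(1 / 2) : ℝ) :=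
          mul_le_mul h3 (norm_cz_le hn1 hz) (norm_nonneg _) (by positivity)
      _ = C * √X * √l * (√((∏ j, n j : ℕ) : ℝ) * ((∏ j, n j : ℕ) : ℝ) ^ (-(1 / 2) : ℝ)) := by ring
      _ = C * √X * √l := by rw [DiagA.sqrt_mul hp, mul_one]
  calc _ ≤ ∑ n ∈ box ι N, C * √X * √l := (norm_sum_le _ _).trans (Finset.sum_le_sum hbound)
    _ = C * √X * √l * (N : ℝ) ^ Fintype.card ι := by
      rw [Finset.sum_const, box_card, nsmul_eq_mul]
      push_cast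
      ring

end

end Pool.Agent.Run7.h473.QW
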