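import Pool.Agent.Run7.h473.QW.Dls
import Pool.Agent.N879.QM.Fl

set_option autoImplicit false

/-!
Moments over subfamilies: mean squares over the shifts of Dirichlet polynomials with coefficients
`∑_q w(q) χ_q(n_1 ⋯ n_k)`.
-/

namespace Pool.Agent.Run7.h473.QW

open Complex MeasureTheory
open Pool.Agent.N879.QM

noncomputable section

/-- `∑_q w(q) χ_q(n)` -/
def Sw (s : ℤ) (X : ℝ) (w : ℕ → ℂ) (n : ℕ) : ℂ := ∑ q ∈ Q s X, w q * vl s q n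

lemma Sw_sq (s : ℤ) (X : ℝ) (w : ℕ → ℂ) (f a : ℕ) :
    Sw s X w (f ^ 2 * a) = Sw s X (fun q => w q * (vl s q f) ^ 2) a := by
  unfold Sw
  refine Finset.sum_congr rfl fun q _ => ?_
  rw [vl_mul, sq, vl_mul]
  ring

lemma Sw_le {s : ℤ} {X : ℝ} (hX : 1 ≤ X) {w : ℕ → ℂ} (hw : ∀ q, ‖w q‖ ≤ 1) (n : ℕ) : ‖Sw s X w n‖ ≤ X := by
  unfold Sw
  calc ‖∑ q ∈ Q s X, w q * vl s q n‖ ≤ ∑ q ∈ Q s X, (1 : ℝ) := by
        refine (norm_sum_le _ _).trans (Finset.sum_le_sum fun q _ => ?_)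
        rw [norm_mul]
        calc ‖w q‖ * ‖vl s q n‖ ≤ 1 * 1 := mul_le_mul (hw q) (vl_le1 s q n) (norm_nonneg _) zero_le_one
          _ = 1 := one_mul 1
    _ = ((Q s X).card : ℝ) := by rw [Finset.sum_const, nsmul_eq_mul, mul_one]
    _ ≤ X := Q_card hX

/-- splitting by the squarefree kernel -/
lemma tup_split (k N : ℕ) (G : ℕ → ℝ) (hG : ∀ n, 0 ≤ G n) :
    ∑ n ∈ tup k N, G (∏ j, n j) ≤ ∑ a ∈ SF (N ^ k), ∑ f ∈ Finset.Icc 1 (N ^ k),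
      (((tup k N).filter (fun n => ∏ j, n j = f ^ 2 * a)).card : ℝ) * G (f ^ 2 * a) := by
  classical
  have h1 : ∀ n ∈ tup k N, G (∏ j, n j) ≤ ∑ a ∈ SF (N ^ k), ∑ f ∈ Finset.Icc 1 (N ^ k),
      if ∏ j, n j = f ^ 2 * a then G (f ^ 2 * a) else 0 := by
    intro n hn
    rw [Coef.mem_tup] at hn
    have h2 : 1 ≤ ∏ j, n j := Coef.one_le_prod fun j => (hn j).1
    have h3 : ∏ j, n j ≤ N ^ k := by
      calc ∏ j, n j ≤ ∏ _j : Fin k, N := Finset.prod_le_prod' fun j _ => (hn j).2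
        _ = N ^ k := by rw [Finset.prod_const, Finset.card_univ, Fintype.card_fin]
    obtain ⟨a, f, h4, h5⟩ := Nat.sq_mul_squarefree (∏ j, n j)
    have ha0 : 1 ≤ a := Nat.one_le_iff_ne_zero.2 h5.ne_zero
    have hf0 : 1 ≤ f := by
      rcases Nat.eq_zero_or_pos f with h | h
      · subst h
        simp at h4
        omega
      · exact h
    have haL : a ≤ N ^ k := by
      refine le_trans ?_ h3
      rw [← h4]
      exact Nat.le_mul_of_pos_left a (Nat.pow_pos hf0)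
    have hfL : f ≤ N ^ k := by
      refine le_trans ?_ h3
      rw [← h4]
      calc f ≤ f ^ 2 := Nat.le_self_pow two_ne_zero f
        _ ≤ f ^ 2 * a := Nat.le_mul_of_pos_right _ ha0
    have hnn : ∀ a f, 0 ≤ (if ∏ j, n j = f ^ 2 * a then G (f ^ 2 * a) else 0) := by
      intro a f
      split_ifs
      · exact hG _
      · exact le_rfl
    calc G (∏ j, n j) = if ∏ j, n j = f ^ 2 * a then G (f ^ 2 * a) else 0 := by rw [if_pos h4.symm, h4]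
      _ ≤ ∑ f ∈ Finset.Icc 1 (N ^ k), (if ∏ j, n j = f ^ 2 * a then G (f ^ 2 * a) else 0) :=
          Finset.single_le_sum (f := fun f => if ∏ j, n j = f ^ 2 * a then G (f ^ 2 * a) else 0)
            (fun f _ => hnn a f) (Finset.mem_Icc.2 ⟨hf0, hfL⟩)
      _ ≤ _ := Finset.single_le_sum (f := fun a => ∑ f ∈ Finset.Icc 1 (N ^ k),
            (if ∏ j, n j = f ^ 2 * a then G (f ^ 2 * a) else 0))
            (fun a _ => Finset.sum_nonneg fun f _ => hnn a f) (mem_SF.2 ⟨⟨ha0, haL⟩, h5⟩)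
  refine (Finset.sum_le_sum h1).trans (le_of_eq ?_)
  rw [Finset.sum_comm]
  refine Finset.sum_congr rfl fun a _ => ?_
  rw [Finset.sum_comm]
  refine Finset.sum_congr rfl fun f _ => ?_
  rw [← Finset.sum_filter, Finset.sum_const, nsmul_eq_mul]

lemma sum_f (L : ℕ) : ∃ C : ℝ, 0 < C ∧ ∀ L : ℕ, ∑ f ∈ Finset.Icc 1 L, (f : ℝ) ^ (-(3 / 2) : ℝ) ≤ C := by
  have hs : Summable (fun m : ℕ => (m : ℝ) ^ (-(3 / 2) : ℝ)) := Real.summable_nat_rpow.mpr (by norm_num)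
  refine ⟨(∑' m : ℕ, (m : ℝ) ^ (-(3 / 2) : ℝ)) + 1, ?_, fun L => ?_⟩
  · have : 0 ≤ ∑' m : ℕ, (m : ℝ) ^ (-(3 / 2) : ℝ) := tsum_nonneg fun m => by positivity
    positivity
  · have := hs.sum_le_tsum (Finset.Icc 1 L) (fun m _ => by positivity)
    linarith

/-- the sum of the squares of the coefficients -/
theorem coefs (h : S_AVG) (k : ℕ) : ∃ C : ℝ, 0 < C ∧ ∀ (s : ℤ) (X V : ℝ) (N M : ℕ) (w γ : ℕ → ℂ), s = 1 ∨ s = -1 →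
    1 ≤ X → 1 ≤ M → 0 ≤ V → ((N : ℝ) ^ k) ^ 2 ≤ √X → (∀ q, ‖w q‖ ≤ 1) →
    (∀ a f : ℕ, a ∈ SF (N ^ k) → f ∈ Finset.Icc 1 (N ^ k) → M < a → ‖γ (f ^ 2 * a)‖ ≤ ‖Sw s X w (f ^ 2 * a)‖) →
    (∀ a f : ℕ, a ∈ SF (N ^ k) → f ∈ Finset.Icc 1 (N ^ k) → a ≤ M → ‖γ (f ^ 2 * a)‖ ≤ V) →
    ∑ n ∈ tup k N, ‖γ (∏ j, n j)‖ ^ 2 / ((∏ j, n j : ℕ) : ℝ) ≤
      C * (X ^ 2 * (M : ℝ) ^ (-(3 / 4) : ℝ) + M * V ^ 2) := by
  classical
  obtain ⟨C1, hC1, hD⟩ := dls h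
  obtain ⟨C2, hC2, hdiv⟩ := Coef.div_pow k (1 / 4) (by norm_num)
  obtain ⟨C3, hC3, hf⟩ := sum_f 0
  refine ⟨C2 * C3 * (2 + C1), by positivity, ?_⟩
  intro s X V N M w γ hs hX hM hV hNX hw hγ1 hγ2
  have hX0 : 0 < X := by linarith
  have hM0 : (0 : ℝ) < M := by exact_mod_cast hM
  have hM1 : (1 : ℝ) ≤ M := by exact_mod_cast hM
  set L : ℕ := N ^ k with hL
  have hLX : (L : ℝ) ^ 2 ≤ √X := by
    rw [hL]; push_cast; exact hNX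
  have hs1 := tup_split k N (fun n => ‖γ n‖ ^ 2 / (n : ℝ)) (fun n => by positivity)
  refine hs1.trans ?_
  rw [← hL]
  -- one term
  have hterm : ∀ a ∈ SF L, ∀ f ∈ Finset.Icc 1 L,
      (((tup k N).filter (fun n => ∏ j, n j = f ^ 2 * a)).card : ℝ) * (‖γ (f ^ 2 * a)‖ ^ 2 / ((f ^ 2 * a : ℕ) : ℝ)) ≤
      C2 * (f : ℝ) ^ (-(3 / 2) : ℝ) * ((M : ℝ) ^ (-(3 / 4) : ℝ) * ‖Sw s X w (f ^ 2 * a)‖ ^ 2 +
        (if a ≤ M then V ^ 2 else 0)) := by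
    intro a ha f hfm
    have ha' := mem_SF.1 ha
    have hf' := Finset.mem_Icc.1 hfm
    have ha0 : (0 : ℝ) < a := by exact_mod_cast ha'.1.1
    have ha1 : (1 : ℝ) ≤ a := by exact_mod_cast ha'.1.1
    have hf0 : (0 : ℝ) < f := by exact_mod_cast hf'.1
    have hfa : 1 ≤ f ^ 2 * a := Nat.one_le_iff_ne_zero.2
      (Nat.mul_ne_zero (pow_ne_zero _ (by omega)) (by omega))
    have hfa0 : (0 : ℝ) < ((f ^ 2 * a : ℕ) : ℝ) := by exact_mod_cast hfa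
    have h1 : (((tup k N).filter (fun n => ∏ j, n j = f ^ 2 * a)).card : ℝ) ≤
        C2 * ((f ^ 2 * a : ℕ) : ℝ) ^ (1 / 4 : ℝ) := by
      refine le_trans ?_ (hdiv (f ^ 2 * a) hfa)
      exact_mod_cast Coef.card_fib k N (f ^ 2 * a) hfa
    have h2 : ((f ^ 2 * a : ℕ) : ℝ) ^ (1 / 4 : ℝ) / ((f ^ 2 * a : ℕ) : ℝ) =
        (f : ℝ) ^ (-(3 / 2) : ℝ) * (a : ℝ) ^ (-(3 / 4) : ℝ) := by
      have h3 : ((f ^ 2 * a : ℕ) : ℝ) ^ (1 / 4 : ℝ) / ((f ^ 2 * a : ℕ) : ℝ) =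
          ((f ^ 2 * a : ℕ) : ℝ) ^ (-(3 / 4) : ℝ) := by
        nth_rewrite 2 [← Real.rpow_one ((f ^ 2 * a : ℕ) : ℝ)]
        rw [← Real.rpow_sub hfa0]
        norm_num
      rw [h3]
      push_cast
      rw [Real.mul_rpow (by positivity) ha0.le, ← Real.rpow_natCast (f : ℝ) 2, ← Real.rpow_mul hf0.le]
      norm_num
    have h4 : (((tup k N).filter (fun n => ∏ j, n j = f ^ 2 * a)).card : ℝ) *
        (‖γ (f ^ 2 * a)‖ ^ 2 / ((f ^ 2 * a : ℕ) : ℝ)) ≤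
        C2 * (f : ℝ) ^ (-(3 / 2) : ℝ) * ((a : ℝ) ^ (-(3 / 4) : ℝ) * ‖γ (f ^ 2 * a)‖ ^ 2) := by
      calc _ ≤ C2 * ((f ^ 2 * a : ℕ) : ℝ) ^ (1 / 4 : ℝ) * (‖γ (f ^ 2 * a)‖ ^ 2 / ((f ^ 2 * a : ℕ) : ℝ)) :=
            mul_le_mul_of_nonneg_right h1 (by positivity)
        _ = C2 * (((f ^ 2 * a : ℕ) : ℝ) ^ (1 / 4 : ℝ) / ((f ^ 2 * a : ℕ) : ℝ)) * ‖γ (f ^ 2 * a)‖ ^ 2 := by ring
        _ = _ := by rw [h2]; ring
    refine h4.trans (mul_le_mul_of_nonneg_left ?_ (by positivity))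
    by_cases haM : a ≤ M
    · rw [if_pos haM]
      have h5 := hγ2 a f ha hfm haM
      have h6 : (a : ℝ) ^ (-(3 / 4) : ℝ) ≤ 1 := Real.rpow_le_one_of_one_le_of_nonpos ha1 (by norm_num)
      have h7 : ‖γ (f ^ 2 * a)‖ ^ 2 ≤ V ^ 2 := pow_le_pow_left₀ (norm_nonneg _) h5 2
      have h8 : 0 ≤ (M : ℝ) ^ (-(3 / 4) : ℝ) * ‖Sw s X w (f ^ 2 * a)‖ ^ 2 := by positivity
      calc (a : ℝ) ^ (-(3 / 4) : ℝ) * ‖γ (f ^ 2 * a)‖ ^ 2 ≤ 1 * V ^ 2 :=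
            mul_le_mul h6 h7 (by positivity) zero_le_one
        _ ≤ _ := by linarith
    · rw [if_neg haM, add_zero]
      have haM' : M < a := not_le.1 haM
      have h5 := hγ1 a f ha hfm haM'
      have h6 : (a : ℝ) ^ (-(3 / 4) : ℝ) ≤ (M : ℝ) ^ (-(3 / 4) : ℝ) :=
        Real.rpow_le_rpow_of_nonpos hM0 (by exact_mod_cast haM'.le) (by norm_num)
      exact mul_le_mul h6 (pow_le_pow_left₀ (norm_nonneg _) h5 2) (by positivity) (by positivity)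
  refine (Finset.sum_le_sum fun a ha => Finset.sum_le_sum fun f hf => hterm a ha f hf).trans ?_
  rw [Finset.sum_comm]
  have hfix : ∀ f ∈ Finset.Icc 1 L, ∑ a ∈ SF L, C2 * (f : ℝ) ^ (-(3 / 2) : ℝ) *
      ((M : ℝ) ^ (-(3 / 4) : ℝ) * ‖Sw s X w (f ^ 2 * a)‖ ^ 2 + (if a ≤ M then V ^ 2 else 0)) ≤
      (f : ℝ) ^ (-(3 / 2) : ℝ) * (C2 * (2 + C1) * (X ^ 2 * (M : ℝ) ^ (-(3 / 4) : ℝ) + M * V ^ 2)) := by
    intro f hfm
    rw [← Finset.mul_sum, Finset.sum_add_distrib, ← Finset.mul_sum]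
    have h1 : ∑ a ∈ SF L, ‖Sw s X w (f ^ 2 * a)‖ ^ 2 ≤ (1 + C1) * X ^ 2 := by
      simp only [Sw_sq]
      have h2 := hD s X L (fun q => w q * (vl s q f) ^ 2) hs hX (fun q => by
        rw [norm_mul, norm_pow]
        have h3 := vl_le1 s q f
        have h4 := hw q
        have h5 : ‖vl s q f‖ ^ 2 ≤ 1 := pow_le_one₀ (norm_nonneg _) h3
        calc ‖w q‖ * ‖vl s q f‖ ^ 2 ≤ 1 * 1 := mul_le_mul h4 h5 (by positivity) zero_le_one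
          _ = 1 := one_mul 1)
      refine h2.trans ?_
      have h3 : √X * L ^ 2 ≤ X := by
        calc √X * L ^ 2 ≤ √X * √X := mul_le_mul_of_nonneg_left hLX (Real.sqrt_nonneg _)
          _ = X := Real.mul_self_sqrt hX0.le
      calc X * (X + C1 * √X * L ^ 2) = X * X + C1 * X * (√X * L ^ 2) := by ring
        _ ≤ X * X + C1 * X * X := by gcongr
        _ = (1 + C1) * X ^ 2 := by ring
    have h2 : ∑ a ∈ SF L, (if a ≤ M then V ^ 2 else 0) ≤ M * V ^ 2 := by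
      rw [← Finset.sum_filter, Finset.sum_const, nsmul_eq_mul]
      apply mul_le_mul_of_nonneg_right _ (by positivity)
      have h3 : (SF L).filter (fun a => a ≤ M) ⊆ Finset.Icc 1 M := by
        intro a ha
        rw [Finset.mem_filter, mem_SF] at ha
        rw [Finset.mem_Icc]
        exact ⟨ha.1.1.1, ha.2⟩
      have h4 := Finset.card_le_card h3
      rw [Nat.card_Icc, Nat.add_sub_cancel] at h4
      exact_mod_cast h4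
    have hff : 0 ≤ (f : ℝ) ^ (-(3 / 2) : ℝ) := by positivity
    calc C2 * (f : ℝ) ^ (-(3 / 2) : ℝ) * ((M : ℝ) ^ (-(3 / 4) : ℝ) * ∑ a ∈ SF L, ‖Sw s X w (f ^ 2 * a)‖ ^ 2 +
          ∑ a ∈ SF L, (if a ≤ M then V ^ 2 else 0))
        ≤ C2 * (f : ℝ) ^ (-(3 / 2) : ℝ) * ((M : ℝ) ^ (-(3 / 4) : ℝ) * ((1 + C1) * X ^ 2) + M * V ^ 2) := by
          gcongr
      _ = (f : ℝ) ^ (-(3 / 2) : ℝ) * (C2 * ((1 + C1) * (X ^ 2 * (M : ℝ) ^ (-(3 / 4) : ℝ)) + M * V ^ 2)) := by ring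
      _ ≤ (f : ℝ) ^ (-(3 / 2) : ℝ) * (C2 * ((2 + C1) * (X ^ 2 * (M : ℝ) ^ (-(3 / 4) : ℝ)) + (2 + C1) * (M * V ^ 2))) := by
          have a1 : 0 ≤ X ^ 2 * (M : ℝ) ^ (-(3 / 4) : ℝ) := by positivity
          have a2 : 0 ≤ (M : ℝ) * V ^ 2 := by positivity
          have a3 : (1 + C1) * (X ^ 2 * (M : ℝ) ^ (-(3 / 4) : ℝ)) ≤ (2 + C1) * (X ^ 2 * (M : ℝ) ^ (-(3 / 4) : ℝ)) :=
            mul_le_mul_of_nonneg_right (by linarith) a1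
          have a4 : (M : ℝ) * V ^ 2 ≤ (2 + C1) * (M * V ^ 2) := le_mul_of_one_le_left a2 (by linarith)
          gcongr
      _ = _ := by ring
  refine (Finset.sum_le_sum hfix).trans ?_
  rw [← Finset.sum_mul]
  have h5 : 0 ≤ C2 * (2 + C1) * (X ^ 2 * (M : ℝ) ^ (-(3 / 4) : ℝ) + M * V ^ 2) := by positivity
  calc (∑ f ∈ Finset.Icc 1 L, (f : ℝ) ^ (-(3 / 2) : ℝ)) *
        (C2 * (2 + C1) * (X ^ 2 * (M : ℝ) ^ (-(3 / 4) : ℝ) + M * V ^ 2))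
      ≤ C3 * (C2 * (2 + C1) * (X ^ 2 * (M : ℝ) ^ (-(3 / 4) : ℝ) + M * V ^ 2)) :=
        mul_le_mul_of_nonneg_right (hf L) h5
    _ = _ := by ring

/-- the polynomial with the coefficients `γ(n_1 ⋯ n_k)` -/
def PG (k N : ℕ) (γ : ℕ → ℂ) (β : Fin k → ℝ) : ℂ := ∑ n ∈ tup k N, γ (∏ j, n j) * cx n β

lemma PG_cont (k N : ℕ) (γ : ℕ → ℂ) : Continuous (PG k N γ) := by
  unfold PG
  refine continuous_finset_sum _ fun n hn => continuous_const.mul ?_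
  unfold cx
  refine continuous_finset_prod _ fun j _ => ?_
  have hn1 : 1 ≤ n j := (Coef.mem_tup.1 hn j).1
  have hn0 : (n j : ℂ) ≠ 0 := by exact_mod_cast (by omega : n j ≠ 0)
  have : Continuous fun β : Fin k → ℝ => -(pt (β j)) := (pt_cont.comp (continuous_apply j)).neg
  exact Continuous.const_cpow this (Or.inl hn0)

lemma PN_prod (k : ℕ) (s : ℤ) (X : ℝ) (N : ℕ) (w : ℕ → ℂ) (β : Fin k → ℝ) :
    ∑ q ∈ Q s X, w q * ∏ j, PN s q N (β j) = PG k N (Sw s X w) β := by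
  unfold PG Sw
  simp only [DiagA.expand, Finset.mul_sum, Finset.sum_mul]
  rw [Finset.sum_comm]
  refine Finset.sum_congr rfl fun n _ => Finset.sum_congr rfl fun q _ => ?_
  ring

/-- mean square over the shifts -/
theorem msq (h : S_AVG) {k : ℕ} (hk : 1 ≤ k) : ∃ C : ℝ, 0 < C ∧ ∀ (s : ℤ) (X V A : ℝ) (N M : ℕ) (w γ : ℕ → ℂ),
    s = 1 ∨ s = -1 → 1 ≤ X → 1 ≤ M → 0 ≤ V → 1 ≤ N → 1 ≤ A → ((N : ℝ) ^ k) ^ 2 ≤ √X →
    (N : ℝ) * ((N : ℝ) ^ k) ^ 2 * M ≤ A → (∀ q, ‖w q‖ ≤ 1) → (∀ n, ‖γ n‖ ≤ 2 * X) →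
    (∀ a f : ℕ, a ∈ SF (N ^ k) → f ∈ Finset.Icc 1 (N ^ k) → M < a → ‖γ (f ^ 2 * a)‖ ≤ ‖Sw s X w (f ^ 2 * a)‖) →
    (∀ a f : ℕ, a ∈ SF (N ^ k) → f ∈ Finset.Icc 1 (N ^ k) → a ≤ M → ‖γ (f ^ 2 * a)‖ ≤ V) →
    ∫⁻ β, ENNReal.ofReal (‖PG k N γ β‖ ^ 2) ∂(mS k A) ≤
      ENNReal.ofReal (A ^ k * (C * (X ^ 2 * (M : ℝ) ^ (-(3 / 4) : ℝ) + M * V ^ 2))) := by
  classical
  obtain ⟨C1, hC1, hco⟩ := coefs h k
  refine ⟨2 ^ k * C1 + 16 * 2 ^ k, by positivity, ?_⟩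
  intro s X V A N M w γ hs hX hM hV hN hA hNX hNA hw hγ hγ1 hγ2
  have hX0 : 0 < X := by linarith
  have hM0 : (0 : ℝ) < M := by exact_mod_cast hM
  have hM1 : (1 : ℝ) ≤ M := by exact_mod_cast hM
  have hA0 : 0 < A := by linarith
  have hN0 : (0 : ℝ) < N := by exact_mod_cast hN
  have h1 := hco s X V N M w γ hs hX hM hV hNX hw hγ1 hγ2
  have h2 := t_FL k N A (fun n => γ (∏ j, n j) * ((((∏ j, n j : ℕ) : ℝ) ^ (-(1 / 2) : ℝ) : ℝ) : ℂ)) hN hA0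
  have e1 : ∀ β : Fin k → ℝ, PG k N γ β = ∑ n ∈ tup k N,
      γ (∏ j, n j) * ((((∏ j, n j : ℕ) : ℝ) ^ (-(1 / 2) : ℝ) : ℝ) : ℂ) * ∏ j, (n j : ℂ) ^ (-(I * (β j : ℂ))) := by
    intro β
    unfold PG
    refine Finset.sum_congr rfl fun n hn => ?_
    have h3 : cx n β = ((((∏ j, n j : ℕ) : ℝ) ^ (-(1 / 2) : ℝ) : ℝ) : ℂ) * ∏ j, (n j : ℂ) ^ (-(I * (β j : ℂ))) :=
      Coef.cx_split (fun j => (Coef.mem_tup.1 hn j).1) β
    rw [h3]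
    ring
  simp only [← e1] at h2
  refine h2.trans (ENNReal.ofReal_le_ofReal ?_)
  -- numbers
  have h3 : ∑ n ∈ tup k N, ‖γ (∏ j, n j) * ((((∏ j, n j : ℕ) : ℝ) ^ (-(1 / 2) : ℝ) : ℝ) : ℂ)‖ ^ 2 =
      ∑ n ∈ tup k N, ‖γ (∏ j, n j)‖ ^ 2 / ((∏ j, n j : ℕ) : ℝ) := by
    refine Finset.sum_congr rfl fun n hn => ?_
    have hp : 1 ≤ ∏ j, n j := Coef.one_le_prod fun j => (Coef.mem_tup.1 hn j).1
    have hp0 : (0 : ℝ) < ((∏ j, n j : ℕ) : ℝ) := by exact_mod_cast hp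
    rw [norm_mul, Complex.norm_real, Real.norm_of_nonneg (by positivity), mul_pow, rsq hp0]
    have : (2 * (-(1 / 2)) : ℝ) = -1 := by norm_num
    rw [this, Real.rpow_neg_one, div_eq_mul_inv]
  have h4 : ∑ n ∈ tup k N, ‖γ (∏ j, n j) * ((((∏ j, n j : ℕ) : ℝ) ^ (-(1 / 2) : ℝ) : ℝ) : ℂ)‖ ≤
      2 * X * (N : ℝ) ^ k := by
    calc _ ≤ ∑ n ∈ tup k N, 2 * X := by
          refine Finset.sum_le_sum fun n hn => ?_
          have hp : 1 ≤ ∏ j, n j := Coef.one_le_prod fun j => (Coef.mem_tup.1 hn j).1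
          have hp1 : (1 : ℝ) ≤ ((∏ j, n j : ℕ) : ℝ) := by exact_mod_cast hp
          rw [norm_mul, Complex.norm_real, Real.norm_of_nonneg (by positivity)]
          have h5 : ((∏ j, n j : ℕ) : ℝ) ^ (-(1 / 2) : ℝ) ≤ 1 :=
            Real.rpow_le_one_of_one_le_of_nonpos hp1 (by norm_num)
          calc ‖γ (∏ j, n j)‖ * ((∏ j, n j : ℕ) : ℝ) ^ (-(1 / 2) : ℝ) ≤ 2 * X * 1 :=
                mul_le_mul (hγ _) h5 (by positivity) (by positivity)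
            _ = 2 * X := mul_one _
      _ = 2 * X * (N : ℝ) ^ k := by
          have hcard : (tup k N).card = N ^ k := by
            unfold tup
            rw [Fintype.card_piFinset]
            simp
          rw [Finset.sum_const, nsmul_eq_mul, hcard]
          push_cast
          ring
  rw [h3]
  have h5 : (A : ℝ) ^ ((k : ℝ) - 1) = A ^ k / A := by
    rw [Real.rpow_sub_one hA0.ne', Real.rpow_natCast]
  have h6 : (2 * A) ^ ((k : ℝ) - 1) = 2 ^ k * A ^ k / (2 * A) := by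
    rw [Real.rpow_sub_one (by positivity), Real.rpow_natCast, mul_pow]
  have h7 : (0 : ℝ) ≤ ∑ n ∈ tup k N, ‖γ (∏ j, n j) * ((((∏ j, n j : ℕ) : ℝ) ^ (-(1 / 2) : ℝ) : ℝ) : ℂ)‖ :=
    Finset.sum_nonneg fun _ _ => norm_nonneg _
  have h8 : X ^ 2 * ((N : ℝ) * ((N : ℝ) ^ k) ^ 2) / A ≤ X ^ 2 * (M : ℝ) ^ (-(3 / 4) : ℝ) := by
    have h9 : (N : ℝ) * ((N : ℝ) ^ k) ^ 2 / A ≤ (M : ℝ)⁻¹ := by
      rw [div_le_iff₀ hA0, ← div_eq_inv_mul, le_div_iff₀ hM0]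
      exact hNA
    have h10 : (M : ℝ)⁻¹ ≤ (M : ℝ) ^ (-(3 / 4) : ℝ) := by
      rw [← Real.rpow_neg_one]
      exact Real.rpow_le_rpow_of_exponent_le hM1 (by norm_num)
    rw [mul_div_assoc]
    exact mul_le_mul_of_nonneg_left (h9.trans h10) (by positivity)
  calc (2 * A) ^ k * ∑ n ∈ tup k N, ‖γ (∏ j, n j)‖ ^ 2 / ((∏ j, n j : ℕ) : ℝ) +
        4 * N * (2 * A) ^ ((k : ℝ) - 1) *
          (∑ n ∈ tup k N, ‖γ (∏ j, n j) * ((((∏ j, n j : ℕ) : ℝ) ^ (-(1 / 2) : ℝ) : ℝ) : ℂ)‖) ^ 2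
      ≤ (2 * A) ^ k * (C1 * (X ^ 2 * (M : ℝ) ^ (-(3 / 4) : ℝ) + M * V ^ 2)) +
        4 * N * (2 ^ k * A ^ k / (2 * A)) * (2 * X * (N : ℝ) ^ k) ^ 2 := by
        rw [h6]
        gcongr
    _ = 2 ^ k * A ^ k * (C1 * (X ^ 2 * (M : ℝ) ^ (-(3 / 4) : ℝ) + M * V ^ 2)) +
        8 * 2 ^ k * A ^ k * (X ^ 2 * ((N : ℝ) * ((N : ℝ) ^ k) ^ 2) / A) := by
        rw [mul_pow]
        field_simp
        ring
    _ ≤ 2 ^ k * A ^ k * (C1 * (X ^ 2 * (M : ℝ) ^ (-(3 / 4) : ℝ) + M * V ^ 2)) +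
        8 * 2 ^ k * A ^ k * (X ^ 2 * (M : ℝ) ^ (-(3 / 4) : ℝ)) := by gcongr
    _ ≤ A ^ k * ((2 ^ k * C1 + 16 * 2 ^ k) * (X ^ 2 * (M : ℝ) ^ (-(3 / 4) : ℝ) + M * V ^ 2)) := by
        have a1 : 0 ≤ 2 ^ k * A ^ k * (M * V ^ 2) := by positivity
        have a2 : 0 ≤ 2 ^ k * A ^ k * (X ^ 2 * (M : ℝ) ^ (-(3 / 4) : ℝ)) := by positivity
        nlinarith

end

end Pool.Agent.Run7.h473.QW
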