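import Pool.Agent.Run7.h473.QW.Ms
import Pool.Agent.N879.QM.Uni
import Pool.Agent.N792.SwR

set_option autoImplicit false

/-!
Moments over the prime discriminants: sums of the characters of prime conductor (Siegel-Walfisz).
-/

namespace Pool.Agent.Run7.h473.QW

open Complex Filter Topology
open Pool.Agent.N879.QM
open Pool.Agent.H306R2.RG

noncomputable section

/-- the indicator function of the primes -/
def wp (q : ℕ) : ℂ := if q.Prime then 1 else 0

lemma wp_le (q : ℕ) : ‖wp q‖ ≤ 1 := by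
  unfold wp
  split_ifs <;> simp

/-- the classes modulo `8` -/
def c1 (s : ℤ) : ℕ := if s = 1 then 1 else 7
def c5 (s : ℤ) : ℕ := if s = 1 then 5 else 3

lemma c1_iff {s : ℤ} (hs : s = 1 ∨ s = -1) (p : ℕ) : (s * (p : ℤ)) % 8 = 1 ↔ p % 8 = c1 s := by
  unfold c1
  rcases hs with rfl | rfl
  · simp only [if_true]
    omega
  · rw [if_neg (by norm_num)]
    omega

lemma c5_iff {s : ℤ} (hs : s = 1 ∨ s = -1) (p : ℕ) : (s * (p : ℤ)) % 8 = 5 ↔ p % 8 = c5 s := by
  unfold c5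
  rcases hs with rfl | rfl
  · simp only [if_true]
    omega
  · rw [if_neg (by norm_num)]
    omega

lemma not_sq {s : ℤ} (hs : s = 1 ∨ s = -1) {p : ℕ} (hp : p.Prime) : ¬ IsSquare (s * (p : ℤ)) := by
  rcases hs with rfl | rfl
  · rw [one_mul]
    intro h
    have h1 : IsSquare p := by
      obtain ⟨c, hc⟩ := h
      refine ⟨c.natAbs, ?_⟩
      have : ((p : ℤ)).natAbs = (c * c).natAbs := by rw [hc]
      rwa [Int.natAbs_natCast, Int.natAbs_mul] at this
    exact (Nat.Prime.prime hp).irreducible.not_isSquare h1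
  · rintro ⟨c, hc⟩
    have h1 : 0 ≤ c * c := mul_self_nonneg c
    have h2 : 0 < (p : ℤ) := by exact_mod_cast hp.pos
    linarith

lemma prime_is {s : ℤ} (hs : s = 1 ∨ s = -1) {p : ℕ} (hp : p.Prime) (h : p % 8 = c1 s ∨ p % 8 = c5 s) :
    Is s p ∧ ∀ n : ℕ, n ≠ 0 → vl s p n =
      ((((if p % 8 = c1 s then (1 : ℝ) else -1) ^ (n.factorization 2) *
        ((jacobiSym (s * (p : ℤ)) (n / 2 ^ (n.factorization 2)) : ℤ) : ℝ)) : ℝ) : ℂ) := by
  have hc : c1 s ≠ c5 s := by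
    unfold c1 c5
    split_ifs <;> norm_num
  have hodd : ∀ n : ℕ, n ≠ 0 → Odd (n / 2 ^ (n.factorization 2)) := fun n hn => Avg.odd_part hn
  rcases h with h | h
  · have hA : (F1 s 1).A p := ⟨(c1_iff hs p).2 h, not_sq hs hp⟩
    obtain ⟨h4, h5, h6, χ, h7, h8⟩ := Avg.rp_of s hs (F1 s 1) (Or.inr (Or.inr (Or.inl rfl))) p hA hp.squarefree
    have hr : (F1 s 1).r * p = p := by simp [F1]
    have h9 : ∀ q : ℕ, q = p → ∀ (χ' : DirichletCharacter ℂ q), Rp s χ' →
        (∀ n : ℕ, n ≠ 0 → χ' (n : ZMod q) = ((cf (F1 s 1) p n : ℝ) : ℂ)) →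
        Is s p ∧ ∀ n : ℕ, n ≠ 0 → vl s p n = ((cf (F1 s 1) p n : ℝ) : ℂ) := by
      intro q hq χ' hχ' hv'
      have hq2 : 2 ≤ q := by rw [hq]; exact hp.two_le
      have k1 : Is s q := ⟨hq2, χ', hχ'⟩
      have k2 : ∀ n : ℕ, n ≠ 0 → vl s q n = ((cf (F1 s 1) p n : ℝ) : ℂ) := fun n hn => by
        rw [Avg.vl_eq t_UNI hq2 χ' hχ', hv' n hn]
      rw [hq] at k1 k2
      exact ⟨k1, k2⟩
    obtain ⟨k1, k2⟩ := h9 _ hr χ h7 h8
    refine ⟨k1, fun n hn => ?_⟩
    rw [k2 n hn]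
    congr 1
    unfold cf jo
    rw [if_pos (hodd n hn), if_pos h]
    simp [F1]
    rfl
  · have h' : p % 8 ≠ c1 s := fun h2 => hc (h2.symm.trans h)
    have hA : (F1 s 5).A p := ⟨(c5_iff hs p).2 h, not_sq hs hp⟩
    obtain ⟨h4, h5, h6, χ, h7, h8⟩ := Avg.rp_of s hs (F1 s 5) (Or.inr (Or.inr (Or.inr rfl))) p hA hp.squarefree
    have hr : (F1 s 5).r * p = p := by simp [F1]
    have h9 : ∀ q : ℕ, q = p → ∀ (χ' : DirichletCharacter ℂ q), Rp s χ' →
        (∀ n : ℕ, n ≠ 0 → χ' (n : ZMod q) = ((cf (F1 s 5) p n : ℝ) : ℂ)) →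
        Is s p ∧ ∀ n : ℕ, n ≠ 0 → vl s p n = ((cf (F1 s 5) p n : ℝ) : ℂ) := by
      intro q hq χ' hχ' hv'
      have hq2 : 2 ≤ q := by rw [hq]; exact hp.two_le
      have k1 : Is s q := ⟨hq2, χ', hχ'⟩
      have k2 : ∀ n : ℕ, n ≠ 0 → vl s q n = ((cf (F1 s 5) p n : ℝ) : ℂ) := fun n hn => by
        rw [Avg.vl_eq t_UNI hq2 χ' hχ', hv' n hn]
      rw [hq] at k1 k2
      exact ⟨k1, k2⟩
    obtain ⟨k1, k2⟩ := h9 _ hr χ h7 h8
    refine ⟨k1, fun n hn => ?_⟩
    rw [k2 n hn]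
    congr 1
    unfold cf jo
    rw [if_pos (hodd n hn), if_neg h']
    simp [F1]
    rfl

lemma prime_class {s : ℤ} (hs : s = 1 ∨ s = -1) {p : ℕ} (hp : p.Prime) (h : Is s p) :
    p % 8 = c1 s ∨ p % 8 = c5 s := by
  obtain ⟨i, d, h1, h2, h3⟩ := Avg.fam_surj s p hp.two_le (ch s p) (Is_ch h)
  have hbad : ∀ r : ℕ, (r = 8 ∨ r = 4) → p = r * d → False := by
    intro r hr hpd
    have h4 : 2 ∣ p := by
      rw [hpd]
      rcases hr with rfl | rfl
      · exact Dvd.dvd.mul_right (by norm_num) d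
      · exact Dvd.dvd.mul_right (by norm_num) d
    have h5 : p = 2 := ((Nat.prime_dvd_prime_iff_eq Nat.prime_two hp).1 h4).symm
    rw [h5] at hpd
    rcases hr with rfl | rfl <;> omega
  fin_cases i
  · exact (hbad 8 (Or.inl rfl) h3).elim
  · exact (hbad 4 (Or.inr rfl) h3).elim
  · left
    have h4 : (s * (d : ℤ)) % 8 = 1 := h1.1
    have h5 : p = 1 * d := h3
    rw [one_mul] at h5
    rw [← c1_iff hs, h5]
    exact h4
  · right
    have h4 : (s * (d : ℤ)) % 8 = 5 := h1.1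
    have h5 : p = 1 * d := h3
    rw [one_mul] at h5
    rw [← c5_iff hs, h5]
    exact h4

/-- sums over the primes -/
def TP (c n y : ℕ) : ℝ := ∑ p ∈ (Finset.Icc 1 y).filter Nat.Prime, Avg.fc c n p

lemma fc_mod (c n m : ℕ) : Avg.fc c n m = Avg.fc c n (m % (8 * n)) := by
  unfold Avg.fc
  have h1 : m % (8 * n) % 8 = m % 8 := Nat.mod_mod_of_dvd m (Dvd.intro n rfl)
  have h2 : jacobiSym ((m % (8 * n) : ℕ) : ℤ) n = jacobiSym (m : ℤ) n := by
    apply jacobiSym.mod_left'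
    push_cast
    exact Int.emod_emod_of_dvd _ (Dvd.intro_left 8 rfl)
  rw [h1, h2]

lemma fc_cop {c n b : ℕ} (hn : Odd n) (hc : c % 2 = 1) (hc8 : c < 8) (h : Avg.fc c n b ≠ 0) : b.Coprime (8 * n) := by
  unfold Avg.fc at h
  split_ifs at h with h1
  · have hb2 : b % 2 = 1 := by omega
    have h2 : (jacobiSym (b : ℤ) n : ℤ) ≠ 0 := by
      intro h3
      rw [h3] at h
      exact h (by norm_num)
    have h3 : Int.gcd (b : ℤ) n = 1 := by
      by_contra h4
      haveI : NeZero n := ⟨hn.pos.ne'⟩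
      exact h2 (jacobiSym.eq_zero_iff_not_coprime.2 h4)
    have h4 : b.Coprime n := by
      rw [Int.gcd_natCast_natCast] at h3
      exact h3
    refine Nat.Coprime.mul_right ?_ h4
    have h5 : b.Coprime 2 := by
      rw [Nat.coprime_comm, Nat.Prime.coprime_iff_not_dvd Nat.prime_two]
      omega
    exact (Nat.Coprime.pow_right 3 h5)
  · exact absurd rfl h

lemma TP_eq {c n y : ℕ} (hn : Odd n) : TP c n y = ∑ b ∈ Finset.range (8 * n), Avg.fc c n b * H343E.piAP y (8 * n) b := by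
  classical
  have hn0 : 0 < 8 * n := by
    have := hn.pos
    omega
  unfold TP
  rw [← Finset.sum_fiberwise_of_maps_to (g := fun p => p % (8 * n)) (t := Finset.range (8 * n))
    (fun p _ => Finset.mem_range.2 (Nat.mod_lt _ hn0))]
  refine Finset.sum_congr rfl fun b hb => ?_
  have h1 : ∀ p ∈ ((Finset.Icc 1 y).filter Nat.Prime).filter (fun p => p % (8 * n) = b),
      Avg.fc c n p = Avg.fc c n b := by
    intro p hp
    rw [fc_mod, (Finset.mem_filter.1 hp).2]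
  rw [Finset.sum_congr rfl h1, Finset.sum_const, nsmul_eq_mul, mul_comm]
  congr 1
  unfold H343E.piAP
  congr 2
  ext p
  rw [Finset.mem_filter, Finset.mem_filter, Finset.mem_filter]
  have hb' := Finset.mem_range.1 hb
  constructor
  · rintro ⟨⟨h2, h3⟩, h4⟩
    refine ⟨h2, h3, ?_⟩
    unfold Nat.ModEq
    rw [h4, Nat.mod_eq_of_lt hb']
  · rintro ⟨h2, h3, h4⟩
    refine ⟨⟨h2, h3⟩, ?_⟩
    unfold Nat.ModEq at h4
    rw [h4, Nat.mod_eq_of_lt hb']

/-- Siegel-Walfisz for the Jacobi symbol -/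
lemma TP_est (U K : ℕ) : ∃ y0 : ℕ, ∀ y : ℕ, y0 ≤ y → ∀ c n : ℕ, Odd n → c % 2 = 1 → c < 8 →
    ((8 * n : ℕ) : ℝ) ≤ Real.log y ^ K →
    |TP c n y - Avg.An n * (H343E.pi1 y / (Nat.totient (8 * n) : ℝ))| ≤
      (8 * n : ℕ) * (y / Real.log y ^ U) := by
  obtain ⟨y0, h0⟩ := Pool.Agent.N792.SwR.sw_pi U K
  refine ⟨max y0 3, fun y hy c n hn hc hc8 hnK => ?_⟩
  have hy0 := (le_max_left y0 3).trans hy
  have hy3 := (le_max_right y0 3).trans hy
  have hn0 : 1 ≤ 8 * n := by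
    have := hn.pos
    omega
  have hlog : 0 < Real.log y := Real.log_pos (by exact_mod_cast (by omega : 1 < y))
  rw [TP_eq hn, ← Avg.full hn hc8, Finset.sum_mul, ← Finset.sum_sub_distrib]
  refine (Finset.abs_sum_le_sum_abs _ _).trans ?_
  have h1 : ∀ b ∈ Finset.range (8 * n), |Avg.fc c n b * H343E.piAP y (8 * n) b -
      Avg.fc c n b * (H343E.pi1 y / (Nat.totient (8 * n) : ℝ))| ≤ y / Real.log y ^ U := by
    intro b hb
    rw [← mul_sub, abs_mul]
    by_cases hf : Avg.fc c n b = 0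
    · rw [hf, abs_zero, zero_mul]
      positivity
    · have h2 := h0 y hy0 (8 * n) hn0 hnK b (Finset.mem_range.1 hb) (fc_cop hn hc hc8 hf)
      calc |Avg.fc c n b| * |H343E.piAP y (8 * n) b - H343E.pi1 y / (Nat.totient (8 * n) : ℝ)|
          ≤ 1 * (y / Real.log y ^ U) := mul_le_mul (Avg.fc_abs c n b) h2 (abs_nonneg _) zero_le_one
        _ = _ := one_mul _
  refine (Finset.sum_le_sum h1).trans ?_
  rw [Finset.sum_const, Finset.card_range, nsmul_eq_mul]

/-- the sum over the prime conductors -/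
lemma Sw_prime {s : ℤ} (hs : s = 1 ∨ s = -1) (X : ℝ) {a : ℕ} (ha : a ≠ 0) :
    Sw s X wp a = (((((jacobiSym s (a / 2 ^ (a.factorization 2)) : ℤ) : ℝ) *
      (TP (c1 s) (a / 2 ^ (a.factorization 2)) (⌈X⌉₊ - 1) +
        (-1) ^ (a.factorization 2) * TP (c5 s) (a / 2 ^ (a.factorization 2)) (⌈X⌉₊ - 1)) : ℝ)) : ℂ) := by
  classical
  set v : ℕ := a.factorization 2 with hv
  set m : ℕ := a / 2 ^ v with hm
  have hc : c1 s ≠ c5 s := by
    unfold c1 c5
    split_ifs <;> norm_num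
  have hg : ∀ p : ℕ, p.Prime → p ∈ Q s X → vl s p a =
      (((((jacobiSym s m : ℤ) : ℝ) * (Avg.fc (c1 s) m p + (-1) ^ v * Avg.fc (c5 s) m p) : ℝ)) : ℂ) := by
    intro p hp hpQ
    have h1 := prime_class hs hp (Q_is hpQ).1
    rw [(prime_is hs hp h1).2 a ha]
    congr 1
    have h2 : ((jacobiSym (s * (p : ℤ)) (a / 2 ^ a.factorization 2) : ℤ) : ℝ) =
        ((jacobiSym s m : ℤ) : ℝ) * ((jacobiSym (p : ℤ) m : ℤ) : ℝ) := by
      rw [← hv, ← hm, jacobiSym.mul_left]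
      push_cast
      rfl
    rw [h2]
    unfold Avg.fc
    rcases h1 with h1 | h1
    · rw [if_pos h1, if_pos h1, if_neg (fun h => hc (h1.symm.trans h))]
      simp
    · rw [if_neg (fun h => hc (h.symm.trans h1)), if_neg (fun h => hc (h.symm.trans h1)), if_pos h1]
      rw [← hv]
      ring
  have h1 : Sw s X wp a = ∑ p ∈ (Q s X).filter Nat.Prime,
      (((((jacobiSym s m : ℤ) : ℝ) * (Avg.fc (c1 s) m p + (-1) ^ v * Avg.fc (c5 s) m p) : ℝ)) : ℂ) := by
    unfold Sw wp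
    rw [Finset.sum_filter]
    refine Finset.sum_congr rfl fun p hp => ?_
    split_ifs with h2
    · rw [one_mul, hg p h2 hp]
    · rw [zero_mul]
  rw [h1]
  have h2 : ∑ p ∈ (Q s X).filter Nat.Prime,
      (((((jacobiSym s m : ℤ) : ℝ) * (Avg.fc (c1 s) m p + (-1) ^ v * Avg.fc (c5 s) m p) : ℝ)) : ℂ) =
      ∑ p ∈ (Finset.Icc 1 (⌈X⌉₊ - 1)).filter Nat.Prime,
      (((((jacobiSym s m : ℤ) : ℝ) * (Avg.fc (c1 s) m p + (-1) ^ v * Avg.fc (c5 s) m p) : ℝ)) : ℂ) := by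
    refine Finset.sum_subset ?_ ?_
    · intro p hp
      rw [Finset.mem_filter] at hp ⊢
      refine ⟨?_, hp.2⟩
      have h3 := hp.1
      unfold Q at h3
      rw [Finset.mem_filter, Finset.mem_Ico] at h3
      rw [Finset.mem_Icc]
      omega
    · intro p hp hp2
      rw [Finset.mem_filter, Finset.mem_Icc] at hp
      rw [Finset.mem_filter, not_and] at hp2
      have h3 : ¬ (p % 8 = c1 s ∨ p % 8 = c5 s) := by
        intro h4
        refine hp2 ?_ hp.2
        unfold Q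
        rw [Finset.mem_filter, Finset.mem_Ico]
        have := hp.2.two_le
        exact ⟨by omega, (prime_is hs hp.2 h4).1⟩
      rw [not_or] at h3
      unfold Avg.fc
      rw [if_neg h3.1, if_neg h3.2]
      simp
  rw [h2, ← Complex.ofReal_sum]
  congr 1
  unfold TP
  rw [← Finset.mul_sum, Finset.sum_add_distrib, ← Finset.mul_sum]

end

end Pool.Agent.Run7.h473.QW
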