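import Pool.Agent.Run7.h473.QW.Pr
import Pool.Agent.N879.QM.AsmB

set_option autoImplicit false

/-!
Moments over the prime discriminants: the sums over the prime conductors for squarefree kernels up to a power of the
logarithm.
-/

namespace Pool.Agent.Run7.h473.QW

open Complex Filter Topology
open Pool.Agent.N879.QM

noncomputable section

lemma tot8 : Nat.totient (8 * 1) = 4 := by decide

lemma c1_odd (s : ℤ) : c1 s % 2 = 1 ∧ c1 s < 8 := by
  unfold c1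
  split_ifs <;> norm_num

lemma c5_odd (s : ℤ) : c5 s % 2 = 1 ∧ c5 s < 8 := by
  unfold c5
  split_ifs <;> norm_num

/-- the number of the primes below `X` -/
def pX (X : ℝ) : ℝ := H343E.pi1 (⌈X⌉₊ - 1)

lemma pX_le {X : ℝ} (hX : 1 ≤ X) : 0 ≤ pX X ∧ pX X ≤ X := by
  unfold pX H343E.pi1
  refine ⟨Nat.cast_nonneg _, ?_⟩
  have h1 : ((Finset.Icc 1 (⌈X⌉₊ - 1)).filter (fun p => p.Prime)).card ≤ ⌈X⌉₊ - 1 := by
    refine (Finset.card_filter_le _ _).trans ?_
    rw [Nat.card_Icc]; omega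
  have h2 : (⌈X⌉₊ : ℝ) < X + 1 := Nat.ceil_lt_add_one (by linarith)
  have h3 : 1 ≤ ⌈X⌉₊ := Nat.one_le_ceil_iff.2 (by linarith)
  have h4 : ((⌈X⌉₊ - 1 : ℕ) : ℝ) ≤ X := by
    rw [Nat.cast_sub h3]; push_cast; linarith
  exact le_trans (by exact_mod_cast h1) h4

/-- squares of the values -/
lemma vl_sq_sub {s : ℤ} {q : ℕ} (h : Is s q) (f : ℕ) : ‖(vl s q f) ^ 2 - 1‖ ≤ 1 ∧
    (q.Prime → ¬ q ∣ f → (vl s q f) ^ 2 = 1) := by
  have h2 : (ch s q) ^ 2 = 1 := (Is_ch h).2.1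
  have hu : IsUnit (f : ZMod q) → (vl s q f) ^ 2 = 1 := by
    intro hu
    unfold vl
    rw [← MulChar.pow_apply' _ two_ne_zero, h2, MulChar.one_apply hu]
  constructor
  · by_cases h3 : IsUnit (f : ZMod q)
    · rw [hu h3]; simp
    · unfold vl
      rw [MulChar.map_nonunit _ h3]; simp
  · intro hq hf
    apply hu
    rw [ZMod.isUnit_iff_coprime]
    exact ((Nat.Prime.coprime_iff_not_dvd hq).2 hf).symm

lemma Sw_f {s : ℤ} (X : ℝ) {a f : ℕ} (hf : 1 ≤ f) : ‖Sw s X wp (f ^ 2 * a) - Sw s X wp a‖ ≤ f := by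
  classical
  rw [Sw_sq]
  unfold Sw
  rw [← Finset.sum_sub_distrib]
  have h1 : ∀ q ∈ Q s X, wp q * (vl s q f) ^ 2 * vl s q a - wp q * vl s q a =
      if q.Prime ∧ q ∣ f then ((vl s q f) ^ 2 - 1) * vl s q a else 0 := by
    intro q hq
    unfold wp
    by_cases hp : q.Prime
    · rw [if_pos hp]
      by_cases hd : q ∣ f
      · rw [if_pos ⟨hp, hd⟩]; ring
      · rw [if_neg (fun h => hd h.2), (vl_sq_sub (Q_is hq).1 f).2 hp hd]; ring
    · rw [if_neg hp, if_neg (fun h => hp h.1)]; ring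
  rw [Finset.sum_congr rfl h1, ← Finset.sum_filter]
  have h2 : (Q s X).filter (fun q => q.Prime ∧ q ∣ f) ⊆ Finset.Icc 1 f := by
    intro q hq
    rw [Finset.mem_filter] at hq
    rw [Finset.mem_Icc]
    exact ⟨hq.2.1.one_le, Nat.le_of_dvd hf hq.2.2⟩
  calc ‖∑ q ∈ (Q s X).filter (fun q => q.Prime ∧ q ∣ f), ((vl s q f) ^ 2 - 1) * vl s q a‖
      ≤ ∑ q ∈ (Q s X).filter (fun q => q.Prime ∧ q ∣ f), (1 : ℝ) := by
        refine (norm_sum_le _ _).trans (Finset.sum_le_sum fun q hq => ?_)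
        rw [Finset.mem_filter] at hq
        rw [norm_mul]
        calc ‖(vl s q f) ^ 2 - 1‖ * ‖vl s q a‖ ≤ 1 * 1 :=
              mul_le_mul (vl_sq_sub (Q_is hq.1).1 f).1 (vl_le1 s q a) (norm_nonneg _) zero_le_one
          _ = 1 := one_mul 1
    _ = (((Q s X).filter (fun q => q.Prime ∧ q ∣ f)).card : ℝ) := by
        rw [Finset.sum_const, nsmul_eq_mul, mul_one]
    _ ≤ ((Finset.Icc 1 f).card : ℝ) := by exact_mod_cast Finset.card_le_card h2
    _ = f := by rw [Nat.card_Icc]; simp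

lemma jac_le (s : ℤ) (m : ℕ) : |((jacobiSym s m : ℤ) : ℝ)| ≤ 1 := Avg.jac_absR s m

/-- the squarefree case -/
lemma Sw_sqf (U K : ℕ) : ∃ X₀ : ℝ, ∀ X : ℝ, X₀ ≤ X → ∀ s : ℤ, s = 1 ∨ s = -1 → ∀ a : ℕ, Squarefree a →
    (a : ℝ) ≤ Real.log X ^ K →
    ‖Sw s X wp a - ((if a = 1 then pX X / 2 else 0 : ℝ) : ℂ)‖ ≤ X / (2 * Real.log X ^ U) := by
  classical
  obtain ⟨y0, h0⟩ := TP_est (U + K + 1) (K + 1)
  have ev1 : ∀ᶠ X : ℝ in atTop, 8 * 2 ^ (K + 1) ≤ Real.log X := Real.tendsto_log_atTop.eventually_ge_atTop _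
  have ev2 : ∀ᶠ X : ℝ in atTop, 32 * 2 ^ (U + K + 1) ≤ Real.log X := Real.tendsto_log_atTop.eventually_ge_atTop _
  have ev3 : ∀ᶠ X : ℝ in atTop, (y0 : ℝ) + 16 ≤ X := eventually_ge_atTop _
  obtain ⟨X₀, hX₀⟩ := eventually_atTop.1 ((ev1.and ev2).and ev3)
  refine ⟨X₀, ?_⟩
  intro X hX s hs a ha haX
  obtain ⟨⟨v1, v2⟩, v3⟩ := hX₀ X hX
  have hX0 : 0 < X := by
    have : (0 : ℝ) ≤ y0 := Nat.cast_nonneg _
    linarith
  have hy0' : (0 : ℝ) ≤ y0 := Nat.cast_nonneg _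
  have hl : 0 < Real.log X := lt_of_lt_of_le (by positivity) v1
  set y : ℕ := ⌈X⌉₊ - 1 with hy
  have hc1 : 1 ≤ ⌈X⌉₊ := Nat.one_le_ceil_iff.2 hX0
  have hyX : (y : ℝ) ≤ X := by
    rw [hy, Nat.cast_sub hc1]
    have h2 : (⌈X⌉₊ : ℝ) < X + 1 := Nat.ceil_lt_add_one hX0.le
    push_cast; linarith
  have hyX' : X - 1 ≤ y := by
    rw [hy, Nat.cast_sub hc1]
    have h2 : X ≤ (⌈X⌉₊ : ℝ) := Nat.le_ceil X
    push_cast; linarith
  have hyy : y0 ≤ y := by
    have : (y0 : ℝ) ≤ y := by linarith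
    exact_mod_cast this
  have hyp : (0 : ℝ) < y := by linarith
  have hlogy : Real.log X / 2 ≤ Real.log y := by
    have h1 : √X ≤ y := by
      have h2 : √X * √X = X := Real.mul_self_sqrt hX0.le
      have h3 : 4 ≤ √X := Real.le_sqrt_of_sq_le (by linarith)
      nlinarith
    have h2 := Real.log_le_log (Real.sqrt_pos.2 hX0) h1
    rw [Real.log_sqrt hX0.le] at h2
    exact h2
  -- the odd part
  have ha0 : a ≠ 0 := ha.ne_zero
  set v : ℕ := a.factorization 2 with hv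
  set m : ℕ := a / 2 ^ v with hm
  have hmo : Odd m := Avg.odd_part ha0
  have hdvd : 2 ^ v ∣ a := Nat.ordProj_dvd a 2
  have ham : a = 2 ^ v * m := (Nat.mul_div_cancel' hdvd).symm
  have hma : m ≤ a := Nat.div_le_self _ _
  have hmsq : Squarefree m := ha.squarefree_of_dvd (by rw [ham]; exact Dvd.intro_left _ rfl)
  have hv1 : v ≤ 1 := ha.natFactorization_le_one 2
  have hmX : ((8 * m : ℕ) : ℝ) ≤ Real.log y ^ (K + 1) := by
    have h1 : (m : ℝ) ≤ a := by exact_mod_cast hma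
    have h2 : Real.log X ^ (K + 1) / 2 ^ (K + 1) ≤ Real.log y ^ (K + 1) := by
      rw [← div_pow]
      exact pow_le_pow_left₀ (by positivity) hlogy _
    refine le_trans ?_ h2
    rw [le_div_iff₀ (by positivity), pow_succ (Real.log X) K]
    push_cast
    have h3 : 0 ≤ Real.log X ^ K := by positivity
    calc 8 * (m : ℝ) * 2 ^ (K + 1) = (m : ℝ) * (8 * 2 ^ (K + 1)) := by ring
      _ ≤ Real.log X ^ K * Real.log X := mul_le_mul (h1.trans haX) v1 (by positivity) h3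
  have e1 := h0 y hyy (c1 s) m hmo (c1_odd s).1 (c1_odd s).2 hmX
  have e5 := h0 y hyy (c5 s) m hmo (c5_odd s).1 (c5_odd s).2 hmX
  set W : ℝ := Avg.An m * (H343E.pi1 y / (Nat.totient (8 * m) : ℝ)) with hW
  -- the main term
  have hmain : (if a = 1 then pX X / 2 else 0 : ℝ) = ((jacobiSym s m : ℤ) : ℝ) * (W + (-1) ^ v * W) := by
    by_cases hm1 : m = 1
    · have hA1 : Avg.An m = 1 := by
        unfold Avg.An
        rw [hm1, if_pos ⟨1, rfl⟩]
        simp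
      have hφ : (Nat.totient (8 * m) : ℝ) = 4 := by
        rw [hm1, tot8]
        norm_num
      rw [hW, hA1, hφ, hm1, jacobiSym.one_right]
      rcases Nat.le_one_iff_eq_zero_or_eq_one.1 hv1 with h | h
      · have ha1 : a = 1 := by rw [ham, h, hm1]; rfl
        rw [if_pos ha1, h]
        unfold pX
        rw [← hy]
        push_cast
        ring
      · have ha2 : a ≠ 1 := by rw [ham, h, hm1]; norm_num
        rw [if_neg ha2, h]
        ring
    · have hA0 : Avg.An m = 0 := by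
        unfold Avg.An
        rw [if_neg]
        intro hsq
        apply hm1
        have : IsSquare (m * 1) := by rwa [mul_one]
        exact sqf_eq hmsq squarefree_one this
      have ha1 : a ≠ 1 := by
        rintro rfl
        apply hm1
        rw [hm]
        have : v = 0 := by rw [hv]; simp
        rw [this]
        rfl
      rw [if_neg ha1, hW, hA0]
      ring
  rw [Sw_prime hs X ha0, ← Complex.ofReal_sub, Complex.norm_real, Real.norm_eq_abs, ← hv, ← hm, ← hy, hmain]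
  have e6 : ((jacobiSym s m : ℤ) : ℝ) * (TP (c1 s) m y + (-1) ^ v * TP (c5 s) m y) -
      ((jacobiSym s m : ℤ) : ℝ) * (W + (-1) ^ v * W) =
      ((jacobiSym s m : ℤ) : ℝ) * ((TP (c1 s) m y - W) + (-1) ^ v * (TP (c5 s) m y - W)) := by ring
  rw [e6, abs_mul]
  have e7 : |(TP (c1 s) m y - W) + (-1) ^ v * (TP (c5 s) m y - W)| ≤
      2 * ((8 * m : ℕ) * (y / Real.log y ^ (U + K + 1))) := by
    refine (abs_add_le _ _).trans ?_
    have : |(-1 : ℝ) ^ v * (TP (c5 s) m y - W)| = |TP (c5 s) m y - W| := by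
      rw [abs_mul, abs_pow, abs_neg, abs_one, one_pow, one_mul]
    rw [this]
    linarith
  have e8 : |((jacobiSym s m : ℤ) : ℝ)| * |(TP (c1 s) m y - W) + (-1) ^ v * (TP (c5 s) m y - W)| ≤
      1 * (2 * ((8 * m : ℕ) * (y / Real.log y ^ (U + K + 1)))) :=
    mul_le_mul (jac_le s m) e7 (abs_nonneg _) zero_le_one
  refine e8.trans ?_
  rw [one_mul]
  have hm' : (m : ℝ) ≤ Real.log X ^ K := le_trans (by exact_mod_cast hma) haX
  have e9 : (y : ℝ) / Real.log y ^ (U + K + 1) ≤ X * 2 ^ (U + K + 1) / Real.log X ^ (U + K + 1) := by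
    have h2 : Real.log X ^ (U + K + 1) / 2 ^ (U + K + 1) ≤ Real.log y ^ (U + K + 1) := by
      rw [← div_pow]
      exact pow_le_pow_left₀ (by positivity) hlogy _
    calc (y : ℝ) / Real.log y ^ (U + K + 1) ≤ X / (Real.log X ^ (U + K + 1) / 2 ^ (U + K + 1)) := by gcongr
      _ = _ := by rw [div_div_eq_mul_div]
  calc 2 * (((8 * m : ℕ) : ℝ) * (y / Real.log y ^ (U + K + 1)))
      ≤ 2 * (8 * Real.log X ^ K * (X * 2 ^ (U + K + 1) / Real.log X ^ (U + K + 1))) := by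
        push_cast
        gcongr
    _ = X * (32 * 2 ^ (U + K + 1)) / (2 * Real.log X ^ U * Real.log X) := by
        rw [pow_succ, pow_add]
        field_simp
        ring
    _ ≤ X * Real.log X / (2 * Real.log X ^ U * Real.log X) := by gcongr
    _ = X / (2 * Real.log X ^ U) := by field_simp

/-- the general case -/
theorem Sw_kernel (U K : ℕ) : ∃ X₀ : ℝ, ∀ X : ℝ, X₀ ≤ X → ∀ s : ℤ, s = 1 ∨ s = -1 → ∀ a f : ℕ, Squarefree a →
    (a : ℝ) ≤ Real.log X ^ K → 1 ≤ f → (f : ℝ) ≤ X ^ (1 / 2 : ℝ) →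
    ‖Sw s X wp (f ^ 2 * a) - ((if a = 1 then pX X / 2 else 0 : ℝ) : ℂ)‖ ≤ X / Real.log X ^ U := by
  obtain ⟨X₁, h1⟩ := Sw_sqf U K
  have ev1 : ∀ᶠ X : ℝ in atTop, (1 * Real.log X) ^ U ≤ X ^ (1 / 4 : ℝ) := log_small U one_pos (by norm_num)
  have ev2 : ∀ᶠ X : ℝ in atTop, 2 ≤ X ^ (1 / 4 : ℝ) :=
    (tendsto_rpow_atTop (by norm_num)).eventually_ge_atTop _
  obtain ⟨X₀, hX₀⟩ := eventually_atTop.1 ((ev1.and ev2).and ((eventually_ge_atTop X₁).and (eventually_ge_atTop 3)))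
  refine ⟨X₀, ?_⟩
  intro X hX s hs a f ha haX hf hfX
  obtain ⟨⟨v1, v2⟩, v3, v4⟩ := hX₀ X hX
  have hX0 : 0 < X := by linarith
  have hl : 0 < Real.log X := Real.log_pos (by linarith)
  have h2 := h1 X v3 s hs a ha haX
  have h3 := Sw_f (s := s) X (a := a) hf
  have h4 : (f : ℝ) ≤ X / (2 * Real.log X ^ U) := by
    rw [le_div_iff₀ (by positivity)]
    rw [one_mul] at v1
    calc (f : ℝ) * (2 * Real.log X ^ U) ≤ X ^ (1 / 2 : ℝ) * (X ^ (1 / 4 : ℝ) * X ^ (1 / 4 : ℝ)) := by gcongr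
      _ = X := by
          rw [← Real.rpow_add hX0, ← Real.rpow_add hX0]
          norm_num
  have h5 := norm_add_le (Sw s X wp (f ^ 2 * a) - Sw s X wp a)
    (Sw s X wp a - ((if a = 1 then pX X / 2 else 0 : ℝ) : ℂ))
  rw [sub_add_sub_cancel] at h5
  have h6 : X / Real.log X ^ U = X / (2 * Real.log X ^ U) + X / (2 * Real.log X ^ U) := by
    field_simp
    ring
  rw [h6]
  linarith

end

end Pool.Agent.Run7.h473.QW
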