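import Pool.Agent.Run7.h473.QW.Core
import Pool.Agent.Run7.h473.QW.Ps

set_option autoImplicit false

/-!
Moments over the prime discriminants: assembly.
-/

namespace Pool.Agent.Run7.h473.QW

open Complex Filter Topology MeasureTheory Set
open Pool.Agent.N879.QM

noncomputable section

/-- the weighted moment -/
def Wm (k : ℕ) (s : ℤ) (X : ℝ) (E : Finset ℕ) (w : ℕ → ℂ) (β : Fin k → ℝ) : ℂ :=
  ∑ q ∈ Q s X \ E, w q * ∏ j, LL s q (pt (β j))

open Classical in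
/-- the part of the coefficients with a small squarefree kernel -/
def Sk (s : ℤ) (X : ℝ) (w : ℕ → ℂ) (M n : ℕ) : ℂ :=
  if ∃ a : ℕ, 1 ≤ a ∧ a ≤ M ∧ IsSquare (n * a) then Sw s X w n else 0

open Classical in
/-- the square terms -/
def Dg (k l N : ℕ) (β : Fin k → ℝ) : ℂ := ∑ n ∈ tup k N, if IsSquare (l * ∏ j, n j) then cx n β else 0

lemma sq_cancel {h m : ℕ} (hh : 1 ≤ h) (hs : IsSquare (h ^ 2 * m)) : IsSquare m := by
  obtain ⟨c, hc⟩ := hs
  have hd : h ∣ c := by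
    have : h ^ 2 ∣ c ^ 2 := ⟨m, by rw [pow_two c, ← hc]⟩
    exact (Nat.pow_dvd_pow_iff two_ne_zero).1 this
  obtain ⟨e, he⟩ := hd
  refine ⟨e, ?_⟩
  have h2 : h ^ 2 * m = h ^ 2 * (e * e) := by
    rw [hc, he]; ring
  exact Nat.eq_of_mul_eq_mul_left (by positivity) h2

lemma sqf_sq {h m : ℕ} (hm : Squarefree m) (hh : 1 ≤ h) : IsSquare (h ^ 2 * m) ↔ m = 1 := by
  constructor
  · intro h1
    have h2 : IsSquare (m * 1) := by
      rw [mul_one]
      exact sq_cancel hh h1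
    exact sqf_eq hm squarefree_one h2
  · rintro rfl
    exact ⟨h, by ring⟩

/-- writing a positive integer as a square times a squarefree number -/
lemma sqf_dec {n : ℕ} (hn : 1 ≤ n) : ∃ g b : ℕ, 1 ≤ g ∧ Squarefree b ∧ n = g ^ 2 * b ∧ g ≤ n ∧ b ≤ n := by
  obtain ⟨b, g, h4, h5⟩ := Nat.sq_mul_squarefree n
  have hb0 : 1 ≤ b := Nat.one_le_iff_ne_zero.2 h5.ne_zero
  have hg0 : 1 ≤ g := by
    rcases Nat.eq_zero_or_pos g with h | h
    · subst h
      simp at h4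
      omega
    · exact h
  refine ⟨g, b, hg0, h5, h4.symm, ?_, ?_⟩
  · calc g ≤ g ^ 2 := Nat.le_self_pow two_ne_zero g
      _ ≤ g ^ 2 * b := Nat.le_mul_of_pos_right _ hb0
      _ = n := h4
  · calc b ≤ g ^ 2 * b := Nat.le_mul_of_pos_left b (Nat.pow_pos hg0)
      _ = n := h4

lemma big_kernel {l f a : ℕ} (hl : 1 ≤ l) (hf : 1 ≤ f) (ha : Squarefree a) (h : IsSquare (l * (f ^ 2 * a))) : a ≤ l := by
  obtain ⟨g, b, h1, h2, h3, h4, h5⟩ := sqf_dec hl
  have h6 : IsSquare ((g * f) ^ 2 * (b * a)) := by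
    have : (g * f) ^ 2 * (b * a) = l * (f ^ 2 * a) := by
      rw [h3]; ring
    rwa [this]
  have h7 : IsSquare (b * a) := sq_cancel (Nat.one_le_iff_ne_zero.2 (by positivity)) h6
  rw [← sqf_eq h2 ha h7]
  exact h5

lemma TT0 (k : ℕ) (s : ℤ) (X : ℝ) (N : ℕ) (E : Finset ℕ) (w : ℕ → ℂ) (z : Fin 0 → ℂ) (β : Fin k → ℝ) :
    TT k 0 s X N E w z β = Wm k s X E w β - PG k N (Sw s X w) β := by
  unfold TT Wm
  rw [← PN_prod]
  simp

lemma PG_sub (k N : ℕ) (γ γ' : ℕ → ℂ) (β : Fin k → ℝ) :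
    PG k N (fun n => γ n - γ' n) β = PG k N γ β - PG k N γ' β := by
  unfold PG
  rw [← Finset.sum_sub_distrib]
  exact Finset.sum_congr rfl fun n _ => by ring

/-- the conditions on the parameters -/
lemma params {k : ℕ} {θ δ η X : ℝ} {N M : ℕ} (hθ1 : θ ≤ 1) (hη : 0 < η) (hδη : δ ≤ η)
    (hηθ : η * (16 * (((0 : ℕ) : ℝ) + k + 1)) ≤ θ) (hX : 1 ≤ X) (hN : (N : ℝ) ≤ X ^ η) (hM : (M : ℝ) ≤ X ^ δ) :
    ((N : ℝ) ^ k) ^ 2 ≤ √X ∧ (N : ℝ) * ((N : ℝ) ^ k) ^ 2 * M ≤ X ^ θ ∧ (N : ℝ) ^ k ≤ X ^ (1 / 4 : ℝ) := by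
  have hX0 : 0 < X := by linarith
  have hk : (0 : ℝ) ≤ k := Nat.cast_nonneg k
  have hN0 : (0 : ℝ) ≤ N := Nat.cast_nonneg N
  have hM0 : (0 : ℝ) ≤ M := Nat.cast_nonneg M
  rw [Nat.cast_zero, zero_add] at hηθ
  have hηk : 0 ≤ η * k := by positivity
  have h1 : (N : ℝ) ^ k ≤ X ^ (η * k) := by
    rw [Real.rpow_mul hX0.le, Real.rpow_natCast]
    exact pow_le_pow_left₀ hN0 hN k
  have h2 : ((N : ℝ) ^ k) ^ 2 ≤ X ^ (η * k * 2) := by
    calc ((N : ℝ) ^ k) ^ 2 ≤ (X ^ (η * k)) ^ 2 := pow_le_pow_left₀ (by positivity) h1 2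
      _ = X ^ (η * k * 2) := by rw [← Real.rpow_natCast, ← Real.rpow_mul hX0.le]; norm_num
  refine ⟨?_, ?_, ?_⟩
  · rw [Real.sqrt_eq_rpow]
    exact h2.trans (Real.rpow_le_rpow_of_exponent_le hX (by nlinarith))
  · calc (N : ℝ) * ((N : ℝ) ^ k) ^ 2 * M ≤ X ^ η * X ^ (η * k * 2) * X ^ δ := by gcongr
      _ = X ^ (η + η * k * 2 + δ) := by rw [← Real.rpow_add hX0, ← Real.rpow_add hX0]
      _ ≤ X ^ θ := Real.rpow_le_rpow_of_exponent_le hX (by nlinarith)
  · exact h1.trans (Real.rpow_le_rpow_of_exponent_le hX (by nlinarith))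

theorem prim (k : ℕ) (hk : 1 ≤ k) (s : ℤ) (hs : s = 1 ∨ s = -1) (θ : ℝ) (hθ : 0 < θ) (hθ1 : θ ≤ 1) :
    ∃ δ η X₀ : ℝ, ∃ M₀ : ℕ, ∃ E : ℝ → Finset ℕ, 0 < δ ∧ 0 < η ∧
      (∀ X : ℝ, X₀ ≤ X → ((E X).card : ℝ) ≤ X ^ (1 - δ)) ∧
      (∀ X : ℝ, X₀ ≤ X → ∀ w : ℕ → ℂ, (∀ q, ‖w q‖ ≤ 1) → ∀ M : ℕ, M₀ ≤ M → (M : ℝ) ≤ X ^ δ →
        mS k (X ^ θ) {β | X * (M : ℝ) ^ (-(1 / 8) : ℝ) < ‖Wm k s X (E X) w β - PG k ⌊X ^ η⌋₊ (Sk s X w M) β‖} ≤
          ENNReal.ofReal (X ^ (k * θ) * (M : ℝ) ^ (-(1 / 4) : ℝ))) ∧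
      ∀ B : ℕ, ∃ X₁ : ℝ, ∀ X : ℝ, X₁ ≤ X →
        mS k (X ^ θ) {β | ∃ l : ℕ, 1 ≤ l ∧ (l : ℝ) ≤ Real.log X ^ B ∧ X / Real.log X ^ B <
          ‖Wm k s X (E X) (fun q => wp q * vl s q l) β - ((pX X / 2 : ℝ) : ℂ) * Dg k l ⌊X ^ η⌋₊ β‖} ≤
          ENNReal.ofReal (X ^ (k * θ) / Real.log X ^ B) := by
  classical
  obtain ⟨δ, η, X₁, hδ0, hη0, hδη, hηθ, hmain⟩ := main_w' k 0 hk s hs θ (1 / 2) hθ hθ1 (by norm_num) le_rfl
  obtain ⟨C, hC0, hmsq⟩ := msq (t_AVG t_UNI) hk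
  have hk0 : (0 : ℝ) < k := by exact_mod_cast hk
  have hmain' : ∀ X : ℝ, X₁ ≤ X → 2 ≤ X ∧ 1 ≤ X ^ η ∧ ∃ E : Finset ℕ, (E.card : ℝ) ≤ X ^ (1 - δ) ∧
      ∀ w : ℕ → ℂ, (∀ q, ‖w q‖ ≤ 1) →
        mS k (X ^ θ) {β | X ^ (1 - δ) / 2 < ‖Wm k s X E w β - PG k ⌊X ^ η⌋₊ (Sw s X w) β‖} ≤
          ENNReal.ofReal (X ^ (k * θ - 2 * δ)) := by
    intro X hX
    obtain ⟨h1, h2, h3⟩ := hmain X hX
    obtain ⟨E, _, h5, h6⟩ := h3 (fun _ => 1) (fun i => i.elim0)
    refine ⟨h1, h2, E, h5, fun w hw => ?_⟩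
    have h7 := h6 w hw
    simp only [TT0] at h7
    exact h7
  -- the exceptional set
  set E : ℝ → Finset ℕ := fun X => if h : X₁ ≤ X then (hmain' X h).2.2.choose else ∅ with hE
  have hEs : ∀ X : ℝ, X₁ ≤ X → ((E X).card : ℝ) ≤ X ^ (1 - δ) ∧
      ∀ w : ℕ → ℂ, (∀ q, ‖w q‖ ≤ 1) →
        mS k (X ^ θ) {β | X ^ (1 - δ) / 2 < ‖Wm k s X (E X) w β - PG k ⌊X ^ η⌋₊ (Sw s X w) β‖} ≤
          ENNReal.ofReal (X ^ (k * θ - 2 * δ)) := by
    intro X hX
    rw [hE]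
    simp only [dif_pos hX]
    exact (hmain' X hX).2.2.choose_spec
  obtain ⟨M₁, hM₁⟩ := exists_nat_ge ((8 * C) ^ 4)
  have ev1 := rpow_ev 2 hδ0
  obtain ⟨X₀, hX₀⟩ := eventually_atTop.1 (ev1.and (eventually_ge_atTop X₁))
  refine ⟨δ, η, X₀, M₁ + 1, E, hδ0, hη0, fun X hX => (hEs X (hX₀ X hX).2).1, ?_, ?_⟩
  · -- weights
    intro X hX w hw M hM hMX
    obtain ⟨v1, v2⟩ := hX₀ X hX
    obtain ⟨hX2, hXη, -⟩ := hmain' X v2
    obtain ⟨-, hE2⟩ := hEs X v2
    have hX0 : 0 < X := by linarith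
    have hX1 : 1 ≤ X := by linarith
    have hM1 : 1 ≤ M := le_trans (Nat.le_add_left 1 M₁) hM
    have hMr : (1 : ℝ) ≤ M := by exact_mod_cast hM1
    have hM0 : (0 : ℝ) < M := by linarith
    set N : ℕ := ⌊X ^ η⌋₊ with hNd
    obtain ⟨f1, f2, f3⟩ := floor_half hXη
    rw [← hNd] at f1 f2 f3
    obtain ⟨p1, p2, p3⟩ := params (k := k) hθ1 hη0 hδη hηθ hX1 f2 hMX
    have hXθ : 1 ≤ X ^ θ := Real.one_le_rpow hX1 hθ.le
    set γ : ℕ → ℂ := fun n => Sw s X w n - Sk s X w M n with hγ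
    have hγle : ∀ n, ‖γ n‖ ≤ ‖Sw s X w n‖ := by
      intro n
      rw [hγ]
      unfold Sk
      simp only
      split_ifs
      · rw [sub_self, norm_zero]; exact norm_nonneg _
      · rw [sub_zero]
    have hm := hmsq s X 0 (X ^ θ) N M w γ hs hX1 hM1 le_rfl f3 hXθ p1 p2 hw
      (fun n => (hγle n).trans ((Sw_le hX1 hw n).trans (by linarith))) (fun a f _ _ _ => hγle _) (by
        intro a f ha hf haM
        have : ∃ a' : ℕ, 1 ≤ a' ∧ a' ≤ M ∧ IsSquare (f ^ 2 * a * a') :=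
          ⟨a, (mem_SF.1 ha).1.1, haM, ⟨f * a, by ring⟩⟩
        rw [hγ]
        unfold Sk
        simp only
        rw [if_pos this, sub_self, norm_zero])
    have hlam : 0 < X * (M : ℝ) ^ (-(1 / 8) : ℝ) / 2 := by positivity
    have hch := cheb (μ := mS k (X ^ θ)) (g := fun β => ‖PG k N γ β‖) (PG_cont k N γ).norm.aemeasurable hlam hm
    have hsub : {β : Fin k → ℝ | X * (M : ℝ) ^ (-(1 / 8) : ℝ) < ‖Wm k s X (E X) w β - PG k N (Sk s X w M) β‖} ⊆
        {β | X ^ (1 - δ) / 2 < ‖Wm k s X (E X) w β - PG k N (Sw s X w) β‖} ∪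
        {β | X * (M : ℝ) ^ (-(1 / 8) : ℝ) / 2 < ‖PG k N γ β‖} := by
      intro β hβ
      simp only [mem_setOf_eq, mem_union] at hβ ⊢
      by_contra hcon
      rw [not_or, not_lt, not_lt] at hcon
      have h1 : PG k N γ β = PG k N (Sw s X w) β - PG k N (Sk s X w M) β := PG_sub k N _ _ β
      have h2 := norm_add_le (Wm k s X (E X) w β - PG k N (Sw s X w) β)
        (PG k N (Sw s X w) β - PG k N (Sk s X w M) β)
      rw [sub_add_sub_cancel, ← h1] at h2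
      have h3 : X ^ (1 - δ) ≤ X * (M : ℝ) ^ (-(1 / 8) : ℝ) := by
        rw [Real.rpow_sub hX0, Real.rpow_one, div_eq_mul_inv, ← Real.rpow_neg hX0.le]
        apply mul_le_mul_of_nonneg_left _ hX0.le
        have h4 : (M : ℝ) ^ (1 / 8 : ℝ) ≤ X ^ δ := by
          calc (M : ℝ) ^ (1 / 8 : ℝ) ≤ (M : ℝ) ^ (1 : ℝ) := Real.rpow_le_rpow_of_exponent_le hMr (by norm_num)
            _ ≤ X ^ δ := by rw [Real.rpow_one]; exact hMX
        rw [Real.rpow_neg hX0.le, Real.rpow_neg hM0.le]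
        exact inv_anti₀ (by positivity) h4
      linarith [hcon.1, hcon.2]
    refine (measure_mono hsub).trans ((measure_union_le _ _).trans ?_)
    refine (add_le_add (hE2 w hw) hch).trans ?_
    rw [← ENNReal.ofReal_add (by positivity) (by positivity)]
    apply ENNReal.ofReal_le_ofReal
    have hXk : X ^ (k * θ) = (X ^ θ) ^ k := by
      rw [mul_comm, Real.rpow_mul hX0.le, Real.rpow_natCast]
    have h1 : X ^ (k * θ - 2 * δ) ≤ X ^ (k * θ) * (M : ℝ) ^ (-(1 / 4) : ℝ) / 2 := by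
      rw [Real.rpow_sub hX0, div_eq_mul_inv, mul_div_assoc]
      apply mul_le_mul_of_nonneg_left _ (by positivity)
      rw [Real.rpow_neg hM0.le, ← one_div, ← one_div, div_div]
      apply one_div_le_one_div_of_le (by positivity)
      have h4 : (M : ℝ) ^ (1 / 4 : ℝ) ≤ X ^ δ := by
        calc (M : ℝ) ^ (1 / 4 : ℝ) ≤ (M : ℝ) ^ (1 : ℝ) := Real.rpow_le_rpow_of_exponent_le hMr (by norm_num)
          _ ≤ X ^ δ := by rw [Real.rpow_one]; exact hMX
      calc (M : ℝ) ^ (1 / 4 : ℝ) * 2 ≤ X ^ δ * X ^ δ := by gcongr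
        _ = X ^ (2 * δ) := by rw [← Real.rpow_add hX0]; congr 1; ring
    have h2 : (X ^ θ) ^ k * (C * (X ^ 2 * (M : ℝ) ^ (-(3 / 4) : ℝ) + M * 0 ^ 2)) /
        (X * (M : ℝ) ^ (-(1 / 8) : ℝ) / 2) ^ 2 ≤ X ^ (k * θ) * (M : ℝ) ^ (-(1 / 4) : ℝ) / 2 := by
      have h3 : (X * (M : ℝ) ^ (-(1 / 8) : ℝ) / 2) ^ 2 = X ^ 2 * (M : ℝ) ^ (-(1 / 4) : ℝ) / 4 := by
        rw [div_pow, mul_pow, ← Real.rpow_natCast ((M : ℝ) ^ (-(1 / 8) : ℝ)), ← Real.rpow_mul hM0.le]
        norm_num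
      have h4 : (M : ℝ) ^ (-(3 / 4) : ℝ) = (M : ℝ) ^ (-(1 / 4) : ℝ) * ((M : ℝ) ^ (-(1 / 4) : ℝ) * (M : ℝ) ^ (-(1 / 4) : ℝ)) := by
        rw [← Real.rpow_add hM0, ← Real.rpow_add hM0]
        norm_num
      have h5 : 8 * C * (M : ℝ) ^ (-(1 / 4) : ℝ) ≤ 1 := by
        have h6 : 8 * C ≤ (M : ℝ) ^ (1 / 4 : ℝ) := by
          have h7 : (8 * C) ^ 4 ≤ M := by
            have : (M₁ : ℝ) ≤ M := by exact_mod_cast (by omega : M₁ ≤ M)
            linarith
          calc 8 * C = ((8 * C) ^ 4) ^ (1 / 4 : ℝ) := by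
                rw [← Real.rpow_natCast, ← Real.rpow_mul (by positivity)]
                norm_num
            _ ≤ (M : ℝ) ^ (1 / 4 : ℝ) := Real.rpow_le_rpow (by positivity) h7 (by norm_num)
        rw [Real.rpow_neg hM0.le, ← div_eq_mul_inv, div_le_one (by positivity)]
        exact h6
      rw [h3, h4, hXk]
      have h8 : 0 ≤ (X ^ θ) ^ k * (M : ℝ) ^ (-(1 / 4) : ℝ) := by positivity
      calc (X ^ θ) ^ k * (C * (X ^ 2 * ((M : ℝ) ^ (-(1 / 4) : ℝ) *
            ((M : ℝ) ^ (-(1 / 4) : ℝ) * (M : ℝ) ^ (-(1 / 4) : ℝ))) + M * 0 ^ 2)) /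
            (X ^ 2 * (M : ℝ) ^ (-(1 / 4) : ℝ) / 4)
          = (X ^ θ) ^ k * (M : ℝ) ^ (-(1 / 4) : ℝ) * (8 * C * (M : ℝ) ^ (-(1 / 4) : ℝ)) / 2 := by
            field_simp
            ring
        _ ≤ (X ^ θ) ^ k * (M : ℝ) ^ (-(1 / 4) : ℝ) * 1 / 2 := by gcongr
        _ = _ := by rw [mul_one]
    linarith
  · -- the primes
    have hone : ∀ B : ℕ, ∃ X₁ : ℝ, ∀ X : ℝ, X₁ ≤ X → 2 ≤ Real.log X ∧ 0 < X ∧
        ∀ l : ℕ, 1 ≤ l → (l : ℝ) ≤ Real.log X ^ B →
        mS k (X ^ θ) {β | X / Real.log X ^ B < ‖Wm k s X (E X) (fun q => wp q * vl s q l) β -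
          ((pX X / 2 : ℝ) : ℂ) * Dg k l ⌊X ^ η⌋₊ β‖} ≤ ENNReal.ofReal (X ^ (k * θ) / Real.log X ^ B) := by
      intro B
      set K : ℕ := 4 * B + 4 with hK
      obtain ⟨X₂, hker⟩ := Sw_kernel K (B + K)
      have ev2 : ∀ᶠ X : ℝ in atTop, (1 * Real.log X) ^ B ≤ X ^ δ := log_small B one_pos hδ0
      have ev3 : ∀ᶠ X : ℝ in atTop, (1 * Real.log X) ^ K ≤ X ^ δ := log_small K one_pos hδ0
      have ev5 : ∀ᶠ X : ℝ in atTop, (1 * Real.log X) ^ (B + K) ≤ X ^ (1 / 4 : ℝ) :=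
        log_small (B + K) one_pos (by norm_num)
      have ev4 : ∀ᶠ X : ℝ in atTop, 24 * C + 2 ≤ Real.log X := Real.tendsto_log_atTop.eventually_ge_atTop _
      obtain ⟨X₃, hX₃⟩ := eventually_atTop.1 (((ev2.and ev3).and ev5).and ((ev4.and ev1).and
        ((eventually_ge_atTop X₁).and (eventually_ge_atTop X₂))))
      refine ⟨X₃, fun X hX => ?_⟩
      obtain ⟨⟨⟨u1, u2⟩, u7⟩, ⟨u3, u4⟩, u5, u6⟩ := hX₃ X hX
      rw [one_mul] at u1 u2 u7
      obtain ⟨hX2, hXη, -⟩ := hmain' X u5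
      obtain ⟨-, hE2⟩ := hEs X u5
      have hX0 : 0 < X := by linarith
      have hX1 : 1 ≤ X := by linarith
      set L : ℝ := Real.log X with hL
      have hl2 : 2 ≤ L := by linarith
      have hl0 : 0 < L := by linarith
      have hl1 : 1 ≤ L := by linarith
      refine ⟨hl2, hX0, ?_⟩
      intro l hll hlB
      set N : ℕ := ⌊X ^ η⌋₊ with hNd
      obtain ⟨f1, f2, f3⟩ := floor_half hXη
      rw [← hNd] at f1 f2 f3
      set M : ℕ := ⌊L ^ K⌋₊ with hMd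
      have hlK : 1 ≤ L ^ K := one_le_pow₀ hl1
      obtain ⟨g1, g2, g3⟩ := floor_half hlK
      rw [← hMd] at g1 g2 g3
      have hM0 : (0 : ℝ) < M := by exact_mod_cast g3
      have hMr : (1 : ℝ) ≤ M := by exact_mod_cast g3
      have hMX : (M : ℝ) ≤ X ^ δ := g2.trans u2
      have hlM : l ≤ M := by
        rw [hMd]
        apply Nat.le_floor
        exact hlB.trans (pow_le_pow_right₀ hl1 (by omega))
      obtain ⟨p1, p2, p3⟩ := params (k := k) hθ1 hη0 hδη hηθ hX1 f2 hMX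
      have hXθ : 1 ≤ X ^ θ := Real.one_le_rpow hX1 hθ.le
      have hpX := pX_le hX1
      set w : ℕ → ℂ := fun q => wp q * vl s q l with hw
      have hw1 : ∀ q, ‖w q‖ ≤ 1 := by
        intro q
        rw [hw]
        simp only
        rw [norm_mul]
        calc ‖wp q‖ * ‖vl s q l‖ ≤ 1 * 1 := mul_le_mul (wp_le q) (vl_le1 s q l) (norm_nonneg _) zero_le_one
          _ = 1 := one_mul 1
      have hSw : ∀ n, Sw s X w n = Sw s X wp (l * n) := by
        intro n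
        unfold Sw
        refine Finset.sum_congr rfl fun q _ => ?_
        rw [hw, vl_mul]
        ring
      set γ : ℕ → ℂ := fun n => Sw s X w n - ((if IsSquare (l * n) then pX X / 2 else 0 : ℝ) : ℂ) with hγ
      have hb1 : ∀ n, ‖γ n‖ ≤ 2 * X := by
        intro n
        rw [hγ]
        simp only
        refine (norm_sub_le _ _).trans ?_
        have h1 := Sw_le (s := s) hX1 hw1 n
        have h2 : ‖((if IsSquare (l * n) then pX X / 2 else 0 : ℝ) : ℂ)‖ ≤ X := by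
          rw [Complex.norm_real]
          split_ifs
          · rw [Real.norm_of_nonneg (by linarith [hpX.1])]
            linarith [hpX.1, hpX.2]
          · rw [norm_zero]; exact hX0.le
        linarith
      have hm := hmsq s X (X / L ^ K) (X ^ θ) N M w γ hs hX1 g3 (by positivity) f3 hXθ p1 p2 hw1 hb1 (by
          intro a f ha hf haM
          have ha' := mem_SF.1 ha
          have hf' := Finset.mem_Icc.1 hf
          have h1 : ¬ IsSquare (l * (f ^ 2 * a)) := by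
            intro h
            have := big_kernel hll hf'.1 ha'.2 h
            omega
          rw [hγ]
          simp only
          rw [if_neg h1]
          simp) (by
          intro a f ha hf haM
          have ha' := mem_SF.1 ha
          have hf' := Finset.mem_Icc.1 hf
          have hla : 1 ≤ l * a := Nat.one_le_iff_ne_zero.2 (Nat.mul_ne_zero (by omega) (by omega))
          obtain ⟨g, b, k1, k2, k3, k4, k5⟩ := sqf_dec hla
          have hlaX : ((l * a : ℕ) : ℝ) ≤ L ^ (B + K) := by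
            have h2 : (a : ℝ) ≤ L ^ K := le_trans (by exact_mod_cast haM) g2
            rw [pow_add]
            push_cast
            gcongr
          have h3 : l * (f ^ 2 * a) = (f * g) ^ 2 * b := by
            have : l * (f ^ 2 * a) = f ^ 2 * (l * a) := by ring
            rw [this, k3]
            ring
          have hfg : 1 ≤ f * g := Nat.one_le_iff_ne_zero.2 (Nat.mul_ne_zero (by omega) (by omega))
          have hgX : (g : ℝ) ≤ X ^ (1 / 4 : ℝ) := by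
            have : (g : ℝ) ≤ ((l * a : ℕ) : ℝ) := by exact_mod_cast k4
            linarith
          have hfX : (f : ℝ) ≤ X ^ (1 / 4 : ℝ) := by
            refine le_trans ?_ p3
            exact_mod_cast hf'.2
          have hfgX : ((f * g : ℕ) : ℝ) ≤ X ^ (1 / 2 : ℝ) := by
            calc ((f * g : ℕ) : ℝ) = (f : ℝ) * g := by push_cast; rfl
              _ ≤ X ^ (1 / 4 : ℝ) * X ^ (1 / 4 : ℝ) := by gcongr
              _ = X ^ (1 / 2 : ℝ) := by rw [← Real.rpow_add hX0]; norm_num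
          have h1 := hker X u6 s hs b (f * g) k2 (le_trans (by exact_mod_cast k5) hlaX) hfg hfgX
          rw [hγ]
          simp only
          rw [hSw, h3]
          by_cases h2 : b = 1
          · rw [if_pos ((sqf_sq k2 hfg).2 h2)]
            rw [if_pos h2] at h1
            exact h1
          · rw [if_neg (fun h => h2 ((sqf_sq k2 hfg).1 h))]
            rw [if_neg h2] at h1
            exact h1)
      have hlam : 0 < X / (2 * L ^ B) := by positivity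
      have hch := cheb (μ := mS k (X ^ θ)) (g := fun β => ‖PG k N γ β‖) (PG_cont k N γ).norm.aemeasurable hlam hm
      have hPD : ∀ β : Fin k → ℝ, PG k N (fun n => ((if IsSquare (l * n) then pX X / 2 else 0 : ℝ) : ℂ)) β =
          ((pX X / 2 : ℝ) : ℂ) * Dg k l N β := by
        intro β
        unfold PG Dg
        rw [Finset.mul_sum]
        refine Finset.sum_congr rfl fun n _ => ?_
        by_cases h : IsSquare (l * ∏ j, n j)
        · simp only [if_pos h]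
        · simp only [if_neg h]
          simp
      have hsub : {β : Fin k → ℝ | X / L ^ B < ‖Wm k s X (E X) w β - ((pX X / 2 : ℝ) : ℂ) * Dg k l N β‖} ⊆
          {β | X ^ (1 - δ) / 2 < ‖Wm k s X (E X) w β - PG k N (Sw s X w) β‖} ∪
          {β | X / (2 * L ^ B) < ‖PG k N γ β‖} := by
        intro β hβ
        simp only [mem_setOf_eq, mem_union] at hβ ⊢
        by_contra hcon
        rw [not_or, not_lt, not_lt] at hcon
        have h1 : PG k N γ β = PG k N (Sw s X w) β - ((pX X / 2 : ℝ) : ℂ) * Dg k l N β := by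
          rw [← hPD]
          exact PG_sub k N _ _ β
        have h2 := norm_add_le (Wm k s X (E X) w β - PG k N (Sw s X w) β)
          (PG k N (Sw s X w) β - ((pX X / 2 : ℝ) : ℂ) * Dg k l N β)
        rw [sub_add_sub_cancel, ← h1] at h2
        have h3 : X ^ (1 - δ) / 2 ≤ X / (2 * L ^ B) := by
          rw [Real.rpow_sub hX0, Real.rpow_one, div_div, mul_comm (X ^ δ) 2]
          gcongr
        have h4 : X / L ^ B = X / (2 * L ^ B) + X / (2 * L ^ B) := by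
          field_simp
          ring
        linarith [hcon.1, hcon.2]
      refine (measure_mono hsub).trans ((measure_union_le _ _).trans ?_)
      refine (add_le_add (hE2 w hw1) hch).trans ?_
      rw [← ENNReal.ofReal_add (by positivity) (by positivity)]
      apply ENNReal.ofReal_le_ofReal
      have hXk : X ^ (k * θ) = (X ^ θ) ^ k := by
        rw [mul_comm, Real.rpow_mul hX0.le, Real.rpow_natCast]
      have h1 : X ^ (k * θ - 2 * δ) ≤ X ^ (k * θ) / L ^ B / 2 := by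
        rw [Real.rpow_sub hX0, div_div]
        have h2 : L ^ B * 2 ≤ X ^ (2 * δ) := by
          calc L ^ B * 2 ≤ X ^ δ * X ^ δ := by gcongr
            _ = X ^ (2 * δ) := by rw [← Real.rpow_add hX0]; congr 1; ring
        gcongr
      have h2 : (X ^ θ) ^ k * (C * (X ^ 2 * (M : ℝ) ^ (-(3 / 4) : ℝ) + M * (X / L ^ K) ^ 2)) /
          (X / (2 * L ^ B)) ^ 2 ≤ X ^ (k * θ) / L ^ B / 2 := by
        have h3 : (M : ℝ) ^ (-(3 / 4) : ℝ) ≤ 2 / L ^ (3 * B + 3) := by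
          have h4 : (M : ℝ) ^ (-(3 / 4) : ℝ) ≤ (L ^ K / 2) ^ (-(3 / 4) : ℝ) :=
            Real.rpow_le_rpow_of_nonpos (by positivity) g1 (by norm_num)
          have h5 : (L ^ K / 2) ^ (-(3 / 4) : ℝ) = (2 : ℝ) ^ (3 / 4 : ℝ) / L ^ (3 * B + 3) := by
            rw [Real.rpow_neg (by positivity), Real.div_rpow (by positivity) (by norm_num), inv_div]
            congr 1
            rw [← Real.rpow_natCast, ← Real.rpow_mul hl0.le, ← Real.rpow_natCast]
            congr 1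
            rw [hK]
            push_cast
            ring
          have h6 : (2 : ℝ) ^ (3 / 4 : ℝ) ≤ 2 := by
            calc (2 : ℝ) ^ (3 / 4 : ℝ) ≤ (2 : ℝ) ^ (1 : ℝ) :=
                  Real.rpow_le_rpow_of_exponent_le (by norm_num) (by norm_num)
              _ = 2 := Real.rpow_one 2
          rw [h5] at h4
          exact h4.trans (div_le_div_of_nonneg_right h6 (by positivity))
        have h4 : (M : ℝ) * (X / L ^ K) ^ 2 ≤ X ^ 2 * (1 / L ^ (3 * B + 3)) := by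
          calc (M : ℝ) * (X / L ^ K) ^ 2 ≤ L ^ K * (X / L ^ K) ^ 2 := by gcongr
            _ = X ^ 2 * (1 / L ^ K) := by field_simp
            _ ≤ X ^ 2 * (1 / L ^ (3 * B + 3)) := by
                have : L ^ (3 * B + 3) ≤ L ^ K := pow_le_pow_right₀ hl1 (by omega)
                gcongr
        have h5 : 24 * C ≤ L ^ 3 := by
          have : L ≤ L ^ 3 := le_self_pow₀ hl1 (by norm_num)
          linarith
        rw [hXk]
        calc (X ^ θ) ^ k * (C * (X ^ 2 * (M : ℝ) ^ (-(3 / 4) : ℝ) + M * (X / L ^ K) ^ 2)) / (X / (2 * L ^ B)) ^ 2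
            ≤ (X ^ θ) ^ k * (C * (X ^ 2 * (2 / L ^ (3 * B + 3)) + X ^ 2 * (1 / L ^ (3 * B + 3)))) /
                (X / (2 * L ^ B)) ^ 2 := by gcongr
          _ = (X ^ θ) ^ k / L ^ B / 2 * (24 * C / L ^ 3) := by
              rw [pow_add, pow_mul' L 3 B]
              field_simp
              ring
          _ ≤ (X ^ θ) ^ k / L ^ B / 2 * 1 := by
              apply mul_le_mul_of_nonneg_left _ (by positivity)
              rw [div_le_one (by positivity)]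
              exact h5
          _ = _ := mul_one _
      linarith
    intro B
    obtain ⟨X₂, h1⟩ := hone (2 * B)
    refine ⟨X₂, fun X hX => ?_⟩
    obtain ⟨hl2, hX0, h2⟩ := h1 X hX
    set L : ℝ := Real.log X with hL
    have hl1 : 1 ≤ L := by linarith
    have hl0 : 0 < L := by linarith
    have hBB : L ^ B ≤ L ^ (2 * B) := pow_le_pow_right₀ hl1 (by omega)
    set R : ℕ := ⌊L ^ B⌋₊ with hR
    have hsub : {β : Fin k → ℝ | ∃ l : ℕ, 1 ≤ l ∧ (l : ℝ) ≤ L ^ B ∧ X / L ^ B <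
          ‖Wm k s X (E X) (fun q => wp q * vl s q l) β - ((pX X / 2 : ℝ) : ℂ) * Dg k l ⌊X ^ η⌋₊ β‖} ⊆
        ⋃ l ∈ Finset.Icc 1 R, {β | X / L ^ (2 * B) < ‖Wm k s X (E X) (fun q => wp q * vl s q l) β -
          ((pX X / 2 : ℝ) : ℂ) * Dg k l ⌊X ^ η⌋₊ β‖} := by
      rintro β ⟨l, hl1', hl2', hl3⟩
      simp only [mem_iUnion, mem_setOf_eq]
      refine ⟨l, ?_, lt_of_le_of_lt ?_ hl3⟩
      · rw [Finset.mem_Icc]
        exact ⟨hl1', Nat.le_floor hl2'⟩
      · gcongr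
    refine (measure_mono hsub).trans ((measure_biUnion_finset_le _ _).trans ?_)
    have hR' : (R : ℝ) ≤ L ^ B := Nat.floor_le (by positivity)
    have hcard : ∑ l ∈ Finset.Icc 1 R, mS k (X ^ θ) {β | X / L ^ (2 * B) <
        ‖Wm k s X (E X) (fun q => wp q * vl s q l) β - ((pX X / 2 : ℝ) : ℂ) * Dg k l ⌊X ^ η⌋₊ β‖} ≤
        ∑ l ∈ Finset.Icc 1 R, ENNReal.ofReal (X ^ (k * θ) / L ^ (2 * B)) :=
      Finset.sum_le_sum fun l hl => h2 l (Finset.mem_Icc.1 hl).1 (by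
        have : (l : ℝ) ≤ R := by exact_mod_cast (Finset.mem_Icc.1 hl).2
        linarith)
    refine hcard.trans ?_
    rw [Finset.sum_const, Nat.card_Icc, Nat.add_sub_cancel, nsmul_eq_mul, ← ENNReal.ofReal_natCast,
      ← ENNReal.ofReal_mul (Nat.cast_nonneg _)]
    apply ENNReal.ofReal_le_ofReal
    calc (R : ℝ) * (X ^ (k * θ) / L ^ (2 * B)) ≤ L ^ B * (X ^ (k * θ) / L ^ (2 * B)) :=
          mul_le_mul_of_nonneg_right hR' (by positivity)
      _ = X ^ (k * θ) / L ^ B := by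
          rw [two_mul, pow_add]
          field_simp

end

end Pool.Agent.Run7.h473.QW
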