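import Pool.Agent.Run7.h473.QW.Gd
import Pool.Agent.N879.QM.Coef
import Pool.Agent.N879.QM.Afs
import Pool.Agent.N879.QM.Asm1

set_option autoImplicit false

/-!
Weighted mixed moments: mean squares over the family of products of short Dirichlet polynomials.
-/

namespace Pool.Agent.Run7.h473.QW

open Complex
open Pool.Agent.N879.QM

noncomputable section

lemma vl_conj {s : ℤ} {q : ℕ} (h : Is s q) (n : ℕ) : (starRingEnd ℂ) (vl s q n) = vl s q n := by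
  have h2 : (ch s q) ^ 2 = 1 := (Is_ch h).2.1
  unfold vl
  by_cases hu : IsUnit (n : ZMod q)
  · have h3 : (ch s q (n : ZMod q)) ^ 2 = 1 := by
      rw [← MulChar.pow_apply' _ two_ne_zero, h2, MulChar.one_apply hu]
    rw [sq] at h3
    rcases mul_self_eq_one_iff.1 h3 with h4 | h4
    · rw [h4]; simp
    · rw [h4]; simp
  · rw [MulChar.map_nonunit _ hu]; simp

lemma Pz_conj {s : ℤ} {q : ℕ} (h : Is s q) (N : ℕ) (z : ℂ) :
    (starRingEnd ℂ) (Pz s q N z) = Pz s q N ((starRingEnd ℂ) z) := by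
  unfold Pz
  rw [map_sum]
  refine Finset.sum_congr rfl fun n hn => ?_
  rw [map_mul, vl_conj h]
  congr 1
  have h1 : ((n : ℂ)).arg ≠ Real.pi := by
    rw [Complex.natCast_arg]
    exact Real.pi_ne_zero.symm
  have h2 := Complex.cpow_conj (n : ℂ) (-z) h1
  rw [map_neg, Complex.conj_natCast] at h2
  exact h2.symm

variable (ι : Type) [Fintype ι] [DecidableEq ι]

lemma card_fibG (N m : ℕ) (hm : 1 ≤ m) :
    ((box ι N).filter (fun n => ∏ j, n j = m)).card ≤ m.divisors.card ^ Fintype.card ι := by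
  classical
  have h1 : m.divisors.card ^ Fintype.card ι = (Fintype.piFinset fun _ : ι => m.divisors).card := by
    rw [Fintype.card_piFinset, Finset.prod_const, Finset.card_univ]
  rw [h1]
  refine Finset.card_le_card fun n hn => ?_
  rw [Finset.mem_filter] at hn
  rw [Fintype.mem_piFinset]
  intro j
  rw [Nat.mem_divisors]
  exact ⟨by rw [← hn.2]; exact Finset.dvd_prod_of_mem n (Finset.mem_univ j), by omega⟩

lemma DG_bound {η : ℝ} (hη : 0 < η) : ∃ C : ℝ, 0 < C ∧ ∀ (N : ℕ) (z : ι → ℂ), 1 ≤ N → (∀ i, 1 / 2 ≤ (z i).re) →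
    ‖DG ι 1 N z‖ ≤ C * ((N : ℝ) ^ Fintype.card ι) ^ (3 * η) := by
  classical
  obtain ⟨C, hC0, hC⟩ := Coef.div_pow (Fintype.card ι) η hη
  refine ⟨C * (1 + 1 / η), by positivity, fun N z hN hz => ?_⟩
  set L : ℕ := N ^ Fintype.card ι with hL
  have hL1 : 1 ≤ L := Nat.one_le_pow _ _ hN
  have hL0 : (0 : ℝ) < L := by exact_mod_cast hL1
  have hL1' : (1 : ℝ) ≤ L := by exact_mod_cast hL1
  have hLr : (N : ℝ) ^ Fintype.card ι = L := by rw [hL]; push_cast; rfl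
  rw [hLr]
  have hprod : ∀ n ∈ box ι N, 1 ≤ ∏ j, n j ∧ ∏ j, n j ≤ L := by
    intro n hn
    rw [mem_box] at hn
    refine ⟨Nat.one_le_iff_ne_zero.2 (Finset.prod_ne_zero_iff.2 fun j _ => by have := (hn j).1; omega), ?_⟩
    calc ∏ j, n j ≤ ∏ _j : ι, N := Finset.prod_le_prod' fun j _ => (hn j).2
      _ = L := by rw [Finset.prod_const, Finset.card_univ, hL]
  have h0 : ‖DG ι 1 N z‖ ≤ ∑ n ∈ (box ι N).filter (fun n => IsSquare (∏ j, n j)),
      ((∏ j, n j : ℕ) : ℝ) ^ (-(1 / 2) : ℝ) := by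
    unfold DG
    rw [Finset.sum_filter]
    refine (norm_sum_le _ _).trans (Finset.sum_le_sum fun n hn => ?_)
    rw [one_mul]
    split_ifs with hsq
    · rw [norm_mul, Complex.norm_real, Real.norm_of_nonneg (Coef.af_nonneg _)]
      have h1 := norm_cz_le (z := z) (fun j => (mem_box.1 hn j).1) hz
      calc af (∏ j, n j) * ‖cz n z‖ ≤ 1 * ((∏ j, n j : ℕ) : ℝ) ^ (-(1 / 2) : ℝ) :=
            mul_le_mul (Coef.af_le_one _) h1 (norm_nonneg _) zero_le_one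
        _ = _ := one_mul _
    · rw [norm_zero]
  refine h0.trans ?_
  have h1 : ∑ n ∈ (box ι N).filter (fun n => IsSquare (∏ j, n j)), ((∏ j, n j : ℕ) : ℝ) ^ (-(1 / 2) : ℝ) ≤
      ∑ m ∈ Finset.Icc 1 L, ∑ n ∈ (box ι N).filter (fun n => ∏ j, n j = m ^ 2),
        ((∏ j, n j : ℕ) : ℝ) ^ (-(1 / 2) : ℝ) := by
    have h2 : ∀ n ∈ (box ι N).filter (fun n => IsSquare (∏ j, n j)),
        Nat.sqrt (∏ j, n j) ∈ Finset.Icc 1 L := by
      intro n hn
      rw [Finset.mem_filter] at hn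
      obtain ⟨hn1, hn2⟩ := hn
      obtain ⟨h3, h4⟩ := hprod n hn1
      rw [Finset.mem_Icc]
      refine ⟨?_, (Nat.sqrt_le_self _).trans h4⟩
      rw [Nat.one_le_iff_ne_zero]
      intro h
      rw [Nat.sqrt_eq_zero] at h
      omega
    rw [← Finset.sum_fiberwise_of_maps_to h2]
    refine Finset.sum_le_sum fun m hm => ?_
    refine Finset.sum_le_sum_of_subset_of_nonneg ?_ fun n _ _ => by positivity
    intro n hn
    rw [Finset.mem_filter, Finset.mem_filter] at hn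
    rw [Finset.mem_filter]
    refine ⟨hn.1.1, ?_⟩
    obtain ⟨a, ha⟩ := hn.1.2
    rw [← hn.2, ha, Nat.sqrt_eq, sq]
  refine h1.trans ?_
  have h3 : ∀ m ∈ Finset.Icc 1 L, ∑ n ∈ (box ι N).filter (fun n => ∏ j, n j = m ^ 2),
        ((∏ j, n j : ℕ) : ℝ) ^ (-(1 / 2) : ℝ) ≤ C * (L : ℝ) ^ (2 * η) * (m : ℝ)⁻¹ := by
    intro m hm
    rw [Finset.mem_Icc] at hm
    have hm0 : (0 : ℝ) < m := by exact_mod_cast hm.1
    have h4 : ∀ n ∈ (box ι N).filter (fun n => ∏ j, n j = m ^ 2),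
        ((∏ j, n j : ℕ) : ℝ) ^ (-(1 / 2) : ℝ) = (m : ℝ)⁻¹ := by
      intro n hn
      rw [Finset.mem_filter] at hn
      rw [hn.2]
      push_cast
      rw [← Real.rpow_natCast (m : ℝ) 2, ← Real.rpow_mul hm0.le, ← Real.rpow_neg_one]
      norm_num
    rw [Finset.sum_congr rfl h4, Finset.sum_const, nsmul_eq_mul]
    have h5 : (((box ι N).filter (fun n => ∏ j, n j = m ^ 2)).card : ℝ) ≤
        C * ((m : ℝ) ^ 2) ^ η := by
      refine le_trans ?_ (by have := hC (m ^ 2) (Nat.one_le_pow _ _ hm.1); push_cast at this; exact this)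
      exact_mod_cast card_fibG ι N (m ^ 2) (Nat.one_le_pow _ _ hm.1)
    have h6 : ((m : ℝ) ^ 2) ^ η ≤ (L : ℝ) ^ (2 * η) := by
      rw [← Real.rpow_natCast (m : ℝ) 2, ← Real.rpow_mul hm0.le]
      push_cast
      exact Real.rpow_le_rpow hm0.le (by exact_mod_cast hm.2) (by positivity)
    refine mul_le_mul_of_nonneg_right (h5.trans ?_) (by positivity)
    exact mul_le_mul_of_nonneg_left h6 hC0.le
  refine (Finset.sum_le_sum h3).trans ?_
  rw [← Finset.mul_sum]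
  have h7 : ∑ m ∈ Finset.Icc 1 L, (m : ℝ)⁻¹ ≤ 1 + Real.log L := by
    have h5 := harmonic_le_one_add_log L
    rw [harmonic_eq_sum_Icc] at h5
    push_cast at h5
    exact h5
  have h8 : Real.log L ≤ (L : ℝ) ^ η / η := Real.log_le_rpow_div hL0.le hη
  have h9 : (1 : ℝ) ≤ (L : ℝ) ^ η := Real.one_le_rpow hL1' hη.le
  have h10 : 1 + Real.log L ≤ (1 + 1 / η) * (L : ℝ) ^ η := by
    have : (L : ℝ) ^ η / η = 1 / η * (L : ℝ) ^ η := by ring
    rw [this] at h8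
    linarith
  calc C * (L : ℝ) ^ (2 * η) * ∑ m ∈ Finset.Icc 1 L, (m : ℝ)⁻¹
      ≤ C * (L : ℝ) ^ (2 * η) * ((1 + 1 / η) * (L : ℝ) ^ η) :=
        mul_le_mul_of_nonneg_left (h7.trans h10) (by positivity)
    _ = C * (1 + 1 / η) * ((L : ℝ) ^ (2 * η) * (L : ℝ) ^ η) := by ring
    _ = C * (1 + 1 / η) * (L : ℝ) ^ (3 * η) := by
        rw [← Real.rpow_add hL0]
        ring_nf

/-- mean squares over the family -/
theorem pw (h : S_AVG) {ε : ℝ} (hε : 0 < ε) : ∃ C : ℝ, 0 < C ∧ ∀ (s : ℤ) (X : ℝ) (N : ℕ) (z : ι → ℂ),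
    s = 1 ∨ s = -1 → 1 ≤ X → 1 ≤ N → (N : ℝ) ^ (2 * Fintype.card ι) ≤ X ^ (1 / 2 : ℝ) →
    (∀ i, 1 / 2 ≤ (z i).re) →
    ∑ q ∈ Q s X, ∏ j, ‖Pz s q N (z j)‖ ^ 2 ≤ C * X ^ (1 + ε) := by
  classical
  obtain ⟨C1, hC1, h1⟩ := gdiag h
  obtain ⟨C2, hC2, h2⟩ := DG_bound (ι ⊕ ι) (η := ε / 3) (by positivity)
  have hc0 : 0 < c0 := by unfold c0; positivity
  refine ⟨C1 + c0 * C2, by positivity, fun s X N z hs hX hN hNX hz => ?_⟩
  have hX0 : 0 < X := by linarith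
  have hz' : ∀ i, 1 / 2 ≤ (Sum.elim z (fun i => (starRingEnd ℂ) (z i)) i).re := by
    rintro (i | i)
    · exact hz i
    · simpa using hz i
  have h3 := h1 (ι ⊕ ι) s X N 1 (Sum.elim z (fun i => (starRingEnd ℂ) (z i))) hs hX le_rfl hz'
  have h4 := h2 N (Sum.elim z (fun i => (starRingEnd ℂ) (z i))) hN hz'
  have hcard : Fintype.card (ι ⊕ ι) = 2 * Fintype.card ι := by rw [Fintype.card_sum]; ring
  rw [hcard] at h3 h4
  have e1 : ∑ q ∈ Q s X, vl s q 1 * ∏ j, Pz s q N (Sum.elim z (fun i => (starRingEnd ℂ) (z i)) j) =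
      ((∑ q ∈ Q s X, ∏ j, ‖Pz s q N (z j)‖ ^ 2 : ℝ) : ℂ) := by
    push_cast
    refine Finset.sum_congr rfl fun q hq => ?_
    have hv : vl s q 1 = 1 := by unfold vl; simp
    rw [hv, one_mul, Fintype.prod_sum_type]
    simp only [Sum.elim_inl, Sum.elim_inr]
    rw [← Finset.prod_mul_distrib]
    refine Finset.prod_congr rfl fun j _ => ?_
    rw [← Pz_conj (Q_is hq).1, Complex.mul_conj, Complex.normSq_eq_norm_sq]
    push_cast
    rfl
  rw [e1] at h3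
  have h5 : (∑ q ∈ Q s X, ∏ j, ‖Pz s q N (z j)‖ ^ 2 : ℝ) ≤
      C1 * √X * √((1 : ℕ) : ℝ) * (N : ℝ) ^ (2 * Fintype.card ι) +
      c0 * X * (C2 * ((N : ℝ) ^ (2 * Fintype.card ι)) ^ (3 * (ε / 3))) := by
    have h6 : (∑ q ∈ Q s X, ∏ j, ‖Pz s q N (z j)‖ ^ 2 : ℝ) ≤
        ‖((∑ q ∈ Q s X, ∏ j, ‖Pz s q N (z j)‖ ^ 2 : ℝ) : ℂ)‖ := by
      rw [Complex.norm_real]; exact Real.le_norm_self _
    have h7 := norm_le_norm_sub_add ((∑ q ∈ Q s X, ∏ j, ‖Pz s q N (z j)‖ ^ 2 : ℝ) : ℂ)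
      (((c0 * X : ℝ) : ℂ) * DG (ι ⊕ ι) 1 N (Sum.elim z (fun i => (starRingEnd ℂ) (z i))))
    have h8 : ‖((c0 * X : ℝ) : ℂ) * DG (ι ⊕ ι) 1 N (Sum.elim z (fun i => (starRingEnd ℂ) (z i)))‖ ≤
        c0 * X * (C2 * ((N : ℝ) ^ (2 * Fintype.card ι)) ^ (3 * (ε / 3))) := by
      rw [norm_mul, Complex.norm_real, Real.norm_of_nonneg (by positivity)]
      exact mul_le_mul_of_nonneg_left h4 (by positivity)
    exact h6.trans (h7.trans (add_le_add h3 h8))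
  refine h5.trans ?_
  have h9 : √X = X ^ (1 / 2 : ℝ) := Real.sqrt_eq_rpow X
  have h10 : X ≤ X ^ (1 + ε) := by
    nth_rewrite 1 [← Real.rpow_one X]
    exact Real.rpow_le_rpow_of_exponent_le hX (by linarith)
  have h11 : C1 * √X * √((1 : ℕ) : ℝ) * (N : ℝ) ^ (2 * Fintype.card ι) ≤ C1 * X ^ (1 + ε) := by
    rw [Nat.cast_one, Real.sqrt_one, mul_one, h9]
    calc C1 * X ^ (1 / 2 : ℝ) * (N : ℝ) ^ (2 * Fintype.card ι) ≤ C1 * X ^ (1 / 2 : ℝ) * X ^ (1 / 2 : ℝ) :=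
          mul_le_mul_of_nonneg_left hNX (by positivity)
      _ = C1 * X := by
          rw [mul_assoc, ← Real.rpow_add hX0]; norm_num
      _ ≤ _ := mul_le_mul_of_nonneg_left h10 hC1.le
  have h12 : ((N : ℝ) ^ (2 * Fintype.card ι)) ^ (3 * (ε / 3)) ≤ X ^ ε := by
    have h13 : (3 * (ε / 3)) = ε := by ring
    rw [h13]
    calc ((N : ℝ) ^ (2 * Fintype.card ι)) ^ ε ≤ (X ^ (1 / 2 : ℝ)) ^ ε :=
          Real.rpow_le_rpow (by positivity) hNX hε.le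
      _ = X ^ (1 / 2 * ε : ℝ) := (Real.rpow_mul hX0.le _ _).symm
      _ ≤ X ^ ε := Real.rpow_le_rpow_of_exponent_le hX (by linarith)
  have h14 : c0 * X * (C2 * ((N : ℝ) ^ (2 * Fintype.card ι)) ^ (3 * (ε / 3))) ≤ c0 * C2 * X ^ (1 + ε) := by
    calc c0 * X * (C2 * ((N : ℝ) ^ (2 * Fintype.card ι)) ^ (3 * (ε / 3))) ≤ c0 * X * (C2 * X ^ ε) := by gcongr
      _ = c0 * C2 * (X ^ (1 : ℝ) * X ^ ε) := by rw [Real.rpow_one]; ring
      _ = _ := by rw [← Real.rpow_add hX0]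
  rw [add_mul]
  exact add_le_add h11 h14

end

end Pool.Agent.Run7.h473.QW
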